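import Pool.Agent.H97.VF.VdF
import Pool.Agent.H24.DR3.Pv3

/-!
# Three places, the last one is the pivot, one law

`pv_3F`: from the inputs `PrV` for three places, the row of the three own heights on the whole block,
`(3 - h) X log 2`, and the fullness of the first two heights on a grid: on one event of fixed
probability a combination of the gradients with the coefficient `1` at the last place is closed; the
combination is a function of the line, and of the digits of the heights with the base.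
-/

set_option autoImplicit false

namespace Pool.DR24

open Finset Real MvPolynomial
open Pool.Agent.H49.Ent Pool.Agent.H32.Dense Pool.STK Pool.KA Pool.KSAT Pool.K2S Pool.PB Pool.S6C
open Pool.GEN Pool.CHT Pool.CHX Pool.ISO Pool.LA91 Pool.AVG71 Pool.AVG5 Pool.D2F2 Pool.AVG57
open Pool.PB.Trl (rt rt_mem t_rt)
open Pool.D2R (hgt)
open Pool.KVA (MI)
open Pool.KAF (rs Pr)
open Pool.BFL (Pb)
open Pool.LV64

/-- The numbers. -/
theorem piv_numF {h θ : ℝ} (hh : 0 < h) (hh1 : h ≤ 1) (hθ : 0 < θ) :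
    ∃ a₂ bs : ℝ, 0 < a₂ ∧ a₂ ≤ h / 64 ∧ a₂ ≤ 1 / 64 ∧ bs = h / 32 - a₂ ∧ 0 < bs ∧ bs ≤ 1 / 32 ∧
      a₂ ≤ θ * (bs / 2) := by
  obtain ⟨r, hr⟩ : ∃ r : ℝ, r = min (θ / 4) (1 / 2) := ⟨_, rfl⟩
  have r0 : 0 < r := by rw [hr]; exact lt_min (by linarith) (by norm_num)
  have r1 : r ≤ θ / 4 := by rw [hr]; exact min_le_left _ _
  have r2 : r ≤ 1 / 2 := by rw [hr]; exact min_le_right _ _
  obtain ⟨b, hb⟩ : ∃ b : ℝ, b = h / 32 := ⟨_, rfl⟩
  have b0 : 0 < b := by rw [hb]; linarith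
  have b1 : b ≤ 1 / 32 := by rw [hb]; linarith
  obtain ⟨a₂, ha₂⟩ : ∃ a₂ : ℝ, a₂ = r * b := ⟨_, rfl⟩
  have p2 : 0 < a₂ := by rw [ha₂]; positivity
  have q2 : a₂ ≤ 1 / 2 * b := by rw [ha₂]; exact mul_le_mul_of_nonneg_right r2 b0.le
  have s2 : a₂ ≤ θ / 4 * b := by rw [ha₂]; exact mul_le_mul_of_nonneg_right r1 b0.le
  have t2 : θ / 4 * b ≤ θ * ((b - a₂) / 2) := by
    have h1 : θ / 4 * b = θ * (b / 4) := by ring
    rw [h1]
    exact mul_le_mul_of_nonneg_left (by linarith) hθ.le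
  refine ⟨a₂, b - a₂, p2, ?_, by linarith, by rw [hb], by linarith, by linarith, by linarith⟩
  rw [hb] at q2
  linarith

/-- **Three places, one law**: one closed combination of the gradients, the last
place is the pivot. -/
theorem pv_3F (k K : ℕ) (hK : 1 ≤ K) {h θ : ℝ} (hh : 0 < h) (hh1 : h ≤ 1) (hθ : 0 < θ) :
    ∃ κ₂ ζ₂ κ : ℝ, 0 < κ₂ ∧ κ₂ ≤ 1 / 4 ∧ 0 ≤ ζ₂ ∧ ζ₂ ≤ θ * κ₂ ∧ 0 < κ ∧ κ ≤ h / 64 ∧
      ∃ c₀ ι π₀ : ℝ, 0 < c₀ ∧ 0 < ι ∧ 0 < π₀ ∧ ∃ X₀ : ℕ,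
      ∀ {m J : ℕ} {F : Fam m J} {c : ℕ → Fin m} {mv : Fin k → ℕ} {tg qt Xt : Fin 3 → ℕ}
        {q w W X mm D : ℕ} {γ : ℕ → ℕ} {B : F.Ω → Prop}
        {G₀ : PtT F → ℕ → MvPolynomial (Option (Fin m)) ℝ}
        {H : LnT F → ℕ → MvPolynomial (Option (Fin m)) ℝ} {gg : F.Ω → Fin 3 → Fin k → ℝ}
        {ζ₀ ζ' υ' χ₁ χ₂ ρ₁ ρ₂ σ' : Type} {z : F.Ω → ζ₀} {zw : F.Ω → ζ'} {Yc : F.Ω → υ'}
        {Cj : F.Ω → χ₁} {Cx : F.Ω → χ₂} {Rj : F.Ω → ρ₁} {Rx : F.Ω → ρ₂} {Bs : F.Ω → σ'}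
        {Nb : Fin k → ℝ} {p : F.Ω → ℝ} {Nf Nn Nx Nu Nv : Fin k → ℕ → ℝ}
        {Mf Mn : Fin 3 → ℕ → ℝ} {U e : ℝ}
        (_ : PrV F c mv tg qt Xt q w W X mm D K γ B G₀ H gg z zw Yc Cj Cx Rj Rx
          (Vm F c mv w H Nb) p Nf Nn Nx Nu Nv Mf Mn U (k * (X * Real.log 2)) e)
        {Ur ψ ε₀ : ℝ} {j₀ : ℕ}, (∀ j, ((γ (mv j) + q + X : ℕ) : ℝ) ≤ Nb j) →
        (∀ j, Nb j ≤ (γ (mv j) + q + (X + mm) : ℕ)) → (∀ u, Xt u = X) →
        Det p (fun ω => ((Vm F c mv w H Nb ω, Mu F c tg qt w γ H ω),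
          ((adV F c mv tg qt Xt q w W X mm γ gg H z).T ω,
            (adV F c mv tg qt Xt q w W X mm γ gg H z).g K ω))) Bs →
        MI p (Mm F c tg w H (fun u => γ (tg u) + qt u + Xt u)) (fun ω => (Vm F c mv w H Nb ω,
          ((adV F c mv tg qt Xt q w W X mm γ gg H z).T ω,
            (adV F c mv tg qt Xt q w W X mm γ gg H z).g K ω))) Bs ≤ ι * X →
        (∀ E : Set F.Ω, π₀ ≤ Pr p E → CH (rs p E)
          (Mm F c tg w H (fun u => γ (tg u) + qt u + Xt u))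
          (fun ω => ((Vm F c mv w H Nb ω, Mu F c tg qt w γ H ω), (rt F W ω, z ω))) ≤ Ur) →
        FB p (fun ω => ((Vm F c mv w H Nb ω, Mu F c tg qt w γ H ω), (rt F W ω, z ω)))
          (Mm F c tg w H (fun u => γ (tg u) + qt u + Xt u)) X ⌊κ * X⌋₊
          (⌊κ * X⌋₊ * Real.log 2 - ι * X) π₀ →
        TimW F p W j₀ ε₀ ψ → Det p (slam F W) z → X₀ ≤ X → W + X ≤ J → ψ * J ≤ ι * X →
        (mm : ℝ) ≤ ι * X → Evn 3 k K U e ≤ ι * X →
        Ur ≤ (3 - h) * X * Real.log 2 + ι * X →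
        ∃ (G : F.Ω → Prop) (lam : LnT F → Fin 3 → ℝ)
          (lamP : (Fin 3 → ℤ) × σ' → Fin 3 → ℝ) (mu : LnT F → Fin k → Polynomial ℝ),
          c₀ ≤ Pe p G ∧ (∀ s, lam s 2 = 1) ∧
          (∀ s l, |lam s l| ≤ (2 : ℝ) ^ (ζ₂ * X)) ∧ (∀ s j, (mu s j).natDegree ≤ K) ∧
          (∀ ω, 0 < p ω → G ω → lam (slam F W ω) =
            lamP (Mm F c tg w H (fun u => γ (tg u) + qt u + Xt u) ω, Bs ω)) ∧
          ∀ ω, 0 < p ω → G ω → ∀ j, |∑ u, lam (slam F W ω) u * gg ω u j -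
            (mu (slam F W ω) j).eval (rt F W ω)| ≤ (2 : ℝ) ^ (-(κ₂ * X)) := by
  classical
  have hk0 : (0 : ℝ) ≤ k := Nat.cast_nonneg k
  obtain ⟨a₂, bs, ha, h2, h64, hbsd, hb1, hb2, hzt⟩ := piv_numF hh hh1 hθ
  refine ⟨bs / 2, a₂, a₂ / 2, by linarith, by linarith, ha.le, hzt, by linarith, by linarith, ?_⟩
  obtain ⟨ι₀, π₀, m₀, hι₀, hπ₀, hm₀, X1, hX1⟩ := vd_3F k K hK (kap := a₂ / 2) (σ := bs / 4)
    (CB := k + 1) hh hh1 (by linarith) (by linarith) (show a₂ ≤ h / 32 by linarith)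
    (by linarith) (by positivity)
  rw [← hbsd] at hX1
  obtain ⟨ι, hι⟩ : ∃ ι : ℝ, ι = ι₀ / 2 := ⟨_, rfl⟩
  have hιp : 0 < ι := by rw [hι]; linarith
  obtain ⟨X3, hX3⟩ := exists_nat_ge (1 / (bs / 4))
  obtain ⟨X4, hX4⟩ := exists_nat_ge (k * cV K / ι₀)
  refine ⟨m₀, ι, π₀, hm₀, hιp, hπ₀, max X1 (max X3 (max X4 6)), ?_⟩
  intro m J F c mv tg qt Xt q w W X mm D γ B G₀ H gg ζ₀ ζ' υ' χ₁ χ₂ ρ₁ ρ₂ σ' z zw Yc Cj Cx Rj Rx
    Bs Nb p Nf Nn Nx Nu Nv Mf Mn U e P Ur ψ ε₀ j₀ hN1 hN2 hXt hBs hfew hrow hFB hT hz hX hJ hψ hmm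
    hEv hUr
  have hp := P.law
  have h0 := hp.nonneg
  have hXR : (0 : ℝ) ≤ X := Nat.cast_nonneg _
  have hXa : X1 ≤ X := (le_max_left _ _).trans hX
  have n3 : 1 ≤ bs / 4 * X := by
    have h1 : (X3 : ℝ) ≤ X := by
      exact_mod_cast (le_max_left _ _).trans ((le_max_right _ _).trans hX)
    have h2 := hX3.trans h1
    rw [div_le_iff₀ (by linarith)] at h2
    linarith
  have n4 : k * cV K ≤ ι₀ * X := by
    have h1 : (X4 : ℝ) ≤ X := by
      exact_mod_cast (le_max_left _ _).trans ((le_max_right _ _).trans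
        ((le_max_right _ _).trans hX))
    have h2 := hX4.trans h1
    rw [div_le_iff₀ hι₀] at h2
    linarith
  have n6 : (6 : ℝ) ≤ X := by
    exact_mod_cast (le_max_right _ _).trans ((le_max_right _ _).trans
      ((le_max_right _ _).trans hX))
  have hιX : ι * X + ι * X = ι₀ * X := by rw [hι]; ring
  have hιX0 : 0 ≤ ι * X := by positivity
  have hyp := P.hypm hN1 hN2
  have hLs := adV_L (c := c) (mv := mv) (tg := tg) (qt := qt) (Xt := Xt) (q := q) (w := w)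
    (X := X) (mm := mm) (γ := γ) (gg := gg) (H := H) p hz K
  have hbbr := fun (ω : F.Ω) (u : Fin 3) (j : Fin k) => adV_bbr (c := c) (mv := mv) (tg := tg)
    (qt := qt) (Xt := Xt) (q := q) (w := w) (W := W) (X := X) (mm := mm) (γ := γ) (gg := gg)
    (H := H) (z := z) ω u j
  have hup : ∀ ω, (fun u => Mm F c tg w H (fun u => γ (tg u) + qt u + Xt u) ω u / 2 ^ X) =
      Mu F c tg qt w γ H ω := by
    intro ω
    funext u
    show Mh F c (tg u) w H (γ (tg u) + qt u + Xt u) ω / 2 ^ X = _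
    rw [hXt u, mh_up]
    rfl
  have hWn : ∀ ω, Wn X (Vm F c mv w H Nb)
      (Mm F c tg w H (fun u => γ (tg u) + qt u + Xt u)) ω =
      (Vm F c mv w H Nb ω, Mu F c tg qt w γ H ω) := fun ω => Prod.ext rfl (hup ω)
  have hWS : (fun ω => (Wn X (Vm F c mv w H Nb)
        (Mm F c tg w H (fun u => γ (tg u) + qt u + Xt u)) ω,
          ((adV F c mv tg qt Xt q w W X mm γ gg H z).th ω,
          (adV F c mv tg qt Xt q w W X mm γ gg H z).z ω))) =
      fun ω => ((Vm F c mv w H Nb ω, Mu F c tg qt w γ H ω), (rt F W ω, z ω)) := by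
    funext ω
    rw [hWn]
    rfl
  have hBs' : Det p (fun ω => (Wn X (Vm F c mv w H Nb)
        (Mm F c tg w H (fun u => γ (tg u) + qt u + Xt u)) ω,
          ((adV F c mv tg qt Xt q w W X mm γ gg H z).T ω,
          (adV F c mv tg qt Xt q w W X mm γ gg H z).g K ω))) Bs := by
    intro ω ν hω hν e
    obtain ⟨e1, e2⟩ := Prod.ext_iff.mp e
    have e5 : Wn X (Vm F c mv w H Nb) (Mm F c tg w H (fun u => γ (tg u) + qt u + Xt u)) ω =
      Wn X (Vm F c mv w H Nb) (Mm F c tg w H (fun u => γ (tg u) + qt u + Xt u)) ν := e1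
    rw [hWn, hWn] at e5
    exact hBs ω ν hω hν (Prod.ext e5 e2)
  have htime : X * Real.log 2 - ι₀ * X ≤
      CH p (fun ω => ⌊(2 : ℝ) ^ X * (adV F c mv tg qt Xt q w W X mm γ gg H z).th ω⌋)
        ((adV F c mv tg qt Xt q w W X mm γ gg H z).L K) := by
    have h1 := hT.f X hJ
    have h2 : CH p (fun ω => ⌊(2 : ℝ) ^ X * F.tw W ω⌋) (slam F W) ≤
        CH p (fun ω => ⌊(2 : ℝ) ^ X * F.tw W ω⌋)
          ((adV F c mv tg qt Xt q w W X mm γ gg H z).L K) := CH_mono_cond h0 hLs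
    have hth : (adV F c mv tg qt Xt q w W X mm γ gg H z).th = F.tw W := by
      funext ω
      exact (tw_rt F P.WJ ω).symm
    rw [hth]
    linarith
  have hU1 := P.mU
  have hB : (k : ℝ) * (U + 1) + 1 ≤ (k + 1) * 2 ^ mm := by
    have h1 : (k : ℝ) * (U + 1) ≤ k * 2 ^ mm := mul_le_mul_of_nonneg_left hU1 hk0
    have h2 : (1 : ℝ) ≤ 2 ^ mm := one_le_pow₀ (by norm_num)
    linarith
  have he2 : Evn 3 k K U e ≤ ι₀ * X := by linarith
  have hyp2 : (adV F c mv tg qt Xt q w W X mm γ gg H z).Hyp K p Rj Rx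
      (fun ω => (jetm F c mv w H Nn ω, fun u => pr2 F c w H (tg u) (Mn u) ω))
      (jetm F c mv w H Nx)
      (fun ω => (jetm F c mv w H Nf ω, fun u => pr2 F c w H (tg u) (Mf u) ω))
      (jetm F c mv w H Nf) (Vm F c mv w H Nb)
      (Mm F c tg w H (fun u => γ (tg u) + qt u + Xt u))
      (k * (X * Real.log 2) + k * cV K) (ι₀ * X) (k * (U + 1) + 1) := hyp.mono he2
  obtain ⟨lam, lamP, mu, G, g1, g2, g4, g5, g6, g7⟩ := hX1 p
    (adV F c mv tg qt Xt q w W X mm γ gg H z) Rj Rx _ _ _ _ (Vm F c mv w H Nb) _ Bs _ (ι₀ * X)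
    (k * (U + 1) + 1) Ur hXa hyp2 htime hBs' (hfew.trans (by linarith))
    (fun G hG => by
      have h1 := hrow {ω | G ω} hG
      rw [← hWS] at h1
      exact h1) (by
      rw [← hWS] at hFB
      intro k' hk' B' hB' hB0'
      have h1 := hFB k' hk' B' hB' hB0'
      have h2 : (⌊a₂ / 2 * (X : ℝ)⌋₊ : ℝ) * Real.log 2 - ι₀ * X ≤
        ⌊a₂ / 2 * (X : ℝ)⌋₊ * Real.log 2 - ι * X := by linarith
      exact ⟨h2.trans h1.1, h2.trans h1.2⟩) (by
      show k * (X * Real.log 2) + k * cV K ≤ k * X * Real.log 2 + ι₀ * X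
      linarith) le_rfl
    (hmm.trans (by
      show ι * X ≤ ι₀ * X
      linarith)) hB (by
      show Ur ≤ (3 - h) * X * Real.log 2 + ι₀ * X
      linarith)
  obtain ⟨f, hf1, hf2⟩ := lift_line hLs (fun l => (lam l, mu l))
    ((fun _ => 0, fun _ => 0) : (Fin 3 → ℝ) × (Fin k → Polynomial ℝ))
  have hfe : ∀ ω, 0 < p ω → (f (slam F W ω)).1 =
      lam ((adV F c mv tg qt Xt q w W X mm γ gg H z).L K ω) := fun ω hω => by
    rw [hf2 ω hω]
  have hfm : ∀ ω, 0 < p ω → (f (slam F W ω)).2 =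
      mu ((adV F c mv tg qt Xt q w W X mm γ gg H z).L K ω) := fun ω hω => by
    rw [hf2 ω hω]
  have one_z : (1 : ℝ) ≤ (2 : ℝ) ^ (a₂ * X) :=
    Real.one_le_rpow one_le_two (mul_nonneg ha.le hXR)
  obtain ⟨ll, hll⟩ : ∃ ll : LnT F → Fin 3 → ℝ, ∀ s,
      ll s = if (f s).1 2 = 1 then (f s).1 else Pi.single 2 1 := ⟨_, fun _ => rfl⟩
  have hlg : ∀ ω, 0 < p ω → G ω → ll (slam F W ω) =
      lam ((adV F c mv tg qt Xt q w W X mm γ gg H z).L K ω) := by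
    intro ω hω hG
    rw [hll, if_pos (by rw [hfe ω hω]; exact g2 ω hω hG), hfe ω hω]
  refine ⟨G, ll, lamP, fun s => (f s).2, g1, fun s => ?_, fun s l => ?_,
    fun s j => ?_, fun ω hω hG => ?_, fun ω hω hG j => ?_⟩
  · rw [hll]
    split_ifs with h1
    · exact h1
    · exact Pi.single_eq_same 2 1
  · rw [hll]
    split_ifs with h1
    · rcases hf1 s with h3 | ⟨a, h3⟩
      · rw [h3]
        show |(0 : ℝ)| ≤ _
        rw [abs_zero]
        linarith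
      · rw [h3]
        exact g4 a l
    · refine le_trans ?_ one_z
      by_cases hil : l = 2
      · rw [hil, Pi.single_eq_same, abs_one]
      · rw [Pi.single_eq_of_ne hil, abs_zero]
        exact zero_le_one
  · show ((f s).2 j).natDegree ≤ K
    rcases hf1 s with h1 | ⟨a, h1⟩
    · rw [h1]
      simp
    · rw [h1]
      exact g5 a j
  · rw [hlg ω hω hG]
    exact g6 ω hω hG
  · show |∑ u, ll (slam F W ω) u * gg ω u j - ((f (slam F W ω)).2 j).eval (rt F W ω)| ≤ _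
    rw [hlg ω hω hG, hfm ω hω]
    have e1 := g7 ω hω hG j
    obtain ⟨a, ha'⟩ : ∃ a, a = (adV F c mv tg qt Xt q w W X mm γ gg H z).L K ω := ⟨_, rfl⟩
    rw [← ha'] at e1 ⊢
    have e1' : |∑ l, lam a l * (adV F c mv tg qt Xt q w W X mm γ gg H z).bb ω l j -
        (mu a j).eval (rt F W ω)| ≤ (2 : ℝ) ^ ((bs / 4 - bs) * X) := e1
    have e2 : |∑ u, lam a u * gg ω u j -
        ∑ u, lam a u * (adV F c mv tg qt Xt q w W X mm γ gg H z).bb ω u j| ≤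
        3 * ((2 : ℝ) ^ (a₂ * X) * (1 / 2 ^ X)) := by
      rw [← Finset.sum_sub_distrib]
      refine (Finset.abs_sum_le_sum_abs _ _).trans ((Finset.sum_le_sum
        (g := fun _ => (2 : ℝ) ^ (a₂ * X) * (1 / 2 ^ X)) fun u _ => ?_).trans (le_of_eq ?_))
      · rw [← mul_sub, abs_mul]
        exact mul_le_mul (g4 a u) (hbbr ω u j) (abs_nonneg _)
          (Real.rpow_pos_of_pos two_pos _).le
      · rw [Finset.sum_const, Finset.card_univ, Fintype.card_fin, nsmul_eq_mul]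
        norm_num
    have e3 : (2 : ℝ) * (2 : ℝ) ^ ((bs / 4 - bs) * X) ≤
        (2 : ℝ) ^ (-(bs / 2 * X)) := by
      have h1 : (2 : ℝ) * (2 : ℝ) ^ ((bs / 4 - bs) * X) =
          (2 : ℝ) ^ (1 + (bs / 4 - bs) * X) := by
        rw [Real.rpow_add two_pos, Real.rpow_one]
      rw [h1]
      refine Real.rpow_le_rpow_of_exponent_le one_le_two ?_
      have h4 : (bs / 4 - bs) * X = bs / 4 * X - bs * X := by ring
      have h5 : bs / 4 * X = bs * X / 4 := by ring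
      have h6 : bs / 2 * X = bs * X / 2 := by ring
      rw [h4, h6]
      linarith
    have e4 : (2 : ℝ) * (3 * ((2 : ℝ) ^ (a₂ * X) * (1 / 2 ^ X))) ≤
        (2 : ℝ) ^ (-(bs / 2 * X)) := by
      have h1 : (1 : ℝ) / 2 ^ X = (2 : ℝ) ^ (-(X : ℝ)) := by
        rw [one_div, ← Real.rpow_natCast, ← Real.rpow_neg two_pos.le]
      have h3 : (8 : ℝ) * ((2 : ℝ) ^ (a₂ * X) * (2 : ℝ) ^ (-(X : ℝ))) =
          (2 : ℝ) ^ (3 + (a₂ * X + -(X : ℝ))) := by
        rw [Real.rpow_add two_pos, Real.rpow_add two_pos]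
        norm_num
      have h4 : (2 : ℝ) * (3 * ((2 : ℝ) ^ (a₂ * X) * (2 : ℝ) ^ (-(X : ℝ)))) ≤
          8 * ((2 : ℝ) ^ (a₂ * X) * (2 : ℝ) ^ (-(X : ℝ))) := by
        have : 0 < (2 : ℝ) ^ (a₂ * X) * (2 : ℝ) ^ (-(X : ℝ)) := by positivity
        linarith
      rw [h1]
      refine h4.trans ?_
      rw [h3]
      refine Real.rpow_le_rpow_of_exponent_le one_le_two ?_
      have h5 : a₂ * X ≤ 1 / 64 * X := mul_le_mul_of_nonneg_right h64 hXR
      have h6 : bs / 2 * X ≤ 1 / 64 * X :=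
        mul_le_mul_of_nonneg_right (by linarith) hXR
      linarith
    have e5 := abs_sub_le (∑ u, lam a u * gg ω u j)
      (∑ u, lam a u * (adV F c mv tg qt Xt q w W X mm γ gg H z).bb ω u j)
      ((mu a j).eval (rt F W ω))
    show |∑ u, lam a u * gg ω u j - (mu a j).eval (rt F W ω)| ≤
      (2 : ℝ) ^ (-(bs / 2 * X))
    linarith

end Pool.DR24
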