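import Pool.Agent.H25.V0P.Cor
import Pool.Agent.H48.V0T.Par2
import Pool.Agent.H97.VF.PvF

/-!
# Three targets, the last one is the pivot

`v0tFinF2`: the statement `V0tFinF 2`.
-/

set_option autoImplicit false

namespace Pool.V0P

open Finset Real MvPolynomial
open Pool.Agent.H49.Ent Pool.Agent.H32.Dense
open Pool.STK hiding pr2
open Pool.KA Pool.KSAT Pool.K2S Pool.PB Pool.S6C
open Pool.GEN Pool.CHT Pool.CHX Pool.ISO Pool.LA91 Pool.AVG71 Pool.AVG5 Pool.D2F2 Pool.AVG57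
open Pool.PB.Trl (rt rt_mem t_rt)
open Pool.LV64 (GrdV PrV Vm Mm Mu adV adV_ti CH_pi Evn VD mh_up)
open Pool.KVA (MI)
open Pool.D2R (hgt)
open Pool.KAF (rs Pr)
open Pool.BFL (Pb)
open Pool.V0F (VLaw2 VLaw)
open Pool.V0T (V0tFinF)
open Pool.DR24 (pv_3F FB)
open Pool.VF97 (dg)

/-- The fullness of the first two heights on the grid. -/
theorem VpC.fb {m J : ℕ} {F : Fam m J} {c : ℕ → Fin m} {k : ℕ} {mv : Fin k → ℕ}
    {tg qt : Fin 3 → ℕ} {q w W X mm D K : ℕ} {γ : ℕ → ℕ} {B : F.Ω → Prop}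
    {G₀ : PtT F → ℕ → MvPolynomial (Option (Fin m)) ℝ}
    {H : LnT F → ℕ → MvPolynomial (Option (Fin m)) ℝ} {gg : F.Ω → Fin 3 → Fin k → ℝ}
    {ζ χ₁ χ₂ ρ₁ ρ₂ ρ₃ ξ₆ : Type} {zw : F.Ω → ζ} {Cj : F.Ω → χ₁} {Cx : F.Ω → χ₂}
    {Rj : F.Ω → ρ₁} {Rx : F.Ω → ρ₂} {R' : F.Ω → ρ₃} {XJ : F.Ω → ξ₆} {p : F.Ω → ℝ}
    {Nf Nn Nu Nv : Fin k → ℕ → ℝ} {nb : Fin k → ℝ} {Mf Mn vt : Fin 3 → ℝ}
    {U Fv Gf κ' e₁ d ψ ε₀ : ℝ} {j₀ : ℕ}
    (h : VpC F c mv tg qt q w W X mm D K γ B G₀ H gg zw Cj Cx Rj Rx R' XJ p Nf Nn Nu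
      Nv nb Mf Mn vt U Fv Gf κ' e₁ d ψ ε₀ j₀) {κ τ π₀ : ℝ} (hκ : 0 ≤ κ)
    (ful : ∀ i j : ℕ, i ≤ j → j * ⌊κ * X⌋₊ ≤ X → ∀ v : Fin (2 + 1), v < Fin.last 2 →
        ∀ (V : Type) (z : PtT F → V) (z' : LnT F → V) (E : F.Ω → Prop),
        (∀ ω, 0 < p ω → E ω → z (ptr F J ω) = z' (slam F W ω)) → π₀ ≤ Pe p E →
        (j - i) * (κ * X) * Real.log 2 - τ * X ≤ CH (Pool.Agent.H49.Ent.cond p E True)
          (fun ω => Mm F c tg w H (fun u => γ (tg u) + qt u + j * ⌊κ * X⌋₊) ω v)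
          (fun ω => (z' (slam F W ω),
            (Mm F c tg w H (fun u => γ (tg u) + qt u + (if u < v then j else i) * ⌊κ * X⌋₊) ω,
              (jp F c 0 mv w H nb ω, (F.W ω, zw ω)))))) :
    FB p (fun ω => ((Vm F c mv w H (fun j => nb j * J) ω, Mu F c tg qt w γ H ω),
        (rt F W ω, zc F W zw ω)))
      (Mm F c tg w H (fun u => γ (tg u) + qt u + X)) X ⌊κ * X⌋₊
      (⌊κ * X⌋₊ * Real.log 2 - τ * X) π₀ := by
  have h0 := h.law.nonneg
  intro k' hk' B' hB' hB0'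
  obtain ⟨n, hn⟩ : ∃ n : ℕ, n = ⌊κ * X⌋₊ := ⟨_, rfl⟩
  rw [← hn] at ful hk' ⊢
  have hl2 : 0 < Real.log 2 := Real.log_pos one_lt_two
  have hn1 : (n : ℝ) ≤ κ * X := by
    rw [hn]
    exact Nat.floor_le (by positivity)
  have hk0 : k' * n ≤ X := (Nat.mul_le_mul_right n (Nat.le_succ k')).trans hk'
  have hkk : k' * n ≤ (k' + 1) * n := Nat.mul_le_mul_right n (Nat.le_succ k')
  have q0 : ∀ ω, 0 ≤ Pool.Agent.H49.Ent.cond p B' True ω := cond_nonneg h0 _ _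
  have num : (n : ℝ) * Real.log 2 - τ * X ≤
      (((k' + 1 : ℕ) : ℝ) - k') * (κ * X) * Real.log 2 - τ * X := by
    have h1 := mul_le_mul_of_nonneg_right hn1 hl2.le
    have h2 : (((k' + 1 : ℕ) : ℝ) - k') * (κ * X) * Real.log 2 = κ * X * Real.log 2 := by
      push_cast
      ring
    rw [h2]
    linarith
  -- the conditions
  have cnd : ∀ (v : Fin 3) (ω ν : F.Ω),
      (∀ u, Mm F c tg w H (fun u => γ (tg u) + qt u + (if u < v then k' + 1 else k') * n) ω u =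
        Mm F c tg w H (fun u => γ (tg u) + qt u + (if u < v then k' + 1 else k') * n) ν u) →
      jp F c 0 mv w H nb ω = jp F c 0 mv w H nb ν → F.W ω = F.W ν → zw ω = zw ν →
      dg (X - k' * n) (Mm F c tg w H (fun u => γ (tg u) + qt u + X) ω) =
        dg (X - k' * n) (Mm F c tg w H (fun u => γ (tg u) + qt u + X) ν) ∧
      ((Vm F c mv w H (fun j => nb j * J) ω, Mu F c tg qt w γ H ω), (rt F W ω, zc F W zw ω)) =
        ((Vm F c mv w H (fun j => nb j * J) ν, Mu F c tg qt w γ H ν),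
          (rt F W ν, zc F W zw ν)) := by
    intro v ω ν e1 e2 e3 e4
    have e5 : ∀ Y : ℕ, Y ≤ k' * n → ∀ u : Fin 3,
        Mm F c tg w H (fun u => γ (tg u) + qt u + Y) ω u =
          Mm F c tg w H (fun u => γ (tg u) + qt u + Y) ν u := fun Y hY u => by
      have e6 := e1 u
      by_cases huv : u < v
      · have e7 : Mm F c tg w H (fun u => γ (tg u) + qt u + (k' + 1) * n) ω u =
            Mm F c tg w H (fun u => γ (tg u) + qt u + (k' + 1) * n) ν u := by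
          have e8 : ∀ o : F.Ω, Mm F c tg w H
              (fun u => γ (tg u) + qt u + (if u < v then k' + 1 else k') * n) o u =
              Mm F c tg w H (fun u => γ (tg u) + qt u + (k' + 1) * n) o u := fun o => by
            show Mh F c (tg u) w H (γ (tg u) + qt u + (if u < v then k' + 1 else k') * n) o =
              Mh F c (tg u) w H (γ (tg u) + qt u + (k' + 1) * n) o
            rw [if_pos huv]
          rw [e8, e8] at e6
          exact e6
        exact mm_le (hY.trans hkk) u e7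
      · have e7 : Mm F c tg w H (fun u => γ (tg u) + qt u + k' * n) ω u =
            Mm F c tg w H (fun u => γ (tg u) + qt u + k' * n) ν u := by
          have e8 : ∀ o : F.Ω, Mm F c tg w H
              (fun u => γ (tg u) + qt u + (if u < v then k' + 1 else k') * n) o u =
              Mm F c tg w H (fun u => γ (tg u) + qt u + k' * n) o u := fun o => by
            show Mh F c (tg u) w H (γ (tg u) + qt u + (if u < v then k' + 1 else k') * n) o =
              Mh F c (tg u) w H (γ (tg u) + qt u + k' * n) o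
            rw [if_neg huv]
          rw [e8, e8] at e6
          exact e6
        exact mm_le hY u e7
    obtain ⟨f1, f2⟩ := zc_of (zw := zw) h.WJ e3 e4
    refine ⟨funext fun u => ?_, Prod.ext (Prod.ext e2 (funext fun u => ?_)) (Prod.ext f1 f2)⟩
    · show Mm F c tg w H (fun u => γ (tg u) + qt u + X) ω u / 2 ^ (X - k' * n) =
        Mm F c tg w H (fun u => γ (tg u) + qt u + X) ν u / 2 ^ (X - k' * n)
      rw [mm_div hk0, mm_div hk0]
      exact e5 _ le_rfl u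
    · exact e5 0 (Nat.zero_le _) u
  constructor
  · refine num.trans ((ful k' (k' + 1) (Nat.le_succ k') hk' 0 (by decide) Unit (fun _ => ())
      (fun _ => ()) B' (fun _ _ _ => rfl) hB').trans ((CH_mono_cond q0 (W := fun ω =>
        (dg (X - k' * n) (Mm F c tg w H (fun u => γ (tg u) + qt u + X) ω),
          ((Vm F c mv w H (fun j => nb j * J) ω, Mu F c tg qt w γ H ω),
          (rt F W ω, zc F W zw ω)))) ?_).trans (CH_mono_left q0 ?_)))
    · intro ω ν _ _ e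
      obtain ⟨-, e2⟩ := Prod.ext_iff.mp e
      obtain ⟨e3, e4⟩ := Prod.ext_iff.mp e2
      obtain ⟨e5, e6⟩ := Prod.ext_iff.mp e4
      obtain ⟨e7, e8⟩ := Prod.ext_iff.mp e6
      obtain ⟨g1, g2⟩ := cnd 0 ω ν (fun u => congrFun e3 u) e5 e7 e8
      exact Prod.ext g1 g2
    · intro ω ν _ _ e
      have e1 := (Prod.ext_iff.mp e).1
      simp only at e1
      rw [mm_div hk', mm_div hk'] at e1
      exact e1
  · refine num.trans ((ful k' (k' + 1) (Nat.le_succ k') hk' 1 (by decide) Unit (fun _ => ())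
      (fun _ => ()) B' (fun _ _ _ => rfl) hB').trans ((CH_mono_cond q0 (W := fun ω =>
        (Mm F c tg w H (fun u => γ (tg u) + qt u + X) ω 0 / 2 ^ (X - (k' + 1) * n),
        (dg (X - k' * n) (Mm F c tg w H (fun u => γ (tg u) + qt u + X) ω),
          ((Vm F c mv w H (fun j => nb j * J) ω, Mu F c tg qt w γ H ω),
          (rt F W ω, zc F W zw ω))))) ?_).trans (CH_mono_left q0 ?_)))
    · intro ω ν _ _ e
      obtain ⟨-, e2⟩ := Prod.ext_iff.mp e
      obtain ⟨e3, e4⟩ := Prod.ext_iff.mp e2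
      obtain ⟨e5, e6⟩ := Prod.ext_iff.mp e4
      obtain ⟨e7, e8⟩ := Prod.ext_iff.mp e6
      obtain ⟨g1, g2⟩ := cnd 1 ω ν (fun u => congrFun e3 u) e5 e7 e8
      refine Prod.ext ?_ (Prod.ext g1 g2)
      show Mm F c tg w H (fun u => γ (tg u) + qt u + X) ω 0 / 2 ^ (X - (k' + 1) * n) =
        Mm F c tg w H (fun u => γ (tg u) + qt u + X) ν 0 / 2 ^ (X - (k' + 1) * n)
      rw [mm_div hk', mm_div hk']
      have e9 := congrFun e3 0
      exact e9
    · intro ω ν _ _ e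
      have e1 := (Prod.ext_iff.mp e).1
      simp only at e1
      rw [mm_div hk', mm_div hk'] at e1
      exact e1

/-- **The event theorem for three targets, the last one is the pivot.** -/
theorem v0tFinF2 : V0tFinF 2 := by
  intro k K h θ hK hh hh1 hθ
  have hl2 : 0 < Real.log 2 := Real.log_pos one_lt_two
  obtain ⟨κ₂, ζ₂, κ, c1, c2, c3, c4, c5, c6, c₀, ι, π₀, hc₀, hι, hπ₀, X₀, hpv⟩ :=
    pv_3F k K hK (h := h / 2) (θ := θ) (by linarith) (by linarith) hθ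
  obtain ⟨Ca, hCa, hprv⟩ := vpc_prv k 3 K
  obtain ⟨τ₁, X₁, hτ₁, hnum⟩ := vpc_nums k 3 K hι
  obtain ⟨τ, hτ⟩ : ∃ τ : ℝ, τ = min τ₁ (ι / 2) := ⟨_, rfl⟩
  have hτ0 : 0 < τ := by
    rw [hτ]
    exact lt_min hτ₁ (by linarith)
  have hτa : τ ≤ τ₁ := by rw [hτ]; exact min_le_left _ _
  have hτb : τ ≤ ι / 2 := by rw [hτ]; exact min_le_right _ _
  obtain ⟨X₂, hX₂⟩ := exists_nat_ge (2 / κ)
  obtain ⟨X₃, hX₃⟩ := exists_nat_ge (((3 - h) * (2 / κ) + 6) / (ι / 2))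
  refine ⟨κ₂, ζ₂, c1, c2, c3, c4, κ, min π₀ 1, c₀ / 3 ^ (k + 3), τ, 1, Ca, 0,
    max (max (max X₀ X₁) K) (max X₂ X₃), c5, by linarith,
    lt_min hπ₀ one_pos, min_le_right _ _, by positivity, hτ0, one_pos, hCa, ?_⟩
  intro m J F c mv tg qt q w W X mm D γ B G₀ H gg ζ χ₁ χ₂ ρ₁ ρ₂ ρ₃ ξ₆ zw Cj Cx Rj Rx R' XJ p Nf Nn
    Nu Nv nb Mf Mn vt U Fv Gf κ' e₁ d ψ hp sup wW hWX deg DK cls grd mU V hj hx zL zP n0 n1 u0 u1
    m0 m0' mf mf' v0' vs hc2 f0 f1 v0 v1 hv1 hd0 hv0 dj jt hD hf nb1 nb2 cells row ful T hX hs hmm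
  have h0 := hp.nonneg
  have he1 : 0 ≤ e₁ := (CH_nonneg h0 _ _).trans (dj 0)
  have hc : VpC F c mv tg qt q w W X mm D K γ B G₀ H gg zw Cj Cx Rj Rx R' XJ p Nf Nn Nu Nv nb Mf
      Mn vt U Fv Gf κ' e₁ d ψ 1 0 := ⟨hp, sup, wW, hWX, deg, DK, cls, grd, mU, V, hj, hx, zL, zP,
    n0, n1, u0, u1, m0, m0', mf, mf', v0', vs, hc2, f0, f1, v0, v1, hv1, hd0, hv0, dj, jt, hD, hf,
    nb1, nb2, cells, T, he1⟩
  have hX0 : (0 : ℝ) ≤ X := Nat.cast_nonneg X
  have hXX : max (max X₀ X₁) K ≤ X := (le_max_left _ _).trans hX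
  have hXX0 : X₀ ≤ X := (le_max_left _ _).trans ((le_max_left _ _).trans hXX)
  have hXX1 : X₁ ≤ X := (le_max_right _ _).trans ((le_max_left _ _).trans hXX)
  have hXK : K ≤ X := (le_max_right _ _).trans hXX
  have hXX2 : (X₂ : ℝ) ≤ X := by
    exact_mod_cast (le_max_left _ _).trans ((le_max_right _ _).trans hX)
  have hXX3 : (X₃ : ℝ) ≤ X := by
    exact_mod_cast (le_max_right _ _).trans ((le_max_right _ _).trans hX)
  have hκX : 2 ≤ κ * X := by
    have := hX₂.trans hXX2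
    rw [div_le_iff₀ c5] at this
    linarith
  have hιX : (3 - h) * (2 / κ) + 6 ≤ ι / 2 * X := by
    have := hX₃.trans hXX3
    rw [div_le_iff₀ (by linarith)] at this
    linarith
  have hψ := hc.psi0
  have hτX : κ' + d + e₁ + Ca + ψ * J ≤ τ₁ * X :=
    hs.trans (mul_le_mul_of_nonneg_right hτa hX0)
  have hmX : (mm : ℝ) ≤ τ₁ * X := hmm.trans (mul_le_mul_of_nonneg_right hτa hX0)
  obtain ⟨q1, q2⟩ := hnum X mm κ' d e₁ Ca (ψ * J) U hXX1 V.κ0 hd0 he1 hCa hψ hτX hmX grd.U0 mU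
  have P := hprv hc hXK
  have few := hc.few P
  have hτι : τ * X ≤ ι / 2 * X := mul_le_mul_of_nonneg_right hτb hX0
  have hιX0 : 0 ≤ ι * X := by positivity
  have hV := V.κ0
  have hkX : 3 * (κ * X) ≤ h / 2 * X * Real.log 2 := by
    have h1 : κ * X ≤ h / 2 / 64 * X := mul_le_mul_of_nonneg_right c6 hX0
    have h2 : (1 / 2 : ℝ) ≤ Real.log 2 := by
      have := Real.log_two_gt_d9
      linarith
    have h3 : 0 ≤ h / 2 * X := by positivity
    have h4 := mul_le_mul_of_nonneg_left h2 h3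
    linarith
  obtain ⟨G, lam, lamP, mu, b1, b2, b4, b5, b6, b7⟩ := hpv P
    (Ur := (3 - h / 2) * X * Real.log 2 + ι * X) (ψ := ψ) (ε₀ := 1) (j₀ := 0)
    (Bs := bsc F c mv tg qt w W γ H nb zw) nb1 nb2 (fun _ => rfl)
    (VpC.hBs p) (few.trans q2)
    (fun E hE => by
      have h1 := hc.row (R₁ := 3 - h) (κ := κ) (τ := τ) (π₀ := min π₀ 1) (by linarith) c5 hκX
        (lt_min hπ₀ one_pos) (fun j hj E' hE' => (row j hj E' hE').trans (le_of_eq (by
          push_cast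
          ring))) (le_refl X) E ((min_le_left _ _).trans hE)
      refine h1.trans ?_
      push_cast
      linarith)
    (by
      have h1 := hc.fb (κ := κ) (τ := τ) (π₀ := min π₀ 1) c5.le ful
      intro k' hk' B' hB' hB0'
      have h2 := h1 k' hk' B' ((min_le_left _ _).trans hB') hB0'
      have h3 : (⌊κ * (X : ℝ)⌋₊ : ℝ) * Real.log 2 - ι * X ≤
        ⌊κ * (X : ℝ)⌋₊ * Real.log 2 - τ * X := by linarith
      exact ⟨h3.trans h2.1, h3.trans h2.2⟩)
    T hc.hz hXX0 hWX (by linarith) (by linarith) q1 le_rfl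
  obtain ⟨zz, G', g1, g2, g3⟩ := hc.out b6 hc₀ b1
  exact ⟨G', lam, zz, mu, g2, b2, b4, b5,
    fun ω hω hG => ⟨g3 ω hω hG, b7 ω hω (g1 ω hG)⟩⟩

end Pool.V0P
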