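import Pool.Agent.H97.VF.Cas

/-!
# The covector with last entry one

`AltF`: the conclusion `Alt` with `lam 2 = 1` on the event. `PcOk.alt_allF`: the three cases, when the
long columns have a large component in the first two coordinates and the normals have a large last
component.
-/

set_option autoImplicit false

namespace Pool.DR24

open Finset Real Matrix
open Pool.Agent.H49.Ent Pool.Agent.H32.Dense Pool.STK Pool.POT Pool.FAD Pool.SLO Pool.TQ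
open Pool.K2S (Pe)
open Pool.BFL (Pb)
open Pool.DIR21 (Pb_Pe Pb_mono Pb_or Pb_nonneg Pb_ci Pe_ci ci ci0 ci1 ci_nonneg ci_mono mg_ci_sum
  Pb_im sel)
open Pool.VF97

variable {Ω Λ τ B β ρ σ : Type} [Fintype Ω] {p : Ω → ℝ} {L : Ω → Λ} {th : Ω → τ}
  {b : Ω → B} {hgt nu : Ω → Fin 3 → ℤ} {S : Ω → ρ} {Wd : Ω → β} {Z : Ω → Fin 3 → ℤ} {Bs : Ω → σ}
  {X : ℕ} {C d : ℝ} {N : ℕ}

/-- **The conclusion.** -/
def AltF (p : Ω → ℝ) (L : Ω → Λ) (th : Ω → τ) (Z : Ω → Fin 3 → ℤ) (Bs : Ω → σ) {N : ℕ}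
    (A0 : (Fin N → τ) → Matrix (Fin 3) (Fin 3) ℝ) (e m₀ W Sz : ℝ) : Prop :=
  ∃ (lam : Λ → Fin 3 → ℝ) (lamP : (Fin 3 → ℤ) × σ → Fin 3 → ℝ) (G : Ω → Prop),
    (∀ x i, |lam x i| ≤ Sz) ∧ m₀ ≤ Pe p G ∧
    (∀ ω, G ω → lam (L ω) 2 = 1) ∧ (∀ ω, G ω → lam (L ω) = lamP (Z ω, Bs ω)) ∧
    W * Pb (tup p L N) (fun w => ∃ c, e < |dp (lam (L (w 0))) (fun i => bdy th A0 w i c)|) ≤ m₀

/-- **The covector from two closed unit vectors.** -/
theorem alt_ofF {Θ : Type} [Fintype Θ] {r : Θ → ℝ} (hp : IsLaw p) (hr : IsLaw r) {f : Θ → Ω}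
    {F : ℝ} (hF : 0 < F) (hden : ∀ ω, mg r f ω ≤ F * p ω) {φ : Λ → Fin 3 → ℝ}
    {ψ : (Fin 3 → ℤ) × σ → Fin 3 → ℝ} (hφ : ∀ x, U3 (φ x)) (hψ : ∀ x, U3 (ψ x))
    {E : (Fin N → τ) → Prop} {A0 : (Fin N → τ) → Matrix (Fin 3) (Fin 3) ℝ}
    (Gd : (Fin 3 → ℝ) → Matrix (Fin 3) (Fin 3) ℝ → Prop) (Big : (Fin 3 → ℝ) → Prop)
    {ρ₀ η ε₃ ε' M e m₁ Sz : ℝ} {Y m' : ℕ}
    (hPA : Pb r (fun w => ¬ PA ρ₀ (φ (L (f w))) (ψ (Z (f w), Bs (f w)))) ≤ η)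
    (hfib : ∑ w, r w * fib p L (fun l v => E (fun j => th (v j)) ∧
      ¬ Gd (φ l) (A0 fun j : Fin N => th (v j))) (L (f w)) ≤ M)
    (hBig : Pb r (fun w => ¬ Big (φ (L (f w)))) ≤ m₁)
    (hρ : ρ₀ ≤ 1 / 4) (hε₃ : 0 ≤ ε₃) (hY : 2 ^ Y * (2 * ρ₀) ≤ ε₃) (hm' : 1 ≤ m') (hε' : 0 < ε')
    (hnum : 1 / 2 + η + 9 * (η + ε₃ + 1 / m') + (M / ε' + m₁) < 1)
    (cv : (Fin 3 → ℝ) → Fin 3 → ℝ) (hSz : 0 ≤ Sz)
    (cv1 : ∀ e, (∀ i, |e i| ≤ 1) → ∀ i, |cv e i| ≤ Sz)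
    (cv2 : ∀ (x e' : Fin 3 → ℝ) (j : Fin 3), Big x → |x j| = 1 →
      (∀ i, |x i / x j - e' i| ≤ 1 / 2 ^ Y) → cv e' 2 = 1)
    (hE : ∀ t, ¬ E t → ∀ e' : Fin 3 → ℝ, (∀ i, |e' i| ≤ Sz) → ∀ c,
      |dp e' (fun i => A0 t i c)| ≤ e)
    (hG : ∀ (x e' : Fin 3 → ℝ) (t : Fin N → τ) (j : Fin 3), Gd x (A0 t) → Big x → |x j| = 1 →
      (∀ i, |x i / x j - e' i| ≤ 1 / 2 ^ Y) → ∀ c, |dp (cv e') (fun i => A0 t i c)| ≤ e)
    {W : ℝ} (hW : W * ε' ≤ 1 / 6 / F) (hW0 : 0 ≤ W) (he : 0 ≤ e) :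
    AltF p L th Z Bs A0 e (1 / 6 / F) W Sz := by
  classical
  have hp0 := hp.nonneg
  obtain ⟨Gb, hGb⟩ : ∃ Gb : Λ → (Fin N → Ω) → Prop, Gb = fun l v => E (fun j => th (v j)) ∧
      ¬ Gd (φ l) (A0 fun j : Fin N => th (v j)) := ⟨_, rfl⟩
  rw [← hGb] at hfib
  have hmk := mark hr.nonneg (f := fun w => fib p L Gb (L (f w)))
    (fun w => fib_nonneg hp0 Gb _) hε' hfib
  obtain ⟨G₀, hG₀⟩ : ∃ G₀ : Θ → Prop, G₀ = fun w => ¬ (ε' < fib p L Gb (L (f w)) ∨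
    ¬ Big (φ (L (f w)))) := ⟨_, rfl⟩
  have hG₀m : 1 - (M / ε' + m₁) ≤ Pe r G₀ := by
    rw [hG₀, Pe_compl' hr, ← Pb_Pe]
    have := Pb_or hr.nonneg (fun w => ε' < fib p L Gb (L (f w))) (fun w => ¬ Big (φ (L (f w))))
    linarith
  obtain ⟨j, s, hjs⟩ := codes hr (fun w => L (f w)) (fun w => (Z (f w), Bs (f w))) hφ hψ hρ hε₃
    hPA Y hY hm' G₀ (m := 1 / 6) (by linarith)
  obtain ⟨lam, hlam⟩ : ∃ lam : Λ → Fin 3 → ℝ, lam = fun x =>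
      if (¬ ε' < fib p L Gb x ∧ Big (φ x)) ∧ |φ x j| = 1 then cv (kval Y j s (kcode Y j s (φ x)))
      else fun _ => 0 := ⟨_, rfl⟩
  have hl1 : ∀ x, (¬ ε' < fib p L Gb x ∧ Big (φ x)) ∧ |φ x j| = 1 →
      lam x = cv (kval Y j s (kcode Y j s (φ x))) := fun x hx => by
    rw [hlam]
    simp only
    rw [if_pos hx]
  have hl2 : ∀ x, ¬ ((¬ ε' < fib p L Gb x ∧ Big (φ x)) ∧ |φ x j| = 1) →
      lam x = fun _ => 0 := fun x hx => by
    rw [hlam]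
    simp only
    rw [if_neg hx]
  have hlb : ∀ x i, |lam x i| ≤ Sz := fun x i => by
    by_cases hx : (¬ ε' < fib p L Gb x ∧ Big (φ x)) ∧ |φ x j| = 1
    · rw [hl1 x hx]
      exact cv1 _ (kval_le Y j s _) i
    · rw [hl2 x hx, abs_zero]
      exact hSz
  refine ⟨lam, fun z => cv (kval Y j s (kcode Y j s (ψ z))), fun ω =>
    ((¬ ε' < fib p L Gb (L ω) ∧ Big (φ (L ω))) ∧ |φ (L ω) j| = 1) ∧
      kcode Y j s (φ (L ω)) = kcode Y j s (ψ (Z ω, Bs ω)), hlb, ?_, ?_, ?_, ?_⟩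
  · have h1 := Pe_den hden (fun ω => ((¬ ε' < fib p L Gb (L ω) ∧ Big (φ (L ω))) ∧
      |φ (L ω) j| = 1) ∧ kcode Y j s (φ (L ω)) = kcode Y j s (ψ (Z ω, Bs ω)))
    rw [div_le_iff₀ hF]
    refine hjs.trans (le_trans ?_ (h1.trans (le_of_eq (mul_comm _ _))))
    rw [← Pb_Pe, ← Pb_Pe]
    refine Pb_mono hr.nonneg fun w _ hw => ?_
    rw [hG₀] at hw
    have h2 := hw.1
    beta_reduce at h2
    rw [not_or, not_not] at h2
    exact ⟨⟨h2, hw.2.1⟩, hw.2.2.2⟩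
  · intro ω hω
    rw [hl1 _ hω.1]
    exact cv2 _ _ j hω.1.1.2 hω.1.2 (kval_near Y s (fun i => (hφ _).1 i) hω.1.2)
  · intro ω hω
    rw [hl1 _ hω.1, hω.2]
  · refine le_trans (mul_le_mul_of_nonneg_left ?_ hW0) hW
    -- the tuples
    have h2 := tup_fib (p := p) (L := L)
      (fun ω => if ¬ ε' < fib p L Gb (L ω) then (1 : ℝ) else 0) Gb
    have h3 : ∑ ω, p ω * ((if ¬ ε' < fib p L Gb (L ω) then (1 : ℝ) else 0) *
        fib p L Gb (L ω)) ≤ ε' := by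
      calc _ ≤ ∑ ω, p ω * ε' := by
            refine Finset.sum_le_sum fun ω _ => mul_le_mul_of_nonneg_left ?_ (hp0 ω)
            by_cases h : ε' < fib p L Gb (L ω)
            · rw [if_neg (not_not.2 h), zero_mul]
              exact hε'.le
            · rw [if_pos h, one_mul]
              exact not_lt.1 h
        _ = ε' := by rw [← Finset.sum_mul, hp.sum_one, one_mul]
    rw [← h2] at h3
    refine le_trans ?_ h3
    rw [Pb_ci]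
    have ht0 := (tup_isLaw hp L N).nonneg
    refine Finset.sum_le_sum fun w _ => mul_le_mul_of_nonneg_left ?_ (ht0 w)
    by_cases hbad : ∃ c, e < |dp (lam (L (w 0))) (fun i => bdy th A0 w i c)|
    · rw [ci1 hbad]
      obtain ⟨c, hc⟩ := hbad
      have hx : (¬ ε' < fib p L Gb (L (w 0)) ∧ Big (φ (L (w 0)))) ∧ |φ (L (w 0)) j| = 1 := by
        by_contra hx
        rw [hl2 _ hx, dp_zero, abs_zero] at hc
        linarith
      have hEE : E fun j => th (w j.succ) := by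
        by_contra hn
        exact absurd hc (not_lt.2 (hE _ hn _ (hlb _) c))
      have hGG : ¬ Gd (φ (L (w 0))) (A0 fun j : Fin N => th (w j.succ)) := by
        intro hg
        rw [hl1 _ hx] at hc
        exact absurd hc (not_lt.2 (hG _ _ _ j hg hx.1.2 hx.2
          (kval_near Y s (fun i => (hφ _).1 i) hx.2) c))
      rw [if_pos hx.1.1, ci1 (by rw [hGb]; exact ⟨hEE, hGG⟩), one_mul]
    · rw [ci0 hbad]
      by_cases h : ε' < fib p L Gb (L (w 0))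
      · rw [if_neg (not_not.2 h), zero_mul]
      · rw [if_pos h, one_mul]
        exact ci_nonneg _

/-! ## The covectors -/

open Classical in
/-- The covector of a direction. -/
noncomputable def cD (s : ℝ) (e : Fin 3 → ℝ) : Fin 3 → ℝ :=
  if s ≤ |e 0| then ![-(e 2 / e 0), 0, 1] else
    if s ≤ |e 1| then ![0, -(e 2 / e 1), 1] else fun _ => 0

open Classical in
/-- The covector of a normal. -/
noncomputable def cN (s : ℝ) (e : Fin 3 → ℝ) : Fin 3 → ℝ :=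
  if s ≤ |e 2| then fun i => e i / e 2 else fun _ => 0

theorem div_le_s {s x y : ℝ} (hs : 0 < s) (hx : |x| ≤ 1) (hy : s ≤ |y|) : |x / y| ≤ 1 / s := by
  rw [abs_div]
  exact div_le_div₀ zero_le_one hx hs hy

theorem cD_le {s : ℝ} (hs : 0 < s) (hs1 : s ≤ 1) {e : Fin 3 → ℝ} (he : ∀ i, |e i| ≤ 1)
    (i : Fin 3) : |cD s e i| ≤ 1 / s := by
  have h1 : (1 : ℝ) ≤ 1 / s := by rw [le_div_iff₀ hs]; linarith
  have h0 : (0 : ℝ) ≤ 1 / s := by positivity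
  unfold cD
  split_ifs with a b
  · have h2 := div_le_s hs (he 2) a
    fin_cases i
    · show |-(e 2 / e 0)| ≤ _
      rwa [abs_neg]
    · show |(0 : ℝ)| ≤ _
      rwa [abs_zero]
    · show |(1 : ℝ)| ≤ _
      rwa [abs_one]
  · have h2 := div_le_s hs (he 2) b
    fin_cases i
    · show |(0 : ℝ)| ≤ _
      rwa [abs_zero]
    · show |-(e 2 / e 1)| ≤ _
      rwa [abs_neg]
    · show |(1 : ℝ)| ≤ _
      rwa [abs_one]
  · rwa [abs_zero]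

theorem cN_le {s : ℝ} (hs : 0 < s) {e : Fin 3 → ℝ} (he : ∀ i, |e i| ≤ 1)
    (i : Fin 3) : |cN s e i| ≤ 1 / s := by
  unfold cN
  split_ifs with a
  · exact div_le_s hs (he i) a
  · rw [abs_zero]
    positivity

theorem near_big {x e' : Fin 3 → ℝ} {j i : Fin 3} {ε s : ℝ} (hj : |x j| = 1)
    (hn : |x i / x j - e' i| ≤ ε) (hx : 2 * s ≤ |x i|) (hε : ε ≤ s) : s ≤ |e' i| := by
  have h1 : |x i / x j| = |x i| := by rw [abs_div, hj, div_one]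
  have h2 : |x i / x j| ≤ |x i / x j - e' i| + |e' i| := by
    have := abs_add_le (x i / x j - e' i) (e' i)
    rwa [sub_add_cancel] at this
  linarith

theorem cD_two {x e' : Fin 3 → ℝ} {j : Fin 3} {ε s : ℝ} (hj : |x j| = 1)
    (hn : ∀ i, |x i / x j - e' i| ≤ ε) (hx : 2 * s ≤ |x 0| ∨ 2 * s ≤ |x 1|) (hε : ε ≤ s) :
    cD s e' 2 = 1 := by
  unfold cD
  by_cases a : s ≤ |e' 0|
  · rw [if_pos a]
    rfl
  · rw [if_neg a]
    have b : s ≤ |e' 1| := by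
      rcases hx with h | h
      · exact absurd (near_big hj (hn 0) h hε) a
      · exact near_big hj (hn 1) h hε
    rw [if_pos b]
    rfl

theorem cN_two {x e' : Fin 3 → ℝ} {j : Fin 3} {ε s : ℝ} (hs : 0 < s) (hj : |x j| = 1)
    (hn : ∀ i, |x i / x j - e' i| ≤ ε) (hx : 2 * s ≤ |x 2|) (hε : ε ≤ s) :
    cN s e' 2 = 1 := by
  have b : s ≤ |e' 2| := near_big hj (hn 2) hx hε
  have h0 : e' 2 ≠ 0 := by
    intro h
    rw [h, abs_zero] at b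
    linarith
  unfold cN
  rw [if_pos b]
  exact div_self h0

/-- The value of the covector of a normal. -/
theorem cN_dp {s ρ' : ℝ} (hs : 0 < s) {e x : Fin 3 → ℝ} (h : |dp e x| ≤ ρ') :
    |dp (cN s e) x| ≤ ρ' / s := by
  have hr : 0 ≤ ρ' := (abs_nonneg _).trans h
  unfold cN
  split_ifs with a
  · have e1 : dp (fun i => e i / e 2) x = dp e x / e 2 := by
      unfold dp
      ring
    rw [e1, abs_div]
    exact div_le_div₀ hr h hs a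
  · rw [dp_zero, abs_zero]
    positivity

/-- The value of the covector of a direction. -/
theorem cD_dp {s ρ' K ε : ℝ} (hs : 0 < s) {e x c : Fin 3 → ℝ} {j : Fin 3} (hj : |x j| = 1)
    (h : PA ρ' c x) (hc : ∀ i, |c i| ≤ K) (hn : ∀ i, |x i / x j - e i| ≤ ε) :
    |dp (cD s e) c| ≤ (ρ' + 2 * (ε * K)) / s := by
  have hr : 0 ≤ ρ' := (abs_nonneg _).trans (h 0)
  have hε : 0 ≤ ε := (abs_nonneg _).trans (hn 0)
  have hK : 0 ≤ K := (abs_nonneg _).trans (hc 0)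
  have hxj : x j ≠ 0 := by
    intro h
    rw [h, abs_zero] at hj
    exact zero_ne_one hj
  have key : ∀ a : Fin 3, |x a * c 2 - x 2 * c a| ≤ ρ' →
      |e a * c 2 - e 2 * c a| ≤ ρ' + 2 * (ε * K) := fun a ha => by
    have e1 : e a * c 2 - e 2 * c a = (x a * c 2 - x 2 * c a) / x j -
        ((x a / x j - e a) * c 2 - (x 2 / x j - e 2) * c a) := by
      field_simp
      ring
    have g1 : |(x a * c 2 - x 2 * c a) / x j| ≤ ρ' := by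
      rw [abs_div, hj, div_one]
      exact ha
    have g2 : |(x a / x j - e a) * c 2| ≤ ε * K := by
      rw [abs_mul]
      exact mul_le_mul (hn a) (hc 2) (abs_nonneg _) hε
    have g3 : |(x 2 / x j - e 2) * c a| ≤ ε * K := by
      rw [abs_mul]
      exact mul_le_mul (hn 2) (hc a) (abs_nonneg _) hε
    rw [e1]
    have k1 := abs_sub ((x a * c 2 - x 2 * c a) / x j)
      ((x a / x j - e a) * c 2 - (x 2 / x j - e 2) * c a)
    have k2 := abs_sub ((x a / x j - e a) * c 2) ((x 2 / x j - e 2) * c a)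
    linarith
  unfold cD
  split_ifs with a b
  · have h0 : e 0 ≠ 0 := by
      intro h
      rw [h, abs_zero] at a
      linarith
    have e1 : dp ![-(e 2 / e 0), 0, 1] c = (e 0 * c 2 - e 2 * c 0) / e 0 := by
      unfold dp
      simp only [Matrix.cons_val_zero, Matrix.cons_val_one, Matrix.cons_val]
      field_simp
      ring
    rw [e1, abs_div]
    refine div_le_div₀ (by positivity) (key 0 ?_) hs a
    have := h 1
    unfold cr at this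
    simp only [Matrix.cons_val_zero, Matrix.cons_val_one] at this
    refine le_trans (le_of_eq ?_) this
    congr 1
    ring
  · have h0 : e 1 ≠ 0 := by
      intro h
      rw [h, abs_zero] at b
      linarith
    have e1 : dp ![0, -(e 2 / e 1), 1] c = (e 1 * c 2 - e 2 * c 1) / e 1 := by
      unfold dp
      simp only [Matrix.cons_val_zero, Matrix.cons_val_one, Matrix.cons_val]
      field_simp
      ring
    rw [e1, abs_div]
    refine div_le_div₀ (by positivity) (key 1 ?_) hs b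
    have := h 0
    unfold cr at this
    simp only [Matrix.cons_val_zero] at this
    rw [← abs_neg]
    refine le_trans (le_of_eq ?_) this
    congr 1
    ring
  · rw [dp_zero, abs_zero]
    positivity

theorem dp_leS {x y : Fin 3 → ℝ} {κ S' : ℝ} (hx : ∀ i, |x i| ≤ S') (hy : ∀ i, |y i| ≤ κ) :
    |dp x y| ≤ 3 * (S' * κ) := dp_le2 hx hy

/-- **The covector, small bodies.** -/
theorem alt0F {N : ℕ} (hp : IsLaw p) {κ F₀ Sz : ℝ}
    {A0 : (Fin N → τ) → Matrix (Fin 3) (Fin 3) ℝ}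
    (hE : Pe (tup p L N) (evE th (EB A0 κ)) ≤ 1 / F₀) {e Wt m₀ : ℝ} (he1 : 3 * κ ≤ e)
    (hm₀ : m₀ ≤ 1) (hW : Wt * (1 / F₀) ≤ m₀) (hW0 : 0 ≤ Wt) (hSz : 1 ≤ Sz) :
    AltF p L th Z Bs A0 e m₀ Wt Sz := by
  classical
  have h1 : ∀ i, |(Pi.single 2 1 : Fin 3 → ℝ) i| ≤ 1 := fun i => by fin_cases i <;> simp
  refine ⟨fun _ => Pi.single 2 1, fun _ => Pi.single 2 1, fun _ => True, fun x i =>
    (h1 i).trans hSz, ?_, fun _ _ => by simp, fun _ _ => rfl, ?_⟩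
  · rw [Pool.K2S.Pe_univ hp]
    exact hm₀
  · refine le_trans (mul_le_mul_of_nonneg_left ?_ hW0) hW
    refine le_trans ?_ hE
    rw [← Pb_Pe]
    refine Pb_mono (tup_isLaw hp L N).nonneg fun w _ hw => ?_
    obtain ⟨c, hc⟩ := hw
    by_contra hn
    have hs : ∀ i, |bdy th A0 w i c| ≤ κ := fun i => (nb_le _ i c).trans (not_le.1 hn).le
    exact absurd hc (not_lt.2 ((dp_le h1 hs).trans he1))

/-- Near unit vectors have near entries. -/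
theorem pa_big {u v : Fin 3 → ℝ} {ρ' s q : ℝ} (hu : U3 u) (hv : U3 v) (h : PA ρ' u v)
    (h5 : 2 * s + 2 * ρ' ≤ q) {i : Fin 3} (hi : q < |u i|) : 2 * s ≤ |v i| := by
  obtain ⟨t, ht, h1⟩ := nsg3 hu hv h
  have h2 : |t * v i| = |v i| := by rcases ht with rfl | rfl <;> simp
  have h3 : |u i| ≤ |u i - t * v i| + |t * v i| := by
    have := abs_add_le (u i - t * v i) (t * v i)
    rwa [sub_add_cancel] at this
  have h4 := h1 i
  linarith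

/-- **The covector, parallel copies.** -/
theorem alt1F {a : ℕ} (hp : IsLaw p) {κ ρ₁ δ₁ δ₂ K₁ F₀ : ℝ} (hκ : 0 < κ) (hF : 0 < F₀)
    (hδ₂ : 0 < δ₂) {A0 : (Fin (a + 1) → τ) → Matrix (Fin 3) (Fin 3) ℝ}
    (hK : ∀ t i c, |A0 t i c| ≤ K₁)
    (hE : 1 / F₀ ≤ Pe (tup p L (a + 1)) (evE th (EB A0 κ)))
    (hNP : Pe (cE p L th (EB A0 κ) Z Bs 2) (fun W => TR th A0 ρ₁ fun j => W j.succ) ≤ δ₁)
    {δf : ℝ} {bb : ℕ} (hfl : Pb (qE p L th (EB A0 κ)) (fun w => ∀ i, i ≠ 2 →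
      |un (bdy th A0 w) i| * 2 ^ bb ≤ 1) ≤ δf)
    {ρs ρc e ε' ε₃ Wt η s : ℝ} {Y m' : ℕ} (hρs : ρs = ρ₁ / κ + 4 * (K₁ * (ρ₁ / κ / κ)))
    (hρc : ρc = 4 * (ρs / κ + ρ₁ / κ / κ)) (hs : 0 < s) (hs1 : s ≤ 1)
    (h5 : 2 * s + 2 * (ρs / κ) ≤ 1 / 2 ^ bb) (hYs : 1 / 2 ^ Y ≤ s)
    (he1 : 3 * (1 / s * κ) ≤ e)
    (he2 : (ρs + 2 * (1 / 2 ^ Y * K₁)) / s ≤ e) (h4 : ρc ≤ 1 / 4) (hY : 2 ^ Y * (2 * ρc) ≤ ε₃)
    (hε₃ : 0 ≤ ε₃) (hm' : 1 ≤ m') (hε' : 0 < ε')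
    (hη : η = F₀ * (δ₂ + (δ₁ + δ₁) / δ₂))
    (hnum : 1 / 2 + (η + δ₁) + 9 * ((η + δ₁) + ε₃ + 1 / m') + (η / ε' + (η + δf)) < 1)
    (hW : Wt * ε' ≤ 1 / 6 / F₀) (hW0 : 0 ≤ Wt) (he3 : 0 ≤ e) :
    AltF p L th Z Bs A0 e (1 / 6 / F₀) Wt (1 / s) := by
  classical
  have hE0 : 0 < Pe (tup p L (a + 1)) (evE th (EB A0 κ)) := lt_of_lt_of_le (by positivity) hE
  have hq := qE_law (E := EB A0 κ) hp hE0
  have htl := tup_isLaw hp L (a + 1)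
  have hpar : Pb (cE p L th (EB A0 κ) Z Bs 1)
      (fun W => ρ₁ ≤ mx (vc (bdy th A0 (W 0)) (bdy th A0 (W 1)))) ≤ δ₁ := by
    have him : Im (cE p L th (EB A0 κ) Z Bs 2) (cE p L th (EB A0 κ) Z Bs 1)
        (fun W => W ∘ Fin.succ) :=
      im_of_marg (tup_sub hq.nonneg (fun v : Fin (a + 1 + 1) → Ω => (Z (v 0), Bs (v 0)))
        (M := 1) (N := 2) Fin.succ (Fin.succ_injective _))
    rw [Pb_im him, Pb_Pe]
    exact hNP
  obtain ⟨φ, ψ, hφ, hψ, h1, h2⟩ := dir_pc hp hκ hδ₂ hK hE0 hpar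
  rw [← hρs] at h1
  -- the own law
  have h3 : Pb (qE p L th (EB A0 κ)) (fun w => ¬ PC ρs (bdy th A0 w) (φ (L (w 0)))) ≤ η := by
    rw [hη]
    refine le_trans ?_ (mul_le_mul_of_nonneg_left h1 hF.le)
    rw [Pb_ci, Pb_ci, Finset.mul_sum]
    refine Finset.sum_le_sum fun w _ => ?_
    rcases (hq.nonneg w).eq_or_lt with h0 | h0
    · rw [← h0, zero_mul]
      exact mul_nonneg hF.le (mul_nonneg (htl.nonneg w) (ci_nonneg _))
    · have g1 := (qE_pos hp h0).2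
      have g2 := qE_le hp hF hE w
      rw [← mul_assoc]
      exact mul_le_mul g2 (ci_mono fun hn => ⟨g1, hn⟩) (ci_nonneg _)
        (mul_nonneg hF.le (htl.nonneg w))
  have hbig : ∀ v, 0 < qE p L th (EB A0 κ) v → κ ≤ nb (bdy th A0 v) := fun v hv =>
    (qE_pos hp hv).2
  refine alt_ofF hp hq (f := fun v => v 0) hF
    (mg_le (im_tup hp.nonneg L (a + 1) 0) (qE_le hp hF hE)) hφ hψ (E := EB A0 κ) (A0 := A0)
    (fun x A => PC ρs A x) (fun x => 2 * s ≤ |x 0| ∨ 2 * s ≤ |x 1|) (ρ₀ := ρc) (η := η + δ₁)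
    (M := η) (m₁ := η + δf) ?_ ?_ ?_ h4 hε₃ hY hm' hε' hnum (cD s) (by positivity)
    (fun e he => cD_le hs hs1 he) (fun x e j hx hj hn => cD_two hj hn hx hYs) ?_ ?_ hW hW0 he3
  · refine le_trans (Pb_mono hq.nonneg fun v hv hn => ?_) ((Pb_or hq.nonneg _ _).trans
      (add_le_add h3 h2))
    by_contra hcon
    push Not at hcon
    refine hn ?_
    have hb := hbig v hv
    have g1 := (hcon.1.un hκ hb).symm
    have g2 := hcon.2.un hκ hb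
    rw [hρc]
    exact PA.trans (hφ _) (un_u3 (hκ.trans_le hb)) (hψ _) g1 g2
  · refine (qE_own' hp hE0 (fun l v => EB A0 κ (fun j => th (v j)) ∧
      ¬ PC ρs (A0 fun j : Fin (a + 1) => th (v j)) (φ l)) (fun l v hv => hv.1)).trans ?_
    refine le_trans (Pb_mono hq.nonneg fun v hv hn => ?_) h3
    exact hn.2
  · refine le_trans (Pb_mono hq.nonneg fun v hv hn => ?_) ((Pb_or hq.nonneg _ _).trans
      (add_le_add h3 hfl))
    by_contra hcon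
    rw [not_or, not_not] at hcon
    obtain ⟨g1, g2⟩ := hcon
    beta_reduce at hn
    rw [not_or] at hn
    refine g2 fun i hi => ?_
    have hb := hbig v hv
    have g3 := g1.un hκ hb
    by_contra hc
    rw [not_le, ← div_lt_iff₀ (by positivity)] at hc
    have g4 := pa_big (un_u3 (hκ.trans_le hb)) (hφ _) g3 h5 hc
    fin_cases i
    · exact hn.1 g4
    · exact hn.2 g4
    · exact hi rfl
  · intro t ht e' he' c
    have hs : ∀ i, |A0 t i c| ≤ κ := fun i => (nb_le _ i c).trans (not_le.1 ht).le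
    exact (dp_leS he' hs).trans he1
  · intro x e' t j hg _ hj hx c
    exact (cD_dp hs hj (hg c) (fun i => hK t i c) hx).trans he2

/-- **The covector, transversal copies.** -/
theorem PcOk.alt2F (h : PcOk p L th b hgt nu S Wd Z Bs X C d) {F₀ F₁ ρ₁ : ℝ} (hF : 0 < F₀)
    (hF₁ : 0 < F₁) (hρ₁ : 0 < ρ₁) {E : (Fin N → τ) → Prop}
    {A0 : (Fin N → τ) → Matrix (Fin 3) (Fin 3) ℝ}
    (hE : 1 / F₀ ≤ Pe (tup p L N) (evE th E))
    (hNP : 1 / F₁ ≤ Pe (cE p L th E Z Bs 2) (fun W => TR th A0 ρ₁ fun j => W j.succ))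
    {h₀ κ₁ δ η ϖ : ℝ} {X0 : ℕ} (hm : MNN 2 h₀ κ₁ δ (F₁ * F₀) η ϖ C ((3 : ℕ) + 1) X0)
    (hX : X0 ≤ X) (hϖ : 0 < ϖ) {R : ℝ}
    (nf : ∀ G : Ω → Prop, ϖ ≤ Pe p G → 0 < Pe p G →
      CH (cond p G True) Z (fun ω => (Wd ω, S ω)) ≤ R)
    (hR : R + (3 : ℕ) * Real.log (2 * C + 1) + (2 * d + Real.log 2) / ϖ ≤
      ((2 : ℕ) + 1 - h₀) * X * Real.log 2 + η * X) (hC : 0 ≤ C)
    (hA : ∀ t, (A0 t).det ≠ 0) {K₁ : ℝ} (hK : ∀ t i a, |A0 t i a| ≤ K₁)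
    (hinv : ∀ t i j, |(A0 t)⁻¹ i j| ≤ 2 ^ X) {e₀ : ℝ}
    (hbody : DF (tup p L N) (fun _ => Tx 3 X) (fun w => A0 fun j => th (w j.succ))
      (fun w => xv X (hgt (w 0)))
      (fun w => (b (w 0), (th (w 0), fun j : Fin N => th (w j.succ)))) ≤ e₀)
    (he : e3 N C d F₀ F₁ e₀ + F₁ * (((2 : ℕ) + 1) * (F₀ * ((N + 1) * d))) ≤ η * X)
    {δf : ℝ} {bb : ℕ} (hfl : Pb (rT p L th E Z Bs A0 ρ₁) (fun W => |nT th A0 W 2| * 2 ^ bb ≤ 1) ≤
      δf)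
    {κ e ε' ε₃ Wt s : ℝ} {Y m' : ℕ} (hsm : ∀ t, ¬ E t → ∀ i a, |A0 t i a| ≤ κ)
    (hs : 0 < s)
    (h5 : 2 * s + 2 * (2 * (K₁ * (2 : ℝ) ^ (-(κ₁ * X))) / (ρ₁ * ρ₁)) ≤ 1 / 2 ^ bb)
    (hYs : 1 / 2 ^ Y ≤ s)
    (he1 : 3 * (1 / s * κ) ≤ e)
    (he2 : ((2 : ℝ) ^ (-(κ₁ * X)) / ρ₁ + 3 * (1 / 2 ^ Y * K₁)) / s ≤ e)
    (h4 : 8 * (2 * (K₁ * (2 : ℝ) ^ (-(κ₁ * X))) / (ρ₁ * ρ₁)) ≤ 1 / 4)
    (hY : 2 ^ Y * (2 * (8 * (2 * (K₁ * (2 : ℝ) ^ (-(κ₁ * X))) / (ρ₁ * ρ₁)))) ≤ ε₃)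
    (hε₃ : 0 ≤ ε₃) (hm' : 1 ≤ m') (hε' : 0 < ε')
    (hnum : 1 / 2 + 6 * δ + 9 * (6 * δ + ε₃ + 1 / m') + (3 * δ / ε' + (3 * δ + δf)) < 1)
    (hW : Wt * ε' ≤ 1 / 6 / (F₁ * F₀)) (hW0 : 0 ≤ Wt) (he3 : 0 ≤ e) :
    AltF p L th Z Bs A0 e (1 / 6 / (F₁ * F₀)) Wt (1 / s) := by
  classical
  obtain ⟨φ, ψ, hφ, hψ, h1, h2, h3⟩ := h.two hF hF₁ hρ₁ hE hNP hm hX hϖ nf hR hC hA hK hinv
    hbody he
  have hE0 : 0 < Pe (tup p L N) (evE th E) := lt_of_lt_of_le (by positivity) hE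
  have hP0 : 0 < Pe (cE p L th E Z Bs 2) (fun W => TR th A0 ρ₁ fun j => W j.succ) :=
    lt_of_lt_of_le (by positivity) hNP
  have hr := rT_law h.law hE0 hP0
  obtain ⟨ρ', hρ'⟩ : ∃ ρ' : ℝ, ρ' = 2 * (K₁ * (2 : ℝ) ^ (-(κ₁ * X))) / (ρ₁ * ρ₁) := ⟨_, rfl⟩
  rw [← hρ'] at h1 h2 h4 hY h5
  refine alt_ofF h.law hr (f := fun W => W 0 0) (mul_pos hF₁ hF) (rT_den h hF hF₁ hE hNP) hφ hψ
    (E := E) (A0 := A0) (fun x A => ∀ c, |dp x (fun i => A i c)| ≤ (2 : ℝ) ^ (-(κ₁ * X)) / ρ₁)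
    (fun x => 2 * s ≤ |x 2|)
    (ρ₀ := 8 * ρ') (η := 6 * δ) (M := 3 * δ) (m₁ := 3 * δ + δf) ?_ ?_ ?_ h4 hε₃ hY hm' hε' hnum
    (cN s) (by positivity) (fun e he => cN_le hs he)
    (fun x e j hx hj hn => cN_two hs hj hn hx hYs) ?_ ?_ hW hW0 he3
  · refine le_trans (Pb_mono hr.nonneg fun W hW hn => ?_) ((Pb_or hr.nonneg _ _).trans
      ((add_le_add h1 h2).trans (le_of_eq (by ring))))
    by_contra hcon
    push Not at hcon
    refine hn ?_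
    have := PA.trans (hφ _) (nc_u3 _ _) (hψ _) hcon.1.symm hcon.2
    refine this.mono (le_of_eq ?_)
    ring
  · refine (cE_own (K := 2) h.law hE0 (fun W' => TR th A0 ρ₁ W') hP0
      (fun l v => E (fun j => th (v j)) ∧ ¬ ∀ c, |dp (φ l)
        (fun i => (A0 fun j : Fin N => th (v j)) i c)| ≤ (2 : ℝ) ^ (-(κ₁ * X)) / ρ₁)
      (fun l v hv => hv.1)).trans ?_
    refine le_trans (Pb_mono hr.nonneg fun W hW hn => ?_) (h3.trans (le_of_eq (by ring)))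
    exact hn.2
  · refine le_trans (Pb_mono hr.nonneg fun W hW hn => ?_) ((Pb_or hr.nonneg _ _).trans
      ((add_le_add h1 hfl).trans (le_of_eq (by ring))))
    by_contra hcon
    rw [not_or, not_not] at hcon
    obtain ⟨g1, g2⟩ := hcon
    beta_reduce at hn
    rw [not_le, ← div_lt_iff₀ (by positivity)] at g2
    exact hn (pa_big (nc_u3 _ _) (hφ _) g1 h5 g2)
  · intro t ht e' he' c
    exact (dp_leS he' fun i => hsm t ht i c).trans he1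
  · intro x e' t j hg _ hj hx c
    exact (cN_dp hs (kv_small (fun i => hK t i c) hj (hg c) hx)).trans he2

theorem num_F {t K₁ s : ℝ} (t0 : 0 < t) (hK : 1 ≤ K₁) (hs : (16 + 32 * K₁) * t ≤ 1 / 100)
    (hts : t ≤ s) : t ≤ 1 / 4800 ∧ K₁ * t ≤ 1 / 3200 ∧
    2 * (K₁ * t ^ 24) / (t ^ 8 * t ^ 8) ≤ s ∧
    (t ^ 8 / t + 4 * (K₁ * (t ^ 8 / t / t))) / t ≤ s := by
  have h1 : t ≤ 1 / 4800 := by nlinarith
  have h2 : K₁ * t ≤ 1 / 3200 := by nlinarith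
  have e1 : 2 * (K₁ * t ^ 24) / (t ^ 8 * t ^ 8) = 2 * (K₁ * t) * t ^ 6 * t := by
    field_simp
  have e2 : (t ^ 8 / t + 4 * (K₁ * (t ^ 8 / t / t))) / t =
      t ^ 5 * t + 4 * (K₁ * t) * t ^ 3 * t := by
    field_simp
  have p : ∀ n : ℕ, t ^ n ≤ 1 := fun n => pow_le_one₀ t0.le (by linarith)
  have p5 : t ^ 5 ≤ 1 / 4 := by
    have : t ^ 5 = t ^ 4 * t := by ring
    have h4 := p 4
    nlinarith
  have q : 0 ≤ K₁ * t := by positivity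
  refine ⟨h1, h2, ?_, ?_⟩
  · rw [e1]
    have h3 : 2 * (K₁ * t) * t ^ 6 ≤ 1 := by
      have := mul_le_mul_of_nonneg_left (p 6) (by positivity : 0 ≤ 2 * (K₁ * t))
      linarith
    have := mul_le_mul_of_nonneg_right h3 t0.le
    linarith
  · rw [e2]
    have h3 : 4 * (K₁ * t) * t ^ 3 ≤ 1 / 2 := by
      have := mul_le_mul_of_nonneg_left (p 3) (by positivity : 0 ≤ 4 * (K₁ * t))
      linarith
    have := mul_le_mul_of_nonneg_right h3 t0.le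
    have := mul_le_mul_of_nonneg_right p5 t0.le
    linarith

/-- **The covector.** -/
theorem PcOk.alt_allF {a : ℕ} (h : PcOk p L th b hgt nu S Wd Z Bs X C d)
    {Wt F₀ F₁ ε₁ ε₂ δ₁ δ₂ δ : ℝ}
    (hWt : 1 ≤ Wt) (hF₀ : F₀ = Wt) (hε₁ : ε₁ = 1 / (6 * F₀ * Wt)) (hδ₂ : δ₂ = ε₁ / (200 * F₀))
    (hδ₁ : δ₁ = δ₂ ^ 2 / 4) (hF₁ : F₁ = 1 / δ₁) (hε₂ : ε₂ = 1 / (6 * (F₁ * F₀) * Wt))
    (hδ : δ = ε₂ / 1000)
    {A0 : (Fin (a + 1) → τ) → Matrix (Fin 3) (Fin 3) ℝ}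
    {h₀ h₀' κ₁ η ϖ : ℝ} {X0 : ℕ} (hm : MNN 2 h₀ κ₁ δ (F₁ * F₀) η ϖ C ((3 : ℕ) + 1) X0)
    (hX : X0 ≤ X) (hϖ : 0 < ϖ) {R : ℝ}
    (nf : ∀ G : Ω → Prop, ϖ ≤ Pe p G → 0 < Pe p G →
      CH (cond p G True) Z (fun ω => (Wd ω, S ω)) ≤ R)
    (hR : R + (3 : ℕ) * Real.log (2 * C + 1) + (2 * d + Real.log 2) / ϖ ≤
      ((2 : ℕ) + 1 - h₀) * X * Real.log 2 + η * X) (hC : 0 ≤ C)
    (hA : ∀ t, (A0 t).det ≠ 0) {K₁ : ℝ} (hK : ∀ t i a, |A0 t i a| ≤ K₁) (hK1 : 1 ≤ K₁)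
    (hinv : ∀ t i j, |(A0 t)⁻¹ i j| ≤ 2 ^ X) {e₀ : ℝ}
    (hbody : DF (tup p L (a + 1)) (fun _ => Tx 3 X) (fun w => A0 fun j => th (w j.succ))
      (fun w => xv X (hgt (w 0)))
      (fun w => (b (w 0), (th (w 0), fun j : Fin (a + 1) => th (w j.succ)))) ≤ e₀)
    (he : e3 (a + 1) C d F₀ F₁ e₀ +
      F₁ * (((2 : ℕ) + 1) * (F₀ * (((a + 1 : ℕ) + 1) * d))) ≤ η * X)
    {t s : ℝ} {Y : ℕ} (t0 : 0 < t) (t1 : t ≤ 1) (ht : (2 : ℝ) ^ (-(κ₁ * X)) = t ^ 24)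
    (hY1 : 2 ^ Y * (t * t) ≤ 1) (hY2 : 1 / 2 ^ Y ≤ 2 * (t * t))
    (hs : (16 + 32 * K₁) * t ≤ 1 / 100)
    -- the fibre
    {l kap η' ϖ' m cv : ℝ} {X0' : ℕ} (hmF : FNN h₀' l (1 / 20) (F₁ * F₀) kap η' ϖ' C m cv X0')
    (hXF : X0' ≤ X) (hm4 : (3 * ((3 : ℕ) + 1) : ℝ) ≤ m) (hcv : 6 * K₁ ≤ cv) {T₀ : ℕ}
    (hT : T₀ ≤ X) (hT' : (X : ℝ) ≤ T₀ + η' * X) {R' : ℝ}
    (nf' : ∀ G : Ω → Prop, ϖ' ≤ Pe p G → 0 < Pe p G →
      CH (cond p G True) Z (fun ω => (Wd ω, S ω)) ≤ R')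
    (hR' : R' ≤ (3 - h₀') * X * Real.log 2 + η' * X)
    (fa : FA p (fun ω => (Wd ω, S ω)) Z (fun k => T₀ - k * ⌊kap * X⌋₊) (T₀ / ⌊kap * X⌋₊)
      (⌊kap * X⌋₊ * Real.log 2 - η' * X) ϖ')
    (he1 : e1 3 (a + 1) C d F₀ e₀ ≤ η' * X)
    (he3 : 2 * e3 (a + 1) C d F₀ F₁ e₀ + |Cp 3 ((3 : ℕ) + 1)| ≤ η' * X)
    (hb1 : 1 ≤ ⌊kap * X⌋₊) (hl8 : (2 : ℝ) ^ (-(l * X)) ≤ t ^ 8)
    (hts : t ≤ s) (hs1 : s ≤ 1) (hsb : 4 * s * 2 ^ ⌊kap * X⌋₊ ≤ 1) :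
    ∃ m, 1 / 6 / (F₁ * F₀) ≤ m ∧
      AltF p L th Z Bs A0 ((6 + 14 * K₁) * t / s) m Wt (1 / s) := by
  classical
  have hs0 : 0 < s := t0.trans_le hts
  have hWt0 : 0 < Wt := by linarith
  have hF0 : 0 < F₀ := by rw [hF₀]; exact hWt0
  have hF01 : 1 ≤ F₀ := by rw [hF₀]; exact hWt
  have hε₁0 : 0 < ε₁ := by rw [hε₁]; positivity
  have hε₁1 : ε₁ ≤ 1 / 6 := by
    rw [hε₁]
    refine one_div_le_one_div_of_le (by norm_num) ?_
    nlinarith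
  have hδ₂0 : 0 < δ₂ := by rw [hδ₂]; positivity
  have hδ₂1 : δ₂ ≤ 1 / 1200 := by
    rw [hδ₂, div_le_div_iff₀ (by positivity) (by norm_num)]
    nlinarith
  have hδ₁0 : 0 < δ₁ := by rw [hδ₁]; positivity
  have hδ₁1 : δ₁ ≤ 1 / 1000 := by
    rw [hδ₁]
    nlinarith
  have hF10 : 0 < F₁ := by rw [hF₁]; positivity
  have hF11 : 1 ≤ F₁ := by
    rw [hF₁, le_div_iff₀ hδ₁0]
    linarith
  have hε₂0 : 0 < ε₂ := by rw [hε₂]; positivity
  have hε₂1 : ε₂ ≤ 1 / 6 := by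
    rw [hε₂]
    refine one_div_le_one_div_of_le (by norm_num) ?_
    have h1 : 1 ≤ F₁ * F₀ := one_le_mul_of_one_le_of_one_le hF11 hF01
    nlinarith
  have hδ0 : 0 < δ := by rw [hδ]; positivity
  have he0 : 0 ≤ (6 + 14 * K₁) * t / s := by positivity
  have hsz : 1 ≤ 1 / s := by rw [le_div_iff₀ hs0]; linarith
  have he3' : 3 * (1 / s * t) ≤ (6 + 14 * K₁) * t / s := by
    rw [show 3 * (1 / s * t) = 3 * t / s by ring]
    refine div_le_div_of_nonneg_right ?_ hs0.le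
    exact mul_le_mul_of_nonneg_right (by linarith) t0.le
  have he3'' : 3 * t ≤ (6 + 14 * K₁) * t / s := by
    refine le_trans ?_ he3'
    have := mul_le_mul_of_nonneg_right hsz t0.le
    linarith
  obtain ⟨q1, q2, q3, q4⟩ := num_F t0 hK1 hs hts
  have hYs : 1 / 2 ^ Y ≤ s := by nlinarith
  have hp2 : (0 : ℝ) < 2 ^ ⌊kap * X⌋₊ := by positivity
  have hsb' : 4 * s ≤ 1 / 2 ^ ⌊kap * X⌋₊ := by rwa [le_div_iff₀ hp2]
  have hcv1 : 1 ≤ cv := by linarith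
  obtain ⟨n1, n2, n3⟩ := num_two (K₁ := K₁) t0 t1 hK1 hY1 hY2 hs
  by_cases c0 : Pe (tup p L (a + 1)) (evE th (EB A0 t)) ≤ 1 / F₀
  · refine ⟨1, ?_, alt0F h.law c0 he3'' le_rfl ?_ hWt0.le hsz⟩
    · rw [div_div, div_le_one (by positivity)]
      have h1 : 1 ≤ F₁ * F₀ := one_le_mul_of_one_le_of_one_le hF11 hF01
      linarith
    · rw [hF₀]
      exact (mul_one_div_cancel hWt0.ne').le
  · have hE := (not_le.1 c0).le
    by_cases c1 : Pe (cE p L th (EB A0 t) Z Bs 2) (fun W => TR th A0 (t ^ 8)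
        fun j => W j.succ) ≤ δ₁
    · refine ⟨1 / 6 / F₀, ?_, ?_⟩
      · refine div_le_div_of_nonneg_left (by norm_num) hF0 ?_
        exact le_mul_of_one_le_left hF0.le hF11
      · obtain ⟨ρs, hρs⟩ : ∃ ρs : ℝ, ρs = t ^ 8 / t + 4 * (K₁ * (t ^ 8 / t / t)) := ⟨_, rfl⟩
        obtain ⟨ρc, hρc⟩ : ∃ ρc : ℝ, ρc = 4 * (ρs / t + t ^ 8 / t / t) := ⟨_, rfl⟩
        obtain ⟨m1, m2, m3⟩ := num_one (K₁ := K₁) t0 t1 hK1 hY1 hY2 hs hρs hρc
        have e1 : (δ₁ + δ₁) / δ₂ = δ₂ / 2 := by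
          rw [hδ₁]
          field_simp
          ring
        have e2 : F₀ * (δ₂ + (δ₁ + δ₁) / δ₂) = ε₁ * (3 / 400) := by
          rw [e1, hδ₂]
          field_simp
          ring
        have hfl := h.c1F (N := a + 1) (κ := t) hF0 (le_mul_of_one_le_left hF0.le hF11) t0
          hE hmF hXF (by push_cast at hm4 ⊢; linarith) hcv1 hT hT' nf' hR' fa hA hinv hbody he1 hb1
          (hl8.trans (pow_le_of_le_one t0.le t1 (by norm_num)))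
        refine alt1F h.law (κ := t) (ρ₁ := t ^ 8) (δ₁ := δ₁) (δ₂ := δ₂) (K₁ := K₁) (F₀ := F₀)
          (ε' := ε₁) (ε₃ := 1 / 100) (Y := Y) (m' := 100) (s := s)
          t0 hF0 hδ₂0 hK hE c1 hfl hρs hρc hs0 hs1 ?_ hYs he3' ?_ m1 m2 (by norm_num)
          (by norm_num) hε₁0 rfl ?_ ?_ hWt0.le he0
        · rw [← hρs] at q4
          linarith
        · refine div_le_div_of_nonneg_right ?_ hs0.le
          have k1 : 1 / 2 ^ Y * K₁ ≤ 2 * K₁ * t := by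
            have := mul_le_mul_of_nonneg_right hY2 (by linarith : 0 ≤ K₁)
            have k2 : t * t * K₁ ≤ t * K₁ := by
              have := mul_le_of_le_one_right t0.le t1
              exact mul_le_mul_of_nonneg_right this (by linarith)
            linarith
          linarith
        · rw [e2]
          have e3 : ε₁ * (3 / 400) / ε₁ = 3 / 400 := by field_simp
          rw [e3]
          push_cast
          linarith
        · rw [hε₁]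
          refine le_of_eq ?_
          field_simp
    · have hNP : 1 / F₁ ≤ Pe (cE p L th (EB A0 t) Z Bs 2) (fun W => TR th A0 (t ^ 8)
          fun j => W j.succ) := by
        rw [hF₁, one_div_one_div]
        exact (not_le.1 c1).le
      refine ⟨1 / 6 / (F₁ * F₀), le_rfl, ?_⟩
      have p8 : (0 : ℝ) < t ^ 8 := by positivity
      have hfl := h.c2F (N := a + 1) hF0 hF10 p8 (E := EB A0 t) hE hNP hmF hXF hm4 hT hT' nf'
        hR' fa hA hK hK1 hinv hbody he3 hb1 (hl8.trans (by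
          have k1 : cv * (t ^ 8 / (6 * K₁)) = cv / (6 * K₁) * t ^ 8 := by ring
          rw [k1]
          refine le_mul_of_one_le_left p8.le ?_
          rwa [le_div_iff₀ (by linarith), one_mul]))
      refine h.alt2F hF0 hF10 p8 (E := EB A0 t) hE hNP hm hX hϖ nf hR hC
        hA hK hinv hbody he hfl (κ := t) (e := (6 + 14 * K₁) * t / s) (ε' := ε₂) (ε₃ := 1 / 100)
        (Y := Y) (m' := 100) (s := s) ?_ hs0 ?_ hYs he3' ?_ ?_ ?_ (by norm_num) (by norm_num)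
        hε₂0 ?_ ?_ hWt0.le he0
      · intro x hx i c
        exact (nb_le _ i c).trans (not_le.1 hx).le
      · rw [ht]
        linarith
      · rw [ht]
        refine div_le_div_of_nonneg_right (n3.trans ?_) hs0.le
        exact mul_le_mul_of_nonneg_right (by linarith) t0.le
      · rw [ht]
        exact n1
      · rw [ht]
        exact n2
      · have e3 : 3 * δ / ε₂ = 3 / 1000 := by
          rw [hδ]
          field_simp
        rw [e3, hδ]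
        push_cast
        linarith
      · rw [hε₂]
        refine le_of_eq ?_
        field_simp

end Pool.DR24
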