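import Pool.Agent.H97.VF.Num
import Pool.Agent.H24.DR3.Al3

/-!
# The bodies with a fibre: parallel copies and transversal copies

`PcOk.c1F`: the long columns of the bodies have a large component in the first two coordinates.
`PcOk.c2F`: the normals of two transversal copies have a large last component.
-/

set_option autoImplicit false

namespace Pool.DR24

open Finset Real Matrix
open Pool.Agent.H49.Ent Pool.Agent.H32.Dense Pool.STK Pool.POT Pool.FAD Pool.SLO Pool.TQ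
open Pool.K2S (Pe)
open Pool.BFL (Pb)
open Pool.DIR21 (Pb_Pe Pb_mono Pb_or Pb_nonneg)
open Pool.VF97

/-- Vectors in the plane of two vectors. -/
theorem span3 {v w x : Fin 3 → ℝ} (h : dp (cr v w) x = 0) (i : Fin 3) :
    dp (cr v w) (cr v w) * x i = dp (cr x w) (cr v w) * v i + dp (cr v x) (cr v w) * w i := by
  unfold dp cr at *
  simp only [Matrix.cons_val_zero, Matrix.cons_val_one, Matrix.cons_val] at h ⊢
  fin_cases i <;> simp only [Fin.zero_eta, Fin.mk_one, Fin.reduceFinMk]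
  · linear_combination (v 1 * w 2 - v 2 * w 1) * h
  · linear_combination (v 2 * w 0 - v 0 * w 2) * h
  · linear_combination (v 0 * w 1 - v 1 * w 0) * h

theorem cr_le {v w : Fin 3 → ℝ} {a b : ℝ} (hv : ∀ i, |v i| ≤ a) (hw : ∀ i, |w i| ≤ b)
    (i : Fin 3) : |cr v w i| ≤ 2 * (a * b) := by
  have ha : 0 ≤ a := (abs_nonneg _).trans (hv 0)
  have key : ∀ i j, |v i * w j - v j * w i| ≤ 2 * (a * b) := fun i j => by
    refine (abs_sub _ _).trans ?_
    rw [abs_mul, abs_mul]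
    have g1 := mul_le_mul (hv i) (hw j) (abs_nonneg _) ha
    have g2 := mul_le_mul (hv j) (hw i) (abs_nonneg _) ha
    linarith
  unfold cr
  fin_cases i
  · exact key 1 2
  · exact key 2 0
  · exact key 0 1

theorem dp_le2 {x y : Fin 3 → ℝ} {a b : ℝ} (hx : ∀ i, |x i| ≤ a) (hy : ∀ i, |y i| ≤ b) :
    |dp x y| ≤ 3 * (a * b) := by
  have ha : 0 ≤ a := (abs_nonneg _).trans (hx 0)
  have g : ∀ i, |x i * y i| ≤ a * b := fun i => by
    rw [abs_mul]
    exact mul_le_mul (hx i) (hy i) (abs_nonneg _) ha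
  unfold dp
  have g1 := abs_add_le (x 0 * y 0 + x 1 * y 1) (x 2 * y 2)
  have g2 := abs_add_le (x 0 * y 0) (x 1 * y 1)
  linarith [g 0, g 1, g 2]

theorem mx_sq (x : Fin 3 → ℝ) : mx x * mx x ≤ dp x x := by
  obtain ⟨i, hi⟩ := mx_eq x
  rw [← hi, abs_mul_abs_self]
  unfold dp
  have h0 := mul_self_nonneg (x 0)
  have h1 := mul_self_nonneg (x 1)
  have h2 := mul_self_nonneg (x 2)
  fin_cases i
  · show x 0 * x 0 ≤ _
    linarith
  · show x 1 * x 1 ≤ _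
    linarith
  · show x 2 * x 2 ≤ _
    linarith

/-- The coefficients of a vector in the plane. -/
theorem span_le {v w x : Fin 3 → ℝ} {K : ℝ} (hK : 0 ≤ K) (hx : ∀ i, |x i| ≤ 1)
    (hv : ∀ i, |v i| ≤ K) (hm : 0 < mx (cr v w)) :
    |dp (cr v x) (cr v w) / dp (cr v w) (cr v w)| ≤ 6 * K / mx (cr v w) ∧
    |dp (cr x v) (cr v w) / dp (cr v w) (cr v w)| ≤ 6 * K / mx (cr v w) := by
  have h1 := mx_sq (cr v w)
  have h2 : 0 < mx (cr v w) * mx (cr v w) := by positivity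
  have h3 : 0 < dp (cr v w) (cr v w) := h2.trans_le h1
  have key : ∀ y : Fin 3 → ℝ, (∀ i, |y i| ≤ 2 * K) →
      |dp y (cr v w) / dp (cr v w) (cr v w)| ≤ 6 * K / mx (cr v w) := fun y hy => by
    have h4 := dp_le2 hy (le_mx (cr v w))
    rw [abs_div, abs_of_pos h3, div_le_div_iff₀ h3 hm]
    calc |dp y (cr v w)| * mx (cr v w) ≤ 3 * (2 * K * mx (cr v w)) * mx (cr v w) :=
          mul_le_mul_of_nonneg_right h4 hm.le
      _ = 6 * K * (mx (cr v w) * mx (cr v w)) := by ring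
      _ ≤ _ := mul_le_mul_of_nonneg_left h1 (by positivity)
  constructor
  · refine key _ fun i => (cr_le hv hx i).trans (le_of_eq (by ring))
  · refine key _ fun i => (cr_le hx hv i).trans (le_of_eq (by ring))

open Classical in
/-- The vector of the plane of two bodies which is near to the last coordinate. -/
noncomputable def fv (c : ℝ) (A B : Matrix (Fin 3) (Fin 3) ℝ) (i : Fin 3) : ℝ :=
  if |nc A B 0| = 1 then c * (if i = 2 then 1 else if i = 0 then -(nc A B 2 / nc A B 0) else 0)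
  else c * (if i = 2 then 1 else if i = 1 then -(nc A B 2 / nc A B 1) else 0)

theorem fv_spec {A B : Matrix (Fin 3) (Fin 3) ℝ} {s : ℝ} (h2 : |nc A B 2| ≤ s) (hs : s < 1)
    {c : ℝ} (hc : 0 ≤ c) :
    |fv c A B 2| = c ∧ (∀ i, i ≠ 2 → |fv c A B i| ≤ s * c) ∧
      ∃ x : Fin 3 → ℝ, (∀ i, |x i| ≤ 1) ∧ dp (nc A B) x = 0 ∧ ∀ i, fv c A B i = c * x i := by
  have hu := nc_u3 A B
  have hs0 : 0 ≤ s := (abs_nonneg _).trans h2
  have hr : ∀ j : Fin 3, |nc A B j| = 1 → |-(nc A B 2 / nc A B j)| ≤ s := fun j hj => by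
    rw [abs_neg, abs_div, hj, div_one]
    exact h2
  have key : ∀ j : Fin 3, j ≠ 2 → |nc A B j| = 1 →
      (∀ i, fv c A B i = c * (if i = 2 then 1 else if i = j then -(nc A B 2 / nc A B j) else 0)) →
      |fv c A B 2| = c ∧ (∀ i, i ≠ 2 → |fv c A B i| ≤ s * c) ∧
      ∃ x : Fin 3 → ℝ, (∀ i, |x i| ≤ 1) ∧ dp (nc A B) x = 0 ∧ ∀ i, fv c A B i = c * x i := by
    intro j hj2 hj hval
    have hn : nc A B j ≠ 0 := by
      intro h
      rw [h, abs_zero] at hj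
      exact zero_ne_one hj
    refine ⟨?_, fun i hi => ?_, fun i => if i = 2 then 1 else if i = j then
      -(nc A B 2 / nc A B j) else 0, fun i => ?_, ?_, hval⟩
    · rw [hval 2, if_pos rfl, mul_one, abs_of_nonneg hc]
    · rw [hval i, if_neg hi]
      split_ifs with h
      · rw [abs_mul, abs_of_nonneg hc, mul_comm]
        exact mul_le_mul_of_nonneg_right (hr j hj) hc
      · rw [mul_zero, abs_zero]
        positivity
    · beta_reduce
      split_ifs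
      · rw [abs_one]
      · exact (hr j hj).trans hs.le
      · rw [abs_zero]
        exact zero_le_one
    · unfold dp
      fin_cases j
      · simp at hn ⊢
        field_simp
        ring
      · simp at hn ⊢
        field_simp
        ring
      · exact absurd rfl hj2
  by_cases h0 : |nc A B 0| = 1
  · refine key 0 (by decide) h0 fun i => ?_
    unfold fv
    rw [if_pos h0]
  · have h1 : |nc A B 1| = 1 := by
      obtain ⟨i, hi⟩ := hu.2
      fin_cases i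
      · exact absurd hi h0
      · exact hi
      · have hi' : |nc A B 2| = 1 := hi
        rw [hi'] at h2
        linarith
    refine key 1 (by decide) h1 fun i => ?_
    unfold fv
    rw [if_neg h0]

variable {Ω Λ τ B β ρ σ : Type} [Fintype Ω] {p : Ω → ℝ} {L : Ω → Λ} {th : Ω → τ}
  {b : Ω → B} {hgt nu : Ω → Fin 3 → ℤ} {S : Ω → ρ} {Wd : Ω → β} {Z : Ω → Fin 3 → ℤ} {Bs : Ω → σ}
  {X : ℕ} {C d : ℝ} {N : ℕ}

/-- **The long columns.** -/
theorem PcOk.c1F (h : PcOk p L th b hgt nu S Wd Z Bs X C d) {F₀ F κ : ℝ} (hF : 0 < F₀)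
    (hFF : F₀ ≤ F) (hκ : 0 < κ) {A0 : (Fin N → τ) → Matrix (Fin 3) (Fin 3) ℝ}
    (hE : 1 / F₀ ≤ Pe (tup p L N) (evE th (EB A0 κ)))
    {h₀ l δ kap η ϖ m cv : ℝ} {X0 : ℕ} (hm : FNN h₀ l δ F kap η ϖ C m cv X0) (hX : X0 ≤ X)
    (hm4 : ((3 : ℕ) + 1 : ℝ) ≤ m) (hcv : 1 ≤ cv) {T₀ : ℕ} (hT : T₀ ≤ X)
    (hT' : (X : ℝ) ≤ T₀ + η * X) {R : ℝ}
    (nf : ∀ G : Ω → Prop, ϖ ≤ Pe p G → 0 < Pe p G →
      CH (cond p G True) Z (fun ω => (Wd ω, S ω)) ≤ R)
    (hR : R ≤ (3 - h₀) * X * Real.log 2 + η * X)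
    (fa : FA p (fun ω => (Wd ω, S ω)) Z (fun k => T₀ - k * ⌊kap * X⌋₊) (T₀ / ⌊kap * X⌋₊)
      (⌊kap * X⌋₊ * Real.log 2 - η * X) ϖ)
    (hA : ∀ t, (A0 t).det ≠ 0) (hinv : ∀ t i j, |(A0 t)⁻¹ i j| ≤ 2 ^ X) {e₀ : ℝ}
    (hbody : DF (tup p L N) (fun _ => Tx 3 X) (fun w => A0 fun j => th (w j.succ))
      (fun w => xv X (hgt (w 0)))
      (fun w => (b (w 0), (th (w 0), fun j : Fin N => th (w j.succ)))) ≤ e₀)
    (he : e1 3 N C d F₀ e₀ ≤ η * X) (hb1 : 1 ≤ ⌊kap * X⌋₊) (hκl : (2 : ℝ) ^ (-(l * X)) ≤ κ) :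
    Pb (qE p L th (EB A0 κ)) (fun w => ∀ i, i ≠ 2 →
      |un (bdy th A0 w) i| * 2 ^ ⌊kap * X⌋₊ ≤ 1) ≤ δ := by
  classical
  have hp := h.law
  have hE0 : 0 < Pe (tup p L N) (evE th (EB A0 κ)) := lt_of_lt_of_le (by positivity) hE
  have hq := qE_law (E := EB A0 κ) hp hE0
  have htl := tup_isLaw hp L N
  have hqp : ∀ v : Fin (N + 1) → Ω, 0 < qE p L th (EB A0 κ) v → 0 < p (v 0) := fun v hv =>
    (im_tup hp.nonneg L N 0).pos htl.nonneg (qE_pos hp hv).1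
  have hdA : Det (qE p L th (EB A0 κ)) (fun v => (Bs (v 0), dt Wd b th v)) (bdy th A0) := by
    intro v v' _ _ e
    have e1 := (Prod.ext_iff.mp e).2
    simp only [dt, Prod.mk.injEq] at e1
    unfold bdy
    rw [e1.2.2.2]
  obtain ⟨v, hv⟩ : ∃ v : (Fin (N + 1) → Ω) → Fin 3 → ℝ, v = fun w i =>
    bdy th A0 w i (lc (bdy th A0 w)).2 := ⟨_, rfl⟩
  have h0 : 0 ≤ F₀ := hF.le
  have key := hm Ω (Fin (N + 1) → Ω) _ _ _ _ p (qE p L th (EB A0 κ)) (fun v => v 0) Z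
    (fun ω => (Wd ω, S ω)) (bdy th A0) v (fun v => (Bs (v 0), dt Wd b th v)) X T₀ hX hT hT' hp hq
    (fun ω => ((h.z_sys hF hE).den ω).trans (mul_le_mul_of_nonneg_right hFF (hp.nonneg ω)))
    hdA (fun w w' a b' e => by
      have e1 := hdA w w' a b' e
      rw [hv]
      simp only [e1])
    (fun w w' a b' e => by
      have e1 := (Prod.ext_iff.mp e).2
      simp only [dt, Prod.mk.injEq] at e1
      exact Prod.ext e1.1 (h.SY _ _ (hqp _ a) (hqp _ b') (by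
        simp only [Prod.mk.injEq]
        exact ⟨e1.1, e1.2.2.1, e1.2.1⟩)))
    (fun w => hA _) (fun w => (inc_of_inv (hinv _)).mono hm4)
    ((h.z_df hF hE hA hinv hbody).trans he) h.Z_b
    (fun G hG hG0 => (nf G hG hG0).trans hR) fa
  rw [← Pb_Pe] at key
  refine le_trans (Pb_mono hq.nonneg fun w hw hs => ?_) key
  have hbig : κ ≤ nb (bdy th A0 w) := (qE_pos hp hw).2
  have hb0 : 0 < nb (bdy th A0 w) := hκ.trans_le hbig
  have h2b : (2 : ℝ) ≤ 2 ^ ⌊kap * X⌋₊ := by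
    calc (2 : ℝ) = 2 ^ 1 := (pow_one 2).symm
      _ ≤ _ := pow_le_pow_right₀ (by norm_num) hb1
  have hu := un_u3 hb0
  have hu2 : |un (bdy th A0 w) 2| = 1 := by
    obtain ⟨i, hi⟩ := hu.2
    by_cases h2 : i = 2
    · rw [h2] at hi
      exact hi
    · have := hs i h2
      rw [hi] at this
      linarith
  have hvu : ∀ i, |v w i| = nb (bdy th A0 w) * |un (bdy th A0 w) i| := fun i => by
    rw [hv]
    unfold un
    rw [abs_div, abs_of_pos hb0]
    field_simp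
  refine ⟨fun i => ?_, ?_, fun i hi => ?_⟩
  · have e1 : (bdy th A0 w)⁻¹ *ᵥ v w = fun i => if i = (lc (bdy th A0 w)).2 then 1 else 0 := by
      have e2 : v w = bdy th A0 w *ᵥ (fun i => if i = (lc (bdy th A0 w)).2 then 1 else 0) := by
        funext k
        rw [hv]
        simp [Matrix.mulVec, dotProduct]
      have hAd : (bdy th A0 w).det ≠ 0 := hA _
      rw [e2, Matrix.mulVec_mulVec, Matrix.nonsing_inv_mul _ (isUnit_iff_ne_zero.2 hAd),
        Matrix.one_mulVec]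
    rw [e1]
    have hm1 : (1 : ℝ) ≤ m := by
      push_cast at hm4
      linarith
    beta_reduce
    split_ifs
    · rw [abs_one]
      exact hm1
    · rw [abs_zero]
      linarith
  · rw [hvu, hu2, mul_one]
    have hn : 0 ≤ nb (bdy th A0 w) := hb0.le
    exact hκl.trans (hbig.trans (le_mul_of_one_le_left hn hcv))
  · rw [hvu, hvu, hu2, mul_one, mul_assoc]
    exact mul_le_of_le_one_right hb0.le (hs i hi)

/-- **The normals of transversal copies.** -/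
theorem PcOk.c2F (h : PcOk p L th b hgt nu S Wd Z Bs X C d) {F₀ F₁ ρ₁ : ℝ} (hF : 0 < F₀)
    (hF₁ : 0 < F₁) (hρ₁ : 0 < ρ₁) {E : (Fin N → τ) → Prop}
    {A0 : (Fin N → τ) → Matrix (Fin 3) (Fin 3) ℝ}
    (hE : 1 / F₀ ≤ Pe (tup p L N) (evE th E))
    (hNP : 1 / F₁ ≤ Pe (cE p L th E Z Bs 2) (fun W => TR th A0 ρ₁ fun j => W j.succ))
    {h₀ l δ kap η ϖ m cv : ℝ} {X0 : ℕ} (hm : FNN h₀ l δ (F₁ * F₀) kap η ϖ C m cv X0)
    (hX : X0 ≤ X) (hm4 : (3 * ((3 : ℕ) + 1) : ℝ) ≤ m) {T₀ : ℕ} (hT : T₀ ≤ X)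
    (hT' : (X : ℝ) ≤ T₀ + η * X) {R : ℝ}
    (nf : ∀ G : Ω → Prop, ϖ ≤ Pe p G → 0 < Pe p G →
      CH (cond p G True) Z (fun ω => (Wd ω, S ω)) ≤ R)
    (hR : R ≤ (3 - h₀) * X * Real.log 2 + η * X)
    (fa : FA p (fun ω => (Wd ω, S ω)) Z (fun k => T₀ - k * ⌊kap * X⌋₊) (T₀ / ⌊kap * X⌋₊)
      (⌊kap * X⌋₊ * Real.log 2 - η * X) ϖ)
    (hA : ∀ t, (A0 t).det ≠ 0) {K₁ : ℝ} (hK : ∀ t i a, |A0 t i a| ≤ K₁) (hK1 : 1 ≤ K₁)
    (hinv : ∀ t i j, |(A0 t)⁻¹ i j| ≤ 2 ^ X) {e₀ : ℝ}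
    (hbody : DF (tup p L N) (fun _ => Tx 3 X) (fun w => A0 fun j => th (w j.succ))
      (fun w => xv X (hgt (w 0)))
      (fun w => (b (w 0), (th (w 0), fun j : Fin N => th (w j.succ)))) ≤ e₀)
    (he : 2 * e3 N C d F₀ F₁ e₀ + |Cp 3 ((3 : ℕ) + 1)| ≤ η * X) (hb1 : 1 ≤ ⌊kap * X⌋₊)
    (hκl : (2 : ℝ) ^ (-(l * X)) ≤ cv * (ρ₁ / (6 * K₁))) :
    Pb (rT p L th E Z Bs A0 ρ₁) (fun W => |nT th A0 W 2| * 2 ^ ⌊kap * X⌋₊ ≤ 1) ≤ δ := by
  classical
  have hp := h.law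
  have hd0 := h.d0
  have zz : TsOk p Bs Z (cE p L th E Z Bs 2) (fun W => W 0 0)
      (fun W => (Z (W 0 0), Bs (W 0 0))) (fun W (j : Fin (2 + 1)) => dt Wd b th (W j)) F₀
      (((2 : ℕ) + 1) * (F₀ * ((N + 1) * d))) := (h.z_sys hF hE).tup 2
  have zd : ∀ k : Fin (2 + 1), DF (cE p L th E Z Bs 2) (fun _ => Tx 3 X)
      (fun W => A0 fun j => th (W k j.succ)) (fun W => xv X (Z (W 0 0)))
      (fun W => (Bs (W 0 0), fun j : Fin (2 + 1) => dt Wd b th (W j))) ≤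
      e1 3 N C d F₀ e₀ + (2 : ℕ) * (F₀ * ((N + 1) * d)) := fun k =>
    ts_df (h.z_sys (E := E) hF hE) (A := fun x => A0 x.2.2.2) (h.z_df hF hE hA hinv hbody) 2 k
  have hGz : Det (cE p L th E Z Bs 2) (fun W (j : Fin (2 + 1)) => dt Wd b th (W j))
      (fun W => TR th A0 ρ₁ fun j => W j.succ) := by
    intro W W' _ _ e
    have e1 := congrFun e 1
    have e2 := congrFun e 2
    simp only [dt, Prod.mk.injEq] at e1 e2
    have g1 : bdy th A0 (W 1) = bdy th A0 (W' 1) := by unfold bdy; rw [e1.2.2.2]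
    have g2 : bdy th A0 (W 2) = bdy th A0 (W' 2) := by unfold bdy; rw [e2.2.2.2]
    show (ρ₁ ≤ mx (vc (bdy th A0 (W 1)) (bdy th A0 (W 2)))) =
      (ρ₁ ≤ mx (vc (bdy th A0 (W' 1)) (bdy th A0 (W' 2))))
    rw [g1, g2]
  have hinc : ∀ t, Inc ((3 : ℕ) + 1 : ℝ) (Tx 3 X) (A0 t) := fun t => inc_of_inv (hinv t)
  have hc4 : (0 : ℝ) ≤ (3 : ℕ) + 1 := by positivity
  have g0 : 0 ≤ e1 3 N C d F₀ e₀ + (2 : ℕ) * (F₀ * ((N + 1) * d)) := by
    unfold e1
    positivity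
  have zs := zz.ev hGz hF₁ hNP
  have zdr : ∀ k : Fin (2 + 1), DF (rT p L th E Z Bs A0 ρ₁) (fun _ => Tx 3 X)
      (fun W => bdy th A0 (W k)) (fun W => xv X (Z (W 0 0)))
      (fun W => (Bs (W 0 0), fun j : Fin (2 + 1) => dt Wd b th (W j))) ≤
      e3 N C d F₀ F₁ e₀ := fun k => by
    refine (ts_df_ev zz hGz hF₁ hNP (A := fun x => A0 (x k).2.2.2) (fun x => hA _) hc4
      (fun x => hinc _) (zd k)).trans ?_
    unfold e3
    refine mul_le_mul_of_nonneg_left (add_le_add ?_ le_rfl) hF₁.le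
    rw [abs_of_nonneg g0]
    linarith [abs_nonneg (Pool.POT64.Cch 3 1 C)]
  have hE0 : 0 < Pe (tup p L N) (evE th E) := lt_of_lt_of_le (by positivity) hE
  have hP0 : 0 < Pe (cE p L th E Z Bs 2) (fun W => TR th A0 ρ₁ fun j => W j.succ) :=
    lt_of_lt_of_le (by positivity) hNP
  have hr := rT_law hp hE0 hP0
  have hdA : ∀ k : Fin (2 + 1), Det (rT p L th E Z Bs A0 ρ₁)
      (fun W => (Bs (W 0 0), fun j : Fin (2 + 1) => dt Wd b th (W j)))
      (fun W => bdy th A0 (W k)) := by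
    intro k W W' _ _ e
    have e1 := congrFun (Prod.ext_iff.mp e).2 k
    simp only [dt, Prod.mk.injEq] at e1
    unfold bdy
    simp only [e1.2.2.2]
  have hrp : ∀ W, 0 < rT p L th E Z Bs A0 ρ₁ W → 0 < p (W 0 0) := fun W hW => by
    have k1 := (rT_pos hp hE0 hW).1
    have hq := qE_law (E := E) hp hE0
    have hc0 : ∀ W, 0 ≤ cE p L th E Z Bs 2 W := (tup_isLaw hq
      (fun v : Fin (N + 1) → Ω => (Z (v 0), Bs (v 0))) 2).nonneg
    have k2 := (im_tup hq.nonneg (fun v : Fin (N + 1) → Ω => (Z (v 0), Bs (v 0))) 2 0).pos hc0 k1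
    exact (im_tup hp.nonneg L N 0).pos (tup_isLaw hp L N).nonneg (qE_pos hp k2).1
  -- the body
  obtain ⟨S', s1, s2, s3, s4, s5⟩ := DF_pair hr.nonneg hr.sum_one (T := fun _ => Tx 3 X)
    (A := fun W => bdy th A0 (W 1)) (B := fun W => bdy th A0 (W 2))
    (fun W => xv X (Z (W 0 0))) (fun W => (Bs (W 0 0), fun j : Fin (2 + 1) => dt Wd b th (W j)))
    (fun _ _ _ _ _ => rfl) (hdA 1) (hdA 2) (fun _ => Tx_det 3 X) (fun W => hA _)
    (fun W => hA _) hc4 (fun W => hinc _) (fun W => hinc _)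
  have hS5 : DF (rT p L th E Z Bs A0 ρ₁) (fun _ => Tx 3 X) S' (fun W => xv X (Z (W 0 0)))
      (fun W => (Bs (W 0 0), fun j : Fin (2 + 1) => dt Wd b th (W j))) ≤ η * X := by
    have k0 := le_abs_self (Cp 3 ((3 : ℕ) + 1))
    have k1 := zdr 1
    have k2 := zdr 2
    linarith
  have hTS : ∀ W, Inc m (Tx 3 X) (S' W) := fun W => by
    have := Inc.trans (hA fun j => th (W 1 j.succ)) hc4 (hinc _) (s3 W)
    refine this.mono (le_trans (le_of_eq ?_) hm4)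
    push_cast
    ring
  have hK10 : 0 < 6 * K₁ := by linarith
  obtain ⟨c, hc⟩ : ∃ c : ℝ, c = ρ₁ / (6 * K₁) := ⟨_, rfl⟩
  have hc0 : 0 < c := by rw [hc]; positivity
  have hm1 : (6 : ℝ) ≤ m := by
    push_cast at hm4
    linarith
  have h2b : (2 : ℝ) ≤ 2 ^ ⌊kap * X⌋₊ := by
    calc (2 : ℝ) = 2 ^ 1 := (pow_one 2).symm
      _ ≤ _ := pow_le_pow_right₀ (by norm_num) hb1
  have h2b0 : (0 : ℝ) < 2 ^ ⌊kap * X⌋₊ := by positivity
  have key := hm Ω (Fin (2 + 1) → Fin (N + 1) → Ω) _ _ _ _ p (rT p L th E Z Bs A0 ρ₁)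
    (fun W => W 0 0) Z (fun ω => (Wd ω, S ω)) S'
    (fun W => fv c (bdy th A0 (W 1)) (bdy th A0 (W 2)))
    (fun W => (Bs (W 0 0), fun j : Fin (2 + 1) => dt Wd b th (W j))) X T₀ hX hT hT' hp hr
    zs.den s1 (fun W W' x y e => by
      have e1 := hdA 1 W W' x y e
      have e2 := hdA 2 W W' x y e
      simp only at e1 e2 ⊢
      rw [e1, e2])
    (fun W W' x y e => by
      have e1 := congrFun (Prod.ext_iff.mp e).2 0
      simp only [dt, Prod.mk.injEq] at e1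
      exact Prod.ext e1.1 (h.SY _ _ (hrp _ x) (hrp _ y) (by
        simp only [Prod.mk.injEq]
        exact ⟨e1.1, e1.2.2.1, e1.2.1⟩)))
    s2 hTS hS5 h.Z_b (fun G hG hG0 => (nf G hG hG0).trans hR) fa
  rw [← Pb_Pe] at key
  refine le_trans (Pb_mono hr.nonneg fun W hW hs => ?_) key
  have hTR := (rT_pos hp hE0 hW).2
  obtain ⟨s, hsd⟩ : ∃ s : ℝ, s = 1 / 2 ^ ⌊kap * X⌋₊ := ⟨_, rfl⟩
  have hs1 : |nc (bdy th A0 (W 1)) (bdy th A0 (W 2)) 2| ≤ s := by
    rw [hsd, le_div_iff₀ h2b0]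
    exact hs
  have hs2 : s < 1 := by
    rw [hsd, div_lt_one h2b0]
    linarith
  obtain ⟨f1, f2, x, x1, x2, x3⟩ := fv_spec hs1 hs2 hc0.le
  refine ⟨fun i => ?_, ?_, fun i hi => ?_⟩
  · -- the coordinates in the body
    obtain ⟨A, hAd⟩ : ∃ A, A = bdy th A0 (W 1) := ⟨_, rfl⟩
    obtain ⟨B', hBd⟩ : ∃ B', B' = bdy th A0 (W 2) := ⟨_, rfl⟩
    have hs3 : Inc _ (bdy th A0 (W 1)) (S' W) := s3 W
    have hs4 : Inc _ (bdy th A0 (W 2)) (S' W) := s4 W
    have hAK : ∀ i a, |A i a| ≤ K₁ := fun i a => by rw [hAd]; exact hK _ i a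
    have hBK : ∀ i a, |B' i a| ≤ K₁ := fun i a => by rw [hBd]; exact hK _ i a
    rw [← hAd] at hTR hs3 x2 x3 ⊢
    rw [← hBd] at hTR hs4 x2 x3 ⊢
    obtain ⟨pa, hpa⟩ : ∃ pa, pa = pc A B' := ⟨_, rfl⟩
    obtain ⟨v, hv⟩ : ∃ v : Fin 3 → ℝ, v = fun i => A i pa.1 := ⟨_, rfl⟩
    obtain ⟨w, hw⟩ : ∃ w : Fin 3 → ℝ, w = fun i => B' i pa.2 := ⟨_, rfl⟩
    have evc : vc A B' = cr v w := by rw [hv, hw, hpa]; rfl
    rw [evc] at hTR
    have hmx : 0 < mx (cr v w) := hρ₁.trans_le hTR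
    have hdp : dp (cr v w) x = 0 := by
      have e1 : dp (nc A B') x = dp (cr v w) x / mx (cr v w) := by
        unfold nc
        rw [evc]
        exact dp_nz hmx x
      rw [e1] at x2
      rcases div_eq_zero_iff.1 x2 with h5 | h5
      · exact h5
      · exact absurd h5 hmx.ne'
    have hNN : 0 < dp (cr v w) (cr v w) := lt_of_lt_of_le (by positivity) (mx_sq (cr v w))
    obtain ⟨al, hal⟩ : ∃ al : ℝ, al = dp (cr x w) (cr v w) / dp (cr v w) (cr v w) := ⟨_, rfl⟩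
    obtain ⟨be, hbe⟩ : ∃ be : ℝ, be = dp (cr v x) (cr v w) / dp (cr v w) (cr v w) := ⟨_, rfl⟩
    have hx : ∀ i, x i = al * v i + be * w i := fun i => by
      have := span3 hdp i
      rw [hal, hbe]
      field_simp
      linarith
    have hvK : ∀ i, |v i| ≤ K₁ := fun i => by rw [hv]; exact hAK i _
    have hwK : ∀ i, |w i| ≤ K₁ := fun i => by rw [hw]; exact hBK i _
    have hmx2 : 6 * K₁ / mx (cr v w) ≤ 6 * K₁ / ρ₁ :=
      div_le_div_of_nonneg_left hK10.le hρ₁ hTR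
    have hK0 : 0 ≤ K₁ := by linarith
    have b2 : |be| ≤ 6 * K₁ / ρ₁ := by
      rw [hbe]
      exact ((span_le hK0 x1 hvK hmx).1).trans hmx2
    have b1 : |al| ≤ 6 * K₁ / ρ₁ := by
      have e1 : mx (cr w v) = mx (cr v w) := by
        unfold mx
        rw [cr_comm v w 0, cr_comm v w 1, cr_comm v w 2, abs_neg, abs_neg, abs_neg]
      have e2 : ∀ y : Fin 3 → ℝ, dp y (cr w v) = -dp y (cr v w) := fun y => by
        unfold dp
        rw [cr_comm v w 0, cr_comm v w 1, cr_comm v w 2]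
        ring
      have e3 : dp (cr w v) (cr w v) = dp (cr v w) (cr v w) := by
        unfold dp
        rw [cr_comm v w 0, cr_comm v w 1, cr_comm v w 2]
        ring
      have k1 := (span_le hK0 x1 hwK (by rw [e1]; exact hmx) (v := w) (w := v)).2
      rw [e3, e2, e1, neg_div, abs_neg, ← hal] at k1
      exact k1.trans hmx2
    have hcc : c * (6 * K₁ / ρ₁) = 1 := by
      rw [hc]
      field_simp
    have c1 : |c * al| ≤ 1 := by
      rw [abs_mul, abs_of_pos hc0, ← hcc]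
      exact mul_le_mul_of_nonneg_left b1 hc0.le
    have c2 : |c * be| ≤ 1 := by
      rw [abs_mul, abs_of_pos hc0, ← hcc]
      exact mul_le_mul_of_nonneg_left b2 hc0.le
    have e1 : fv c A B' = (c * al) • v + (c * be) • w := by
      funext i
      rw [x3 i, hx i]
      simp only [Pi.add_apply, Pi.smul_apply, smul_eq_mul]
      ring
    have e2 : ((S' W)⁻¹ *ᵥ fv c A B') i = c * al * ((S' W)⁻¹ *ᵥ v) i +
        c * be * ((S' W)⁻¹ *ᵥ w) i := by
      rw [e1, Matrix.mulVec_add, Matrix.mulVec_smul, Matrix.mulVec_smul]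
      rfl
    have d1 : |((S' W)⁻¹ *ᵥ v) i| ≤ 3 := by
      have k1 := inc_ent hs3 i pa.1
      have k2 : ((S' W)⁻¹ * A) i pa.1 = ((S' W)⁻¹ *ᵥ v) i := by
        rw [hv, Matrix.mul_apply]
        rfl
      rw [k2] at k1
      push_cast at k1
      exact k1
    have d2 : |((S' W)⁻¹ *ᵥ w) i| ≤ 3 := by
      have k1 := inc_ent hs4 i pa.2
      have k2 : ((S' W)⁻¹ * B') i pa.2 = ((S' W)⁻¹ *ᵥ w) i := by
        rw [hw, Matrix.mul_apply]
        rfl
      rw [k2] at k1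
      push_cast at k1
      exact k1
    rw [e2]
    refine (abs_add_le _ _).trans ?_
    rw [abs_mul (c * al), abs_mul (c * be)]
    have g1 := mul_le_mul c1 d1 (abs_nonneg _) zero_le_one
    have g2 := mul_le_mul c2 d2 (abs_nonneg _) zero_le_one
    linarith
  · rw [f1, hc]
    exact hκl
  · rw [f1]
    have k1 := mul_le_mul_of_nonneg_right (f2 i hi) h2b0.le
    refine k1.trans (le_of_eq ?_)
    rw [hsd]
    field_simp

end Pool.DR24
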