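import Pool.Agent.H97.VF.Fib

/-!
# Blocks of digits

`FA`: the fullness of the first two coordinates in the adapted blocks of a grid. `chn_low`: the lower
bound of the entropy of a vector whose first two coordinates are full in the adapted blocks.
-/

set_option autoImplicit false

namespace Pool.VF97

open Finset Real Matrix
open Pool.Agent.H49.Ent Pool.Agent.H32.Dense Pool.STK Pool.POT Pool.FAD Pool.SLO Pool.TQ
open Pool.K2S (Pe)
open Pool.DR24

/-- **Fullness of the first two coordinates** in the adapted blocks. -/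
def FA {Ω σ : Type} [Fintype Ω] (p : Ω → ℝ) (WS : Ω → σ) (Z : Ω → Fin 3 → ℤ) (T : ℕ → ℕ)
    (M : ℕ) (β ϖ : ℝ) : Prop :=
  ∀ k, k < M → ∀ B : Ω → Prop, ϖ ≤ Pe p B → 0 < Pe p B →
    β ≤ CH (cond p B True) (fun ω => Z ω 0 / 2 ^ T (k + 1))
      (fun ω => (dg (T k) (Z ω), WS ω)) ∧
    β ≤ CH (cond p B True) (fun ω => Z ω 1 / 2 ^ T (k + 1))
      (fun ω => (Z ω 0 / 2 ^ T (k + 1), (dg (T k) (Z ω), WS ω)))

theorem dg_dg {s t : ℕ} (h : s ≤ t) (z : ℤ) : z / 2 ^ t = z / 2 ^ s / 2 ^ (t - s) := by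
  rw [Int.ediv_ediv_of_nonneg (by positivity), ← pow_add, Nat.add_sub_cancel' h]

variable {Γ σ ζ : Type} [Fintype Γ] {q : Γ → ℝ}

/-- **The adapted blocks.** -/
theorem chn_low (hq : IsLaw q) (n : Γ → Fin 3 → ℤ) (WS : Γ → σ) (Y : Γ → ζ)
    (hWS : Det q Y WS) (T : ℕ → ℕ) (hT : ∀ k, T (k + 1) ≤ T k) (M : ℕ) {β : ℝ} {γ : ℕ → ℝ}
    (h0 : ∀ k, k < M → β ≤ CH q (fun w => n w 0 / 2 ^ T (k + 1))
      (fun w => (dg (T k) (n w), WS w)))
    (h1 : ∀ k, k < M → β ≤ CH q (fun w => n w 1 / 2 ^ T (k + 1))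
      (fun w => (n w 0 / 2 ^ T (k + 1), (dg (T k) (n w), WS w))))
    (h2 : ∀ k, k < M → γ k ≤ CH q (fun w => n w 2 / 2 ^ T (k + 1))
      (fun w => (p01 (dg (T (k + 1)) (n w)), (n w 2 / 2 ^ T k, Y w)))) :
    ∑ k ∈ Finset.range M, (2 * β + γ k) ≤ CH q n WS := by
  classical
  have hq0 := hq.nonneg
  have key : ∀ m, m ≤ M → ∑ k ∈ Finset.range m, (2 * β + γ k) ≤
      CH q (fun w => dg (T m) (n w)) WS := by
    intro m
    induction m with
    | zero =>
      intro _
      rw [Finset.sum_range_zero]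
      exact CH_nonneg hq0 _ _
    | succ k ih =>
      intro hk
      have hkM : k < M := hk
      have i1 := ih hkM.le
      rw [Finset.sum_range_succ]
      -- the pair
      have a1 : CH q (fun w => (dg (T (k + 1)) (n w), dg (T k) (n w))) WS ≤
          CH q (fun w => dg (T (k + 1)) (n w)) WS := by
        refine CH_mono_left hq0 fun w w' _ _ e => ?_
        have e1 : dg (T (k + 1)) (n w) = dg (T (k + 1)) (n w') := (Prod.ext_iff.mp e).1
        have e2 : dg (T k) (n w) = dg (T k) (n w') := by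
          funext i
          have e3 : n w i / 2 ^ T (k + 1) = n w' i / 2 ^ T (k + 1) := congrFun e1 i
          unfold dg
          rw [dg_dg (hT k), dg_dg (hT k) (n w' i), e3]
        exact Prod.ext e1 e2
      have a2 : CH q (fun w => (dg (T (k + 1)) (n w), dg (T k) (n w))) WS =
          CH q (fun w => dg (T k) (n w)) WS +
          CH q (fun w => dg (T (k + 1)) (n w)) (fun w => (dg (T k) (n w), WS w)) :=
        CH_chain hq0 _ _ _
      -- the block
      have b0 := h0 k hkM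
      have b1 := h1 k hkM
      have b2 := h2 k hkM
      have c1 : CH q (fun w => n w 2 / 2 ^ T (k + 1))
          (fun w => (p01 (dg (T (k + 1)) (n w)), (n w 2 / 2 ^ T k, Y w))) ≤
          CH q (fun w => n w 2 / 2 ^ T (k + 1)) (fun w => (n w 1 / 2 ^ T (k + 1),
            (n w 0 / 2 ^ T (k + 1), (dg (T k) (n w), WS w)))) := by
        refine CH_mono_cond hq0 fun w w' a b e => ?_
        simp only [Prod.mk.injEq, p01, dg] at e ⊢
        obtain ⟨⟨e0, e1⟩, e2, e3⟩ := e
        refine ⟨e1, e0, ?_, hWS w w' a b e3⟩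
        funext i
        fin_cases i
        · show n w 0 / 2 ^ T k = n w' 0 / 2 ^ T k
          rw [dg_dg (hT k), dg_dg (hT k) (n w' 0), e0]
        · show n w 1 / 2 ^ T k = n w' 1 / 2 ^ T k
          rw [dg_dg (hT k), dg_dg (hT k) (n w' 1), e1]
        · exact e2
      have d1 : CH q (fun w => ((n w 2 / 2 ^ T (k + 1), n w 1 / 2 ^ T (k + 1)),
          n w 0 / 2 ^ T (k + 1))) (fun w => (dg (T k) (n w), WS w)) ≤
          CH q (fun w => dg (T (k + 1)) (n w)) (fun w => (dg (T k) (n w), WS w)) := by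
        refine CH_mono_left hq0 fun w w' _ _ e => ?_
        have e1 : dg (T (k + 1)) (n w) = dg (T (k + 1)) (n w') := (Prod.ext_iff.mp e).1
        exact Prod.ext (Prod.ext (congrFun e1 2) (congrFun e1 1)) (congrFun e1 0)
      have d2 := CH_chain hq0 (fun w => (n w 2 / 2 ^ T (k + 1), n w 1 / 2 ^ T (k + 1)))
        (fun w => n w 0 / 2 ^ T (k + 1)) (fun w => (dg (T k) (n w), WS w))
      have d3 := CH_chain hq0 (fun w => n w 2 / 2 ^ T (k + 1))
        (fun w => n w 1 / 2 ^ T (k + 1))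
        (fun w => (n w 0 / 2 ^ T (k + 1), (dg (T k) (n w), WS w)))
      linarith
  refine (key M le_rfl).trans ?_
  refine CH_mono_left hq0 fun w w' _ _ e => ?_
  have e1 := (Prod.ext_iff.mp e).1
  have e2 : n w = n w' := e1
  rw [e2]

end Pool.VF97
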