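import Pool.Agent.H97.VF.AltF
import Pool.Agent.H24.DR3.Cov

/-!
# The covector of a picture, with last entry one

`qh_covF`: a picture of degree `n` with three coordinates whose row is not full and whose first two
coordinates are full in the adapted blocks has a closed covector with last entry one which is almost
orthogonal to the vectors of `n + 2` times.
-/

set_option autoImplicit false

namespace Pool.DR24

open Finset Real Matrix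
open Pool.Agent.H49.Ent Pool.Agent.H32.Dense Pool.STK Pool.POT Pool.FAD Pool.SLO Pool.TQ
open Pool.K2S (Pe)
open Pool.BFL (Pb)
open Pool.DIR21 (Pb_Pe Pb_mono Pb_or Pb_nonneg)
open Pool.BD64 (QHd body_dcs)
open Pool.TT37 (dd)
open Pool.FS21 (okd_mi line_det okd_mono ex_pow)
open Pool.VF97

variable {k n : ℕ}

theorem _root_.Pool.VF97.FA.mono {Ω σ : Type} [Fintype Ω] {p : Ω → ℝ} {WS : Ω → σ}
    {Z : Ω → Fin 3 → ℤ} {T : ℕ → ℕ} {M : ℕ} {β β' ϖ ϖ' : ℝ} (h : FA p WS Z T M β ϖ) (hb : β' ≤ β)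
    (hw : ϖ ≤ ϖ') : FA p WS Z T M β' ϖ' := fun k hk B hB hB0 =>
  ⟨hb.trans (h k hk B (hw.trans hB) hB0).1, hb.trans (h k hk B (hw.trans hB) hB0).2⟩

/-- **Fullness of the first two coordinates** in the blocks of length `kap X`. -/
def FAh {Ω ρ β : Type} [Fintype Ω] (p : Ω → ℝ) (S : Ω → ρ) (Wd : Ω → β) (Z : Ω → Fin 3 → ℤ)
    (X : ℕ) (kap d ϖ : ℝ) : Prop :=
  ∃ T₀ : ℕ, T₀ ≤ X ∧ (X : ℝ) ≤ T₀ + d ∧
    FA p (fun ω => (Wd ω, S ω)) Z (fun k => T₀ - k * ⌊kap * X⌋₊) (T₀ / ⌊kap * X⌋₊)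
      (⌊kap * X⌋₊ * Real.log 2 - d) ϖ

theorem FAh.mono {Ω ρ β : Type} [Fintype Ω] {p : Ω → ℝ} {S : Ω → ρ} {Wd : Ω → β}
    {Z : Ω → Fin 3 → ℤ} {X : ℕ} {kap d d' ϖ ϖ' : ℝ} (h : FAh p S Wd Z X kap d ϖ) (hd : d ≤ d')
    (hw : ϖ ≤ ϖ') : FAh p S Wd Z X kap d' ϖ' := by
  obtain ⟨T₀, h1, h2, h3⟩ := h
  exact ⟨T₀, h1, by linarith, h3.mono (by linarith) hw⟩

/-- **The covector of a picture.** -/
theorem qh_covF (k n : ℕ) (hn : 1 ≤ n) {h Wt a₂ kap : ℝ} (hh : 0 < h) (hh1 : h ≤ 1)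
    (hW : 1 ≤ Wt) (hk : 0 < kap) (hka : kap < a₂) (ha : a₂ ≤ h / 32) :
    ∃ io ϖ m₀ : ℝ, 0 < io ∧ 0 < ϖ ∧ 0 < m₀ ∧ ∀ C : ℝ, 1 ≤ C → ∃ (K : ℝ) (X0 : ℕ), 1 ≤ K ∧
    ∀ (H : QHd 3 k n) (ρ β σ' : Type) (S : H.Ω → ρ) (Wd : H.Ω → β) (Z : H.Ω → Fin 3 → ℤ)
      (Bs : H.Ω → σ') (X : ℕ), X0 ≤ X → D3H H S Wd Z Bs X C (io * X) h ϖ →
      FAh H.p S Wd Z X kap (io * X) ϖ →
      ∃ (lam : (Fin 3 → ℤ) × (H.Vt × H.B) → Fin 3 → ℝ) (lamP : (Fin 3 → ℤ) × σ' → Fin 3 → ℝ)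
        (G : H.Ω → Prop), (∀ x i, |lam x i| ≤ (2 : ℝ) ^ (a₂ * X)) ∧ m₀ ≤ Pe H.p G ∧
        (∀ ω, G ω → lam (H.line ω) 2 = 1) ∧
        (∀ ω, G ω → lam (H.line ω) = lamP (Z ω, Bs ω)) ∧
        (∀ (v : Fin (n + 2) → H.Ω) u i, |dd n H.tau H.E u (fun j => H.th (v j)) i| ≤ K) ∧
        Wt * Pb (tup H.p H.line (n + 2)) (fun w => ∃ u, K * (2 : ℝ) ^ (-((h / 32 - a₂) * X)) <
          |∑ i, lam (H.line (w 0)) i * dd n H.tau H.E u (fun j => H.th (w j.succ)) i|) ≤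
            Pe H.p G := by
  classical
  have hL2 : 0 < Real.log 2 := Real.log_pos (by norm_num)
  have hL1 : Real.log 2 ≤ 1 := by
    have := Real.log_two_lt_d9
    linarith
  have hn0 : (0 : ℝ) ≤ n := Nat.cast_nonneg n
  -- the masses
  obtain ⟨F₀, hF₀⟩ : ∃ F₀ : ℝ, F₀ = Wt := ⟨_, rfl⟩
  obtain ⟨ε₁, hε₁⟩ : ∃ ε₁ : ℝ, ε₁ = 1 / (6 * F₀ * Wt) := ⟨_, rfl⟩
  obtain ⟨δ₂, hδ₂⟩ : ∃ δ₂ : ℝ, δ₂ = ε₁ / (200 * F₀) := ⟨_, rfl⟩
  obtain ⟨δ₁, hδ₁⟩ : ∃ δ₁ : ℝ, δ₁ = δ₂ ^ 2 / 4 := ⟨_, rfl⟩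
  obtain ⟨F₁, hF₁⟩ : ∃ F₁ : ℝ, F₁ = 1 / δ₁ := ⟨_, rfl⟩
  obtain ⟨ε₂, hε₂⟩ : ∃ ε₂ : ℝ, ε₂ = 1 / (6 * (F₁ * F₀) * Wt) := ⟨_, rfl⟩
  obtain ⟨δ, hδ⟩ : ∃ δ : ℝ, δ = ε₂ / 1000 := ⟨_, rfl⟩
  have hWt0 : 0 < Wt := by linarith
  have hF01 : 1 ≤ F₀ := by rw [hF₀]; exact hW
  have hF00 : 0 < F₀ := by linarith
  have hε₁0 : 0 < ε₁ := by rw [hε₁]; positivity
  have hε₁1 : ε₁ ≤ 1 := by
    rw [hε₁, div_le_one (by positivity)]
    nlinarith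
  have hδ₂0 : 0 < δ₂ := by rw [hδ₂]; positivity
  have hδ₂1 : δ₂ ≤ 1 := by
    rw [hδ₂, div_le_one (by positivity)]
    linarith
  have hδ₁0 : 0 < δ₁ := by rw [hδ₁]; positivity
  have hδ₁1 : δ₁ ≤ 1 := by
    rw [hδ₁]
    nlinarith
  have hF10 : 0 < F₁ := by rw [hF₁]; positivity
  have hF11 : 1 ≤ F₁ := by
    rw [hF₁, le_div_iff₀ hδ₁0]
    linarith
  have hFF1 : 1 ≤ F₁ * F₀ := one_le_mul_of_one_le_of_one_le hF11 hF01
  have hFF0 : 0 < F₁ * F₀ := by linarith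
  have hε₂0 : 0 < ε₂ := by rw [hε₂]; positivity
  have hε₂1 : ε₂ ≤ 1 := by
    rw [hε₂, div_le_one (by positivity)]
    nlinarith
  have hδ0 : 0 < δ := by rw [hδ]; positivity
  have hδ1 : δ ≤ 1 := by rw [hδ]; linarith
  obtain ⟨κ₁, hκ₁⟩ : ∃ κ₁ : ℝ, κ₁ = 3 / 4 * h := ⟨_, rfl⟩
  obtain ⟨ηm, ϖm, hηm0, hϖm0, hMN⟩ := massN_num (N := 2) (h := h) (κ₁ := κ₁) (δ := δ)
    (F₀ := F₁ * F₀) (by rw [hκ₁]; linarith) hh1 (by rw [hκ₁]; positivity) hδ0 hδ1 hFF1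
  obtain ⟨ηf, ϖf, hηf0, hϖf0, hFN⟩ := fib_mass (h := h) (l := h / 4) (δ := 1 / 20)
    (F₀ := F₁ * F₀) (κ := kap) hh hh1 (by positivity) le_rfl (by norm_num) (by norm_num) hFF1 hk
    (by linarith)
  obtain ⟨ϖ, hϖd⟩ : ∃ ϖ : ℝ, ϖ = min ϖm ϖf := ⟨_, rfl⟩
  have hϖ0 : 0 < ϖ := by rw [hϖd]; exact lt_min hϖm0 hϖf0
  have hϖm : ϖ ≤ ϖm := by rw [hϖd]; exact min_le_left _ _
  have hϖf : ϖ ≤ ϖf := by rw [hϖd]; exact min_le_right _ _
  obtain ⟨η, hηd⟩ : ∃ η : ℝ, η = min ηm (ηf / 4) := ⟨_, rfl⟩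
  have hη0 : 0 < η := by rw [hηd]; exact lt_min hηm0 (by positivity)
  have hηm : η ≤ ηm := by rw [hηd]; exact min_le_left _ _
  have hηf : η ≤ ηf / 4 := by rw [hηd]; exact min_le_right _ _
  obtain ⟨M, hM⟩ : ∃ M : ℝ, M = ((n + 2 : ℕ) : ℝ) + 1 := ⟨_, rfl⟩
  have hM1 : 1 ≤ M := by
    rw [hM]
    push_cast
    linarith
  obtain ⟨ib, hib⟩ : ∃ ib : ℝ, ib = η / (4 * (F₁ * F₀)) := ⟨_, rfl⟩
  have hib0 : 0 < ib := by rw [hib]; positivity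
  obtain ⟨io1, hio1, hB⟩ := body_dcs 3 k n hn ib hib0
  obtain ⟨io, hio⟩ : ∃ io : ℝ, io = min (min io1 (η / (4 * (F₁ * F₀) * (19 * M))))
    (min (η / 4) (η * ϖ / 24)) := ⟨_, rfl⟩
  have hio0 : 0 < io := by
    rw [hio]
    exact lt_min (lt_min hio1 (by positivity)) (lt_min (by positivity) (by positivity))
  have hi1 : io ≤ io1 := by rw [hio]; exact (min_le_left _ _).trans (min_le_left _ _)
  have hi2 : io ≤ η / (4 * (F₁ * F₀) * (19 * M)) := by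
    rw [hio]
    exact (min_le_left _ _).trans (min_le_right _ _)
  have hi3 : io ≤ η / 4 := by rw [hio]; exact (min_le_right _ _).trans (min_le_left _ _)
  have hi4 : io ≤ η * ϖ / 24 := by rw [hio]; exact (min_le_right _ _).trans (min_le_right _ _)
  refine ⟨io, ϖ, 1 / 6 / (F₁ * F₀), hio0, hϖ0, by positivity, fun C hC => ?_⟩
  have hC0 : 0 ≤ C := by linarith
  obtain ⟨K1, r, X1, hB⟩ := hB C hC
  obtain ⟨X2, hMN⟩ := hMN C ((3 : ℕ) + 1) hC (by positivity)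
  obtain ⟨K2, hK2⟩ : ∃ K2 : ℝ, K2 = max K1 1 := ⟨_, rfl⟩
  have hK21 : 1 ≤ K2 := by rw [hK2]; exact le_max_right _ _
  obtain ⟨X6, hFN⟩ := hFN C 12 (6 * K2) hC (by norm_num) (by linarith)
  obtain ⟨X7, hX7⟩ := ex_lin (a := ηf / 2) (b := |Cp 3 ((3 : ℕ) + 1)|) (by positivity)
  obtain ⟨X8, hX8⟩ := ex_lin (a := kap) (b := 2) hk
  obtain ⟨X9, hX9⟩ := ex_lin (a := a₂ - kap) (b := 2) (by linarith)
  have hK12 : K1 ≤ K2 := by rw [hK2]; exact le_max_left _ _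
  obtain ⟨A, hA⟩ : ∃ A : ℝ, A = |Pool.POT64.Cch 3 1 C| + |Cc 3 ((3 : ℕ) + 1)| := ⟨_, rfl⟩
  obtain ⟨Lc, hLc⟩ : ∃ Lc : ℝ, Lc = 6 * Real.log (2 * C + 1) := ⟨_, rfl⟩
  obtain ⟨X3, hX3⟩ := ex_lin (a := η / 4) (b := F₁ * F₀ * (6 * (M * Lc) + 2 * A)) (by positivity)
  obtain ⟨X4, hX4⟩ := ex_lin (a := η / 4) (b := Lc + (2 * Lc + Real.log 2) / ϖ) (by positivity)
  obtain ⟨X5, hX5⟩ := ex_pow (a := h / 32) (b := 100 * (16 + 32 * K2)) (by positivity)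
  refine ⟨3 * K2 * (6 + 14 * K2), max (max (max X1 (max X2 X3)) (max X4 (max X5 1)))
    (max (max X6 X7) (max X8 X9)), by nlinarith, fun H ρ β σ' S Wd Z Bs X hX hH hFA => ?_⟩
  obtain ⟨hX, b10⟩ := max_le_iff.1 hX
  obtain ⟨b11, b12⟩ := max_le_iff.1 b10
  obtain ⟨b13, b14⟩ := max_le_iff.1 b11
  obtain ⟨b15, b16⟩ := max_le_iff.1 b12
  replace hX7 := hX7 X b14
  replace hX8 := hX8 X b15
  replace hX9 := hX9 X b16
  obtain ⟨b1, b2⟩ := max_le_iff.1 hX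
  obtain ⟨b1, b3⟩ := max_le_iff.1 b1
  obtain ⟨b3, b4⟩ := max_le_iff.1 b3
  obtain ⟨b5, b6⟩ := max_le_iff.1 b2
  obtain ⟨b7, b8⟩ := max_le_iff.1 b6
  have hX1' : (1 : ℝ) ≤ X := by exact_mod_cast b8
  have hX0 : (0 : ℝ) < X := by linarith
  replace hX3 := hX3 X b4
  replace hX4 := hX4 X b5
  replace hX5 := hX5 X b7
  obtain ⟨A0, hA0, hA2, -, hbody⟩ := hB H X b1
    (okd_mono hH.ok (mul_le_mul_of_nonneg_right hi1 hX0.le))
  have hK : ∀ t i a, |A0 t i a| ≤ K2 := fun t i a => ((hA0 t).2.1 i a).trans hK12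
  have hd0 : 0 ≤ io * X := by positivity
  have hib0' : 0 ≤ ib * X := by positivity
  have hpc := hH.pc hC0
  have hbd := hH.body hbody
  -- the power
  obtain ⟨t, ht⟩ : ∃ t : ℝ, t = (2 : ℝ) ^ (-(h / 32 * X)) := ⟨_, rfl⟩
  have hhX : 0 < h / 32 * X := by positivity
  have t0 : 0 < t := by rw [ht]; positivity
  have t1 : t ≤ 1 := by
    rw [ht]
    exact Real.rpow_le_one_of_one_le_of_nonpos (by norm_num) (by linarith)
  have ht24 : (2 : ℝ) ^ (-(κ₁ * X)) = t ^ 24 := by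
    rw [ht, ← Real.rpow_natCast, ← Real.rpow_mul (by norm_num), hκ₁]
    congr 1
    push_cast
    ring
  have hs : (16 + 32 * K2) * t ≤ 1 / 100 := by
    have h1 : t * (2 : ℝ) ^ (h / 32 * X) = 1 := by
      rw [ht, ← Real.rpow_add (by norm_num)]
      norm_num
    have h2 := mul_le_mul_of_nonneg_left hX5 t0.le
    rw [h1] at h2
    linarith
  obtain ⟨Y, hY⟩ : ∃ Y : ℕ, Y = ⌊h / 16 * X⌋₊ := ⟨_, rfl⟩
  have hY1 : (Y : ℝ) ≤ h / 16 * X := by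
    rw [hY]
    exact Nat.floor_le (by positivity)
  have hY2 : h / 16 * X < Y + 1 := by
    rw [hY]
    exact Nat.lt_floor_add_one _
  have htt : t * t = (2 : ℝ) ^ (-(h / 16 * X)) := by
    rw [ht, ← Real.rpow_add (by norm_num)]
    congr 1
    ring
  have hY3 : 2 ^ Y * (t * t) ≤ 1 := by
    rw [htt, ← Real.rpow_natCast, ← Real.rpow_add (by norm_num)]
    exact Real.rpow_le_one_of_one_le_of_nonpos (by norm_num) (by linarith)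
  have hY4 : 1 / 2 ^ Y ≤ 2 * (t * t) := by
    rw [htt, div_le_iff₀ (by positivity)]
    have h1 : (1 : ℝ) ≤ (2 : ℝ) ^ ((Y : ℝ) + 1 - h / 16 * X) :=
      Real.one_le_rpow (by norm_num) (by linarith)
    refine h1.trans (le_of_eq ?_)
    rw [show (Y : ℝ) + 1 - h / 16 * X = 1 + (-(h / 16 * X)) + Y by ring,
      Real.rpow_add (by norm_num), Real.rpow_add (by norm_num), Real.rpow_one,
      Real.rpow_natCast]
  -- the row
  have hR : (3 - h) * X * Real.log 2 + io * X + (3 : ℕ) * Real.log (2 * C + 1) +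
      (2 * dpc C (io * X) + Real.log 2) / ϖ ≤
      ((2 : ℕ) + 1 - h) * X * Real.log 2 + η * X := by
    exact num_r3 hϖ0 hη0 hX0 hC0 hi3 hi4 hLc hX4
  have he : e3 (n + 1 + 1) C (dpc C (io * X)) F₀ F₁ (ib * X + M * (io * X)) +
      F₁ * (((2 : ℕ) + 1) * (F₀ * (M * dpc C (io * X)))) ≤ η * X :=
    (num_e3 (N := n + 1 + 1) hF01 hF11 hib0' hd0 hA hLc hC0 hM).trans
      (num_d3 hFF0 hη0 hX0 (zero_lt_one.trans_le hM1) hib hi2 hX3)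
  have hdp : 0 ≤ dpc C (io * X) := by
    unfold dpc
    have := Real.log_nonneg (show (1 : ℝ) ≤ 2 * C + 1 by linarith)
    positivity
  have hM0 : 0 ≤ M := by linarith
  have he3 : e3 (n + 1 + 1) C (dpc C (io * X)) F₀ F₁ (ib * X + M * (io * X)) ≤ η * X := by
    refine le_trans ?_ he
    have : 0 ≤ F₁ * (((2 : ℕ) + 1) * (F₀ * (M * dpc C (io * X)))) := by positivity
    linarith
  have he1 : e1 3 (n + 1 + 1) C (dpc C (io * X)) F₀ (ib * X + M * (io * X)) ≤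
      e3 (n + 1 + 1) C (dpc C (io * X)) F₀ F₁ (ib * X + M * (io * X)) := by
    unfold e3
    obtain ⟨x, hx⟩ : ∃ x, x = e1 3 (n + 1 + 1) C (dpc C (io * X)) F₀ (ib * X + M * (io * X)) :=
      ⟨_, rfl⟩
    have hx0 : 0 ≤ x := by
      rw [hx]
      unfold e1
      positivity
    rw [← hx]
    have h1 : 0 ≤ (2 : ℕ) * (F₀ * (((n + 1 + 1 : ℕ) + 1) * dpc C (io * X))) +
      |Pool.POT64.Cch 3 1 C| + |Cc 3 ((3 : ℕ) + 1)| := by positivity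
    have h2 := mul_le_mul_of_nonneg_left h1 hF10.le
    have h3 : x ≤ F₁ * x := le_mul_of_one_le_left hx0 hF11
    rw [mul_zero] at h2
    have h4 : F₁ * (x + (2 : ℕ) * (F₀ * (((n + 1 + 1 : ℕ) + 1) * dpc C (io * X))) +
      |Pool.POT64.Cch 3 1 C| + |Cc 3 ((3 : ℕ) + 1)|) = F₁ * x +
      F₁ * ((2 : ℕ) * (F₀ * (((n + 1 + 1 : ℕ) + 1) * dpc C (io * X))) +
      |Pool.POT64.Cch 3 1 C| + |Cc 3 ((3 : ℕ) + 1)|) := by ring
    rw [h4]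
    linarith
  rw [hM] at he he1 he3
  have hηX : η * X ≤ ηf / 4 * X := mul_le_mul_of_nonneg_right hηf hX0.le
  have hηX' : η * X ≤ ηm * X := mul_le_mul_of_nonneg_right hηm hX0.le
  have hioη : io * X ≤ ηf * X := by
    have h1 := mul_le_mul_of_nonneg_right hi3 hX0.le
    have h2 : 0 ≤ η * X := by positivity
    have h3 : 0 ≤ ηf * X := by positivity
    linarith
  obtain ⟨T₀, hT, hT', hfa⟩ := hFA
  have hb1 : 1 ≤ ⌊kap * X⌋₊ := (floor_half hX8).2.2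
  have hb2 : (⌊kap * X⌋₊ : ℝ) ≤ kap * X := (floor_half hX8).2.1
  obtain ⟨s, hsd⟩ : ∃ s : ℝ, s = (2 : ℝ) ^ (-(a₂ * X)) := ⟨_, rfl⟩
  have ha0 : 0 < a₂ := hk.trans hka
  have hs0 : 0 < s := by rw [hsd]; positivity
  have hs1 : s ≤ 1 := by
    rw [hsd]
    have : 0 ≤ a₂ * X := by positivity
    exact Real.rpow_le_one_of_one_le_of_nonpos (by norm_num) (by linarith)
  have hts : t ≤ s := by
    rw [ht, hsd]
    refine Real.rpow_le_rpow_of_exponent_le (by norm_num) ?_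
    have := mul_le_mul_of_nonneg_right ha hX0.le
    linarith
  have hsz : 1 / s = (2 : ℝ) ^ (a₂ * X) := by
    rw [hsd, Real.rpow_neg (by norm_num), one_div, inv_inv]
  have hsb : 4 * s * 2 ^ ⌊kap * X⌋₊ ≤ 1 := by
    rw [hsd, ← Real.rpow_natCast, show (4 : ℝ) = (2 : ℝ) ^ (2 : ℝ) by norm_num,
      ← Real.rpow_add (by norm_num), ← Real.rpow_add (by norm_num)]
    exact Real.rpow_le_one_of_one_le_of_nonpos (by norm_num) (by linarith)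
  have hl8 : (2 : ℝ) ^ (-(h / 4 * X)) ≤ t ^ 8 := by
    rw [ht, ← Real.rpow_natCast, ← Real.rpow_mul (by norm_num)]
    refine Real.rpow_le_rpow_of_exponent_le (by norm_num) ?_
    push_cast
    linarith
  have hRm : (3 - h) * X * Real.log 2 + io * X + (3 : ℕ) * Real.log (2 * C + 1) +
      (2 * dpc C (io * X) + Real.log 2) / ϖm ≤
      ((2 : ℕ) + 1 - h) * X * Real.log 2 + ηm * X := by
    have h1 : (2 * dpc C (io * X) + Real.log 2) / ϖm ≤ (2 * dpc C (io * X) + Real.log 2) / ϖ :=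
      div_le_div_of_nonneg_left (by positivity) hϖ0 hϖm
    linarith
  obtain ⟨m, hm, lam, lamP, G, g1, g3, g5, g6, g7⟩ := hpc.alt_allF (a := n + 1) (A0 := A0)
    hW hF₀ hε₁ hδ₂ hδ₁ hF₁ hε₂ hδ hMN b3 hϖm0 (fun G h1 h2 => hH.nf G (hϖm.trans h1) h2) hRm hC0
    (fun t => (hA0 t).1) (K₁ := K2) hK hK21
    (fun t => (hA0 t).2.2) hbd (he.trans hηX') t0 t1 ht24 hY3 hY4 hs hFN b13 (by norm_num) le_rfl
    hT (by linarith) (fun G h1 h2 => hH.nf G (hϖf.trans h1) h2) (by linarith)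
    (hfa.mono (by linarith) hϖf) (by
      have : 0 ≤ ηf * X := by positivity
      linarith) ((add_le_add (mul_le_mul_of_nonneg_left he3 zero_le_two) hX7).trans
      (by linarith)) hb1 hl8 hts hs1 hsb
  rw [hsz] at g1
  refine ⟨lam, lamP, G, g1, hm.trans g3, g5, g6, ?_, ?_⟩
  · intro v u i
    have h1 := ent_dd (hA0 fun j => H.th (v j)).1 (v := dd n H.tau H.E u fun j => H.th (v j))
      (K := K2) (fun b => (hA2 v u b).trans hK12) (hK _) i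
    refine h1.trans (mul_le_mul_of_nonneg_left ?_ (by positivity))
    linarith
  · refine (le_trans (mul_le_mul_of_nonneg_left ?_ hWt0.le) g7).trans g3
    refine Pb_mono (tup_isLaw hH.ok.law H.line (n + 2)).nonneg ?_
    rintro w - ⟨u, hu⟩
    by_contra hcon
    push Not at hcon
    have h1 := cov_dd (hA0 fun j => H.th (w j.succ)).1 (l := lam (H.line (w 0)))
      (v := dd n H.tau H.E u fun j => H.th (w j.succ)) (K := K2)
      (e := (6 + 14 * K2) * t / s) (fun b => (hA2 (fun j => w j.succ) u b).trans hK12)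
      (fun a => hcon a)
    have h2 : t / s = (2 : ℝ) ^ (-((h / 32 - a₂) * X)) := by
      rw [ht, hsd, ← Real.rpow_sub (by norm_num)]
      congr 1
      ring
    rw [← h2] at hu
    refine absurd hu (not_lt.2 (h1.trans (le_of_eq ?_)))
    ring

end Pool.DR24
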