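import Pool.Agent.H24.DR3.Key
import Pool.Agent.H24.DR3.Al3

/-!
# The fibre of a body over the last coordinate

`V1_incv`: the prism along a vector of a body. `fib_low`: if a full body contains a vector whose first
two coordinates are small, then the digits of the last coordinate in a block are full, given the digits
of all coordinates above the block and the digits of the first two coordinates of the block.
-/

set_option autoImplicit false

namespace Pool.VF97

open Finset Real Matrix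
open Pool.Agent.H49.Ent Pool.Agent.H32.Dense Pool.STK Pool.POT Pool.FAD Pool.SLO Pool.TQ
open Pool.K2S (Pe)
open Pool.AVG71 (CH_pair_int)
open Pool.DIR16 (ediv_same)
open Pool.DR24

/-- The prism along a vector of a body. -/
theorem V1_incv {X : ℕ} {j : Fin 3} {S : Matrix (Fin 3) (Fin 3) ℝ} {v : Fin 3 → ℝ} {m : ℝ}
    (hv : ∀ i, |(S⁻¹ *ᵥ v) i| ≤ m) (hT : Inc m (Tx 3 X) S) : Inc (3 * m) (V1 X j v) S := by
  refine inc_col fun i a => ?_
  by_cases h : a = j
  · have e1 : (S⁻¹ * V1 X j v) i a = (S⁻¹ *ᵥ v) i := by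
      rw [Matrix.mul_apply]
      simp only [Matrix.mulVec, dotProduct]
      refine Finset.sum_congr rfl fun k _ => ?_
      unfold V1
      rw [Matrix.of_apply, if_pos h]
    rw [e1]
    exact hv i
  · rw [mul_col (A := Tx 3 X) (b := a) (fun k => by
      unfold V1
      rw [Matrix.of_apply, if_neg h, Tx_ent])]
    exact inc_ent hT i a

/-- The differences in a cell of the prism, the long coordinate. -/
theorem V1_long {X : ℕ} {j : Fin 3} {v u D : Fin 3 → ℝ}
    (h : ∀ i, D i = ∑ a, V1 X j v i a * u a) : D j = v j * u j := by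
  have a2 := h j
  rw [Fin.sum_univ_three] at a2
  unfold V1 at a2
  simp only [Matrix.of_apply] at a2
  fin_cases j <;> simp at a2 ⊢ <;> linarith

/-- Integers with near values have near quotients. -/
theorem ediv_near {t : ℕ} {x y : ℤ} {c : ℝ} (h : |((x : ℝ) - y)| ≤ c * 2 ^ t) :
    |(((x / 2 ^ t : ℤ) : ℝ) - ((y / 2 ^ t : ℤ) : ℝ))| ≤ c + 1 := by
  have ht : (0 : ℝ) < 2 ^ t := by positivity
  have p : (0 : ℤ) < 2 ^ t := by positivity
  have key : ∀ z : ℤ, ((z / 2 ^ t : ℤ) : ℝ) ≤ (z : ℝ) / 2 ^ t ∧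
      (z : ℝ) / 2 ^ t ≤ ((z / 2 ^ t : ℤ) : ℝ) + 1 := by
    intro z
    have h1 := Int.mul_ediv_add_emod z (2 ^ t)
    have h3 := Int.emod_nonneg z p.ne'
    have h4 := (Int.emod_lt_of_pos z p).le
    obtain ⟨e, he⟩ : ∃ e : ℤ, e = z % 2 ^ t := ⟨_, rfl⟩
    obtain ⟨g, hg⟩ : ∃ g : ℤ, g = z / 2 ^ t := ⟨_, rfl⟩
    rw [← he] at h1 h3 h4
    rw [← hg] at h1 ⊢
    have h5 : (z : ℝ) = 2 ^ t * g + e := by
      rw [← h1]
      push_cast
      ring
    have h6 : (0 : ℝ) ≤ e := by exact_mod_cast h3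
    have h7 : (e : ℝ) ≤ 2 ^ t := by exact_mod_cast h4
    rw [le_div_iff₀ ht, div_le_iff₀ ht, h5]
    constructor <;> linarith
  obtain ⟨a1, a2⟩ := key x
  obtain ⟨b1, b2⟩ := key y
  have h4 : |(x : ℝ) / 2 ^ t - (y : ℝ) / 2 ^ t| ≤ c := by
    rw [← sub_div, abs_div, abs_of_pos ht, div_le_iff₀ ht]
    exact h
  rw [abs_le] at h4 ⊢
  constructor <;> linarith [h4.1, h4.2]

variable {Γ ζ : Type} [Fintype Γ] {q : Γ → ℝ}

/-- The digits above `t`. -/
def dg (t : ℕ) (z : Fin 3 → ℤ) (i : Fin 3) : ℤ := z i / 2 ^ t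

/-- The first two coordinates. -/
def p01 (z : Fin 3 → ℤ) : ℤ × ℤ := (z 0, z 1)

/-- **The fibre of a body.** -/
theorem fib_low (hq : IsLaw q) {X ti tj : ℕ} (htj : tj ≤ ti)
    {S : Γ → Matrix (Fin 3) (Fin 3) ℝ} {v : Γ → Fin 3 → ℝ} (n : Γ → Fin 3 → ℤ) (Y : Γ → ζ)
    (hdS : Det q Y S) (hdv : Det q Y v) (hS : ∀ w, (S w).det ≠ 0) {m : ℝ} (hm : 1 ≤ m)
    (hT : ∀ w, Inc m (Tx 3 X) (S w)) (hv : ∀ w, 0 < q w → ∀ i, |((S w)⁻¹ *ᵥ v w) i| ≤ m)
    {e : ℝ} (h1 : DF q (fun _ => Tx 3 X) S (fun w => xv X (n w)) Y ≤ e)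
    (hv2 : ∀ w, 0 < q w → (2 : ℝ) ^ ti ≤ |v w 2| * 2 ^ X)
    (hv1 : ∀ w, 0 < q w → ∀ i, i ≠ 2 → |v w i| * 2 ^ (ti - tj) ≤ |v w 2|) :
    ((ti : ℝ) - tj) * Real.log 2 - e - |Cc 3 (3 * m)| - 20 ≤
      CH q (fun w => n w 2 / 2 ^ tj) (fun w => (p01 (dg tj (n w)), (n w 2 / 2 ^ ti, Y w))) := by
  classical
  have h0 := hq.nonneg
  have hX : (0 : ℝ) < 2 ^ X := by positivity
  have hi0 : (0 : ℝ) < 2 ^ ti := by positivity
  have hm0 : 0 ≤ m := by linarith
  -- the short vector
  obtain ⟨G, hG⟩ : ∃ G : Γ → Prop, G = fun w => ((∀ i, |((S w)⁻¹ *ᵥ v w) i| ≤ m) ∧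
    (2 : ℝ) ^ ti ≤ |v w 2| * 2 ^ X) := ⟨_, rfl⟩
  obtain ⟨u, hu⟩ : ∃ u : Γ → Fin 3 → ℝ, u = fun w i => (2 ^ ti / (|v w 2| * 2 ^ X)) * v w i :=
    ⟨_, rfl⟩
  obtain ⟨V, hV⟩ : ∃ V : Γ → Matrix (Fin 3) (Fin 3) ℝ, V = fun w =>
    if G w then V1 X 2 (u w) else S w := ⟨_, rfl⟩
  have hGw : ∀ w, 0 < q w → G w := fun w hw => by
    rw [hG]
    exact ⟨hv w hw, hv2 w hw⟩
  have hdu : Det q Y u := fun w w' a b h => by
    rw [hu]
    have := hdv w w' a b h
    simp only [this]
  have hdG : Det q Y G := fun w w' a b h => by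
    rw [hG]
    have g1 := hdv w w' a b h
    have g2 := hdS w w' a b h
    simp only [g1, g2]
  have hdV : Det q Y V := fun w w' a b h => by
    rw [hV]
    have g1 := hdu w w' a b h
    have g2 := hdS w w' a b h
    have g3 := hdG w w' a b h
    simp only [g1, g2, g3]
  have hval : ∀ w, 0 < q w → V w = V1 X 2 (u w) := fun w hw => by
    rw [hV]
    simp only
    rw [if_pos (hGw w hw)]
  have hG2 : ∀ w, G w → 0 < |v w 2| := fun w hw => by
    rw [hG] at hw
    by_contra hn
    have h3 : |v w 2| = 0 := le_antisymm (not_lt.1 hn) (abs_nonneg _)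
    have := hw.2
    rw [h3, zero_mul] at this
    linarith
  have hf : ∀ w, G w → 0 ≤ 2 ^ ti / (|v w 2| * 2 ^ X) ∧ 2 ^ ti / (|v w 2| * 2 ^ X) ≤ 1 :=
    fun w hw => by
      have h3 := hG2 w hw
      rw [hG] at hw
      constructor
      · positivity
      · rw [div_le_one (by positivity)]
        exact hw.2
  have hu2 : ∀ w, G w → |u w 2| = 2 ^ ti / 2 ^ X := fun w hw => by
    have h3 := hG2 w hw
    have h4 := (hf w hw).1
    rw [hu]
    simp only
    rw [abs_mul, abs_of_nonneg h4]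
    field_simp
  have hVd : ∀ w, (V w).det ≠ 0 := fun w => by
    rw [hV]
    simp only
    split_ifs with h
    · rw [V1_det]
      have h5 : 0 < |u w 2| := by
        rw [hu2 w h]
        positivity
      have : u w 2 ≠ 0 := abs_pos.1 h5
      positivity
    · exact hS w
  have hi : ∀ w, Inc (3 * m) (V w) (S w) := fun w => by
    rw [hV]
    simp only
    split_ifs with h
    · refine V1_incv (fun i => ?_) (hT w)
      have e1 : ((S w)⁻¹ *ᵥ u w) i = 2 ^ ti / (|v w 2| * 2 ^ X) * ((S w)⁻¹ *ᵥ v w) i := by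
        have e2 : u w = (2 ^ ti / (|v w 2| * 2 ^ X)) • v w := by
          rw [hu]
          rfl
        rw [e2, Matrix.mulVec_smul]
        rfl
      obtain ⟨f0, f1⟩ := hf w h
      rw [hG] at h
      rw [e1, abs_mul, abs_of_nonneg f0]
      calc _ ≤ 1 * m := mul_le_mul f1 (h.1 i) (abs_nonneg _) zero_le_one
        _ = m := one_mul m
    · exact (inc_self (hS w)).mono (by linarith)
  have k1 := low_aux hq n Y hdV hdS hVd hS (by linarith : (0 : ℝ) ≤ 3 * m) hi h1
    (l := ti * Real.log 2 - 3 * (X * Real.log 2)) (fun w hw => by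
      rw [hval w hw]
      unfold lv
      rw [V1_det, abs_mul, hu2 w (hGw w hw),
        abs_of_pos (by positivity : (0 : ℝ) < ((2 : ℝ) ^ X)⁻¹ * ((2 : ℝ) ^ X)⁻¹),
        Real.log_mul (by positivity) (by positivity),
        Real.log_mul (by positivity) (by positivity), Real.log_inv, Real.log_pow,
        Real.log_div (by positivity) (by positivity), Real.log_pow, Real.log_pow]
      linarith)
  obtain ⟨c, hcl⟩ : ∃ c : Γ → Fin 3 → ℤ, c = fun w => cl (V w) (xv X (n w)) := ⟨_, rfl⟩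
  have e0 : CH q n (fun w => (cl (V w) (xv X (n w)), Y w)) = CH q n (fun w => (c w, Y w)) := by
    rw [hcl]
  rw [e0] at k1
  -- the differences in a cell
  have hdif : ∀ w w', 0 < q w → 0 < q w' → c w = c w' → Y w = Y w' →
      |((n w 2 : ℝ) - n w' 2)| ≤ 2 ^ ti ∧
      ∀ i, |((n w i : ℝ) - n w' i) - v w i / v w 2 * ((n w 2 : ℝ) - n w' 2)| ≤ 1 := by
    intro w w' a b e2 e3
    have e4 : V w = V w' := hdV w w' a b e3
    rw [hcl] at e2
    simp only at e2
    rw [← e4] at e2
    obtain ⟨y, hy, hd⟩ := cell_dc (hVd w) e2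
    rw [hval w a] at hd
    have hvn : v w 2 ≠ 0 := abs_pos.1 (hG2 w (hGw w a))
    have hun : u w 2 ≠ 0 := by
      refine abs_pos.1 ?_
      rw [hu2 w (hGw w a)]
      positivity
    have hrat : ∀ i, u w i / u w 2 = v w i / v w 2 := fun i => by
      rw [hu]
      simp only
      have : |v w 2| ≠ 0 := (hG2 w (hGw w a)).ne'
      field_simp
    have g2 : ∀ i, 2 ^ X * (xv X (n w) i - xv X (n w') i) = (n w i : ℝ) - n w' i := fun i => by
      unfold xv
      field_simp
    constructor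
    · have g1 := V1_long (D := fun i => xv X (n w) i - xv X (n w') i) hd
      rw [← g2 2]
      rw [g1, abs_mul, abs_mul, hu2 w (hGw w a), abs_of_pos hX]
      calc 2 ^ X * (2 ^ ti / 2 ^ X * |y 2|) ≤ 2 ^ X * (2 ^ ti / 2 ^ X * 1) := by
            gcongr
            exact hy 2
        _ = 2 ^ ti := by field_simp
    · intro i
      have g1 := V1_dif (v := u w) (D := fun i => xv X (n w) i - xv X (n w') i) hun hy hd i
      simp only [hrat] at g1
      have g3 : (n w i : ℝ) - n w' i - v w i / v w 2 * ((n w 2 : ℝ) - n w' 2) =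
          2 ^ X * (xv X (n w) i - xv X (n w') i - v w i / v w 2 *
            (xv X (n w) 2 - xv X (n w') 2)) := by
        rw [← g2 i, ← g2 2]
        ring
      rw [g3]
      exact g1
  -- the entropy of the vector
  have k2 : CH q n (fun w => (c w, Y w)) ≤ CH q (fun w => n w 2 / 2 ^ tj) (fun w => (c w, Y w)) +
      CH q n (fun w => (n w 2 / 2 ^ tj, (c w, Y w))) := CH_le_add h0 _ _ _
  have k3 : CH q n (fun w => (n w 2 / 2 ^ tj, (c w, Y w))) ≤ CH q (fun w => n w 2)
      (fun w => (n w 2 / 2 ^ tj, (c w, Y w))) +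
      CH q n (fun w => (n w 2, (n w 2 / 2 ^ tj, (c w, Y w)))) := CH_le_add h0 _ _ _
  have k4 : CH q (fun w => n w 2) (fun w => (n w 2 / 2 ^ tj, (c w, Y w))) ≤
      Real.log (2 * 2 ^ tj + 1) := by
    refine CH_pair_int hq _ _ (by positivity) fun w w' a b e => ?_
    simp only [Prod.mk.injEq] at e
    exact ediv_same e.1
  have k5 : CH q n (fun w => (n w 2, (n w 2 / 2 ^ tj, (c w, Y w)))) ≤ 3 * Real.log 3 := by
    have h2 := CH_le_vec h0 hq.sum_one n (fun w => (n w 2, (n w 2 / 2 ^ tj, (c w, Y w))))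
      (fun _ => 1) (fun w w' a b e i => by
        simp only [Prod.mk.injEq] at e
        obtain ⟨e1, -, e2, e3⟩ := e
        have g1 := (hdif w w' a b e2 e3).2 i
        rw [e1, sub_self, mul_zero, sub_zero] at g1
        push_cast
        exact g1)
    rw [Ex_const hq.sum_one] at h2
    have e5 : (2 : ℝ) * 1 + 1 = 3 := by norm_num
    rw [e5] at h2
    push_cast at h2
    exact h2
  -- the data
  have k6 : CH q (fun w => n w 2 / 2 ^ tj) (fun w => (c w, Y w)) ≤
      CH q (fun w => (p01 (dg tj (n w)), n w 2 / 2 ^ ti)) (fun w => (c w, Y w)) +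
      CH q (fun w => n w 2 / 2 ^ tj)
        (fun w => ((p01 (dg tj (n w)), n w 2 / 2 ^ ti), (c w, Y w))) := CH_le_add h0 _ _ _
  have k7 : CH q (fun w => n w 2 / 2 ^ tj)
        (fun w => ((p01 (dg tj (n w)), n w 2 / 2 ^ ti), (c w, Y w))) ≤
      CH q (fun w => n w 2 / 2 ^ tj) (fun w => (p01 (dg tj (n w)), (n w 2 / 2 ^ ti, Y w))) := by
    refine CH_mono_cond h0 fun w w' _ _ e => ?_
    simp only [Prod.mk.injEq] at e ⊢
    exact ⟨e.1.1, e.1.2, e.2.2⟩
  have k8 : CH q (fun w => (p01 (dg tj (n w)), n w 2 / 2 ^ ti)) (fun w => (c w, Y w)) ≤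
      3 * Real.log 7 := by
    have h2 := CH_le_vec h0 hq.sum_one
      (fun w (i : Fin 3) => if i = 2 then n w 2 / 2 ^ ti else n w i / 2 ^ tj)
      (fun w => (c w, Y w)) (fun _ => 3) (fun w w' a b e i => by
        simp only [Prod.mk.injEq] at e
        obtain ⟨g1, g2⟩ := hdif w w' a b e.1 e.2
        have hrow : ∀ i, i ≠ 2 → |((n w i / 2 ^ tj : ℤ) : ℝ) - ((n w' i / 2 ^ tj : ℤ) : ℝ)| ≤
            3 := fun i hi2 => by
          have htt : (2 : ℝ) ^ ti = 2 ^ (ti - tj) * 2 ^ tj := by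
            rw [← pow_add, Nat.sub_add_cancel htj]
          have g3 := hv1 w a i hi2
          have g4 : 0 < |v w 2| := hG2 w (hGw w a)
          have g5 : |v w i / v w 2| * 2 ^ (ti - tj) ≤ 1 := by
            rw [abs_div, div_mul_eq_mul_div, div_le_one g4]
            exact g3
          have g6 : |v w i / v w 2 * ((n w 2 : ℝ) - n w' 2)| ≤ 2 ^ tj := by
            rw [abs_mul]
            calc |v w i / v w 2| * |(n w 2 : ℝ) - n w' 2| ≤ |v w i / v w 2| * 2 ^ ti :=
                  mul_le_mul_of_nonneg_left g1 (abs_nonneg _)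
              _ = |v w i / v w 2| * 2 ^ (ti - tj) * 2 ^ tj := by
                  rw [htt]
                  ring
              _ ≤ 1 * 2 ^ tj := mul_le_mul_of_nonneg_right g5 (by positivity)
              _ = 2 ^ tj := one_mul _
          have g7 := g2 i
          have g8 : |(n w i : ℝ) - n w' i| ≤ 2 * 2 ^ tj := by
            have g9 : (n w i : ℝ) - n w' i = ((n w i : ℝ) - n w' i -
                v w i / v w 2 * ((n w 2 : ℝ) - n w' 2)) +
                v w i / v w 2 * ((n w 2 : ℝ) - n w' 2) := by ring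
            rw [g9]
            have g10 : (1 : ℝ) ≤ 2 ^ tj := one_le_pow₀ (by norm_num)
            refine (abs_add_le _ _).trans ?_
            linarith
          have g11 := ediv_near g8
          linarith
        by_cases hi2 : i = 2
        · simp only [if_pos hi2]
          have g3 : |((n w 2 : ℝ) - n w' 2)| ≤ 1 * 2 ^ ti := by rw [one_mul]; exact g1
          have g4 := ediv_near g3
          push_cast
          linarith
        · simp only [if_neg hi2]
          have := hrow i hi2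
          push_cast
          exact this)
    rw [Ex_const hq.sum_one] at h2
    have e5 : (2 : ℝ) * 3 + 1 = 7 := by norm_num
    rw [e5] at h2
    push_cast at h2
    refine le_trans (CH_mono_left h0 fun w w' _ _ e => ?_) h2
    have e1 := (Prod.ext_iff.mp e).1
    have a0 := congrFun e1 0
    have a1 := congrFun e1 1
    have a2 := congrFun e1 2
    simp only [Fin.reduceEq, if_false, if_true, Fin.isValue] at a0 a1 a2
    simp only [Prod.mk.injEq, p01, dg]
    exact ⟨⟨a0, a1⟩, a2⟩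
  have k9 := log_t tj
  have k10 := le_abs_self (Cc 3 (3 * m))
  have l3 : Real.log 3 ≤ 2 := by
    have := Real.log_le_sub_one_of_pos (show (0 : ℝ) < 3 by norm_num)
    linarith
  have l7 : Real.log 7 ≤ 4 := by
    have h8 : Real.log 7 ≤ Real.log (2 ^ 3) := Real.log_le_log (by norm_num) (by norm_num)
    rw [Real.log_pow] at h8
    have := Real.log_two_lt_d9
    push_cast at h8
    linarith
  linarith

end Pool.VF97
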