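import Pool.Agent.H97.VF.Chn

/-!
# The inequality for a body with a fibre

`fib_key`: a law of bounded density, a full body with a vector whose first two coordinates are small,
the fullness of the first two coordinates in the adapted blocks and the row of the three coordinates.
`fib_no`: the numbers do not allow this.
-/

set_option autoImplicit false

namespace Pool.VF97

open Finset Real Matrix
open Pool.Agent.H49.Ent Pool.Agent.H32.Dense Pool.STK Pool.POT Pool.FAD Pool.SLO Pool.TQ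
open Pool.K2S (Pe)
open Pool.DR24

variable {Ω Γ ζ σ : Type} [Fintype Ω] [Fintype Γ] {p : Ω → ℝ} {q : Γ → ℝ} {f : Γ → Ω}

/-- The row for a law of bounded density. -/
theorem row_up (hp : IsLaw p) (hq : IsLaw q) {F : ℝ} (hF : 0 < F)
    (hden : ∀ ω, mg q f ω ≤ F * p ω) (Z : Ω → Fin 3 → ℤ) (WS : Ω → σ) {X : ℕ} {C R ϖ : ℝ}
    (hC : 0 ≤ C) (hR : 0 ≤ R) (hϖ : 0 ≤ ϖ) (hZ : ∀ ω i, |(Z ω i : ℝ)| ≤ C * 2 ^ X)
    (hrow : ∀ B : Ω → Prop, ϖ ≤ Pe p B → 0 < Pe p B → CH (cond p B True) Z WS ≤ R) {K : ℕ}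
    (hK : 0 < K) :
    CH q (fun w => Z (f w)) (fun w => WS (f w)) ≤
      R + (F / K + F * ϖ) * (3 * Real.log (4 * (C * 2 ^ X) + 1)) + Real.log (K + 1) := by
  have hGn : 0 ≤ 3 * Real.log (4 * (C * 2 ^ X) + 1) := by
    have : 0 ≤ Real.log (4 * (C * 2 ^ X) + 1) := Real.log_nonneg (by
      have : (0 : ℝ) ≤ C * 2 ^ X := by positivity
      linarith)
    positivity
  have e1 := (im_mg q f).CH Z WS
  rw [e1]
  refine dens_up hp (mg_law hq f) hF hden hϖ hR hGn _ _ hrow (fun q' hq' _ => ?_) hK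
  have k1 := CH_cnt hq' Z WS (fun ω _ i => hZ ω i)
  push_cast at k1
  exact k1

/-- **The inequality.** -/
theorem fib_key (hp : IsLaw p) (hq : IsLaw q) {F : ℝ} (hF : 0 < F)
    (hden : ∀ ω, mg q f ω ≤ F * p ω) {X : ℕ} {Z : Ω → Fin 3 → ℤ} {WS : Ω → σ}
    {S : Γ → Matrix (Fin 3) (Fin 3) ℝ} {v : Γ → Fin 3 → ℝ} (Y : Γ → ζ)
    (hdS : Det q Y S) (hdv : Det q Y v) (hdW : Det q Y (fun w => WS (f w)))
    (hS : ∀ w, (S w).det ≠ 0) {m : ℝ} (hm : 1 ≤ m)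
    (hT : ∀ w, Inc m (Tx 3 X) (S w)) (hv : ∀ w, 0 < q w → ∀ i, |((S w)⁻¹ *ᵥ v w) i| ≤ m)
    {e : ℝ} (h1 : DF q (fun _ => Tx 3 X) S (fun w => xv X (Z (f w))) Y ≤ e)
    {T : ℕ → ℕ} {b M k₀ : ℕ} (hTk : ∀ k, T (k + 1) ≤ T k) (hTb : ∀ k, k < M → T k = T (k + 1) + b)
    (hv2 : ∀ w, 0 < q w → (2 : ℝ) ^ T k₀ ≤ |v w 2| * 2 ^ X)
    (hv1 : ∀ w, 0 < q w → ∀ i, i ≠ 2 → |v w i| * 2 ^ b ≤ |v w 2|)
    {β m₀ ϖ : ℝ} (hβ : 0 ≤ β) (hm₀ : 0 ≤ m₀) (hϖ₂ : ϖ ≤ m₀ * (1 / F))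
    (hFA : FA p WS Z T M β ϖ) {C R ϖ₁ : ℝ} (hC : 0 ≤ C) (hR : 0 ≤ R) (hϖ₁ : 0 ≤ ϖ₁)
    (hZ : ∀ ω i, |(Z ω i : ℝ)| ≤ C * 2 ^ X)
    (hrow : ∀ B : Ω → Prop, ϖ₁ ≤ Pe p B → 0 < Pe p B → CH (cond p B True) Z WS ≤ R) {K : ℕ}
    (hK : 0 < K) :
    M * (2 * ((1 - F * m₀) * β)) +
        ((M - k₀ : ℕ) : ℝ) * (b * Real.log 2 - e - |Cc 3 (3 * m)| - 20) ≤
      R + (F / K + F * ϖ₁) * (3 * Real.log (4 * (C * 2 ^ X) + 1)) + Real.log (K + 1) := by
  classical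
  have hq0 := hq.nonneg
  obtain ⟨g, hg⟩ : ∃ g : ℝ, g = b * Real.log 2 - e - |Cc 3 (3 * m)| - 20 := ⟨_, rfl⟩
  have hmono : ∀ a c, a ≤ c → T c ≤ T a := fun a c h => by
    induction c, h using Nat.le_induction with
    | base => exact le_rfl
    | succ k _ ih => exact (hTk k).trans ih
  have hall : ∀ k, k < M → ∀ B : Ω → Prop, (∀ ω, B ω → (fun _ : Ω => True) ω) →
      m₀ * (1 / F) ≤ Pe p B → 0 < Pe p B → _ := fun k hk B _ h2 h3 =>
    hFA k hk B (hϖ₂.trans h2) h3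
  have r0 : ∀ k, k < M → (1 - F * m₀) * β ≤ CH q (fun w => Z (f w) 0 / 2 ^ T (k + 1))
      (fun w => (dg (T k) (Z (f w)), WS (f w))) := fun k hk =>
    fi_tr (E := fun _ => True) hp hq hF hden (fun _ _ => trivial) hm₀ hβ
      (fun ω => Z ω 0 / 2 ^ T (k + 1)) (fun ω => (dg (T k) (Z ω), WS ω))
      (fun B h1 h2 h3 => (hall k hk B h1 h2 h3).1)
  have r1 : ∀ k, k < M → (1 - F * m₀) * β ≤ CH q (fun w => Z (f w) 1 / 2 ^ T (k + 1))
      (fun w => (Z (f w) 0 / 2 ^ T (k + 1), (dg (T k) (Z (f w)), WS (f w)))) := fun k hk =>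
    fi_tr (E := fun _ => True) hp hq hF hden (fun _ _ => trivial) hm₀ hβ
      (fun ω => Z ω 1 / 2 ^ T (k + 1))
      (fun ω => (Z ω 0 / 2 ^ T (k + 1), (dg (T k) (Z ω), WS ω)))
      (fun B h1 h2 h3 => (hall k hk B h1 h2 h3).2)
  have r2 : ∀ k, k < M → (if k₀ ≤ k then g else 0) ≤ CH q (fun w => Z (f w) 2 / 2 ^ T (k + 1))
      (fun w => (p01 (dg (T (k + 1)) (Z (f w))), (Z (f w) 2 / 2 ^ T k, Y w))) := fun k hk => by
    split_ifs with hk0
    · have e1 := hTb k hk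
      have e2 : T k - T (k + 1) = b := by omega
      have k1 := fib_low hq (X := X) (hTk k) (fun w => Z (f w)) Y hdS hdv hS hm hT hv h1
        (fun w hw => le_trans (pow_le_pow_right₀ (by norm_num) (hmono k₀ k hk0)) (hv2 w hw))
        (fun w hw i hi => by
          rw [e2]
          exact hv1 w hw i hi)
      have e3 : ((T k : ℝ) - T (k + 1)) = b := by
        rw [e1]
        push_cast
        ring
      rw [e3] at k1
      rw [hg]
      exact k1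
    · exact CH_nonneg hq0 _ _
  have k1 := chn_low hq (fun w => Z (f w)) (fun w => WS (f w)) Y hdW T hTk M
    (γ := fun k => if k₀ ≤ k then g else 0) r0 r1 r2
  have k2 := row_up (f := f) hp hq hF hden Z WS hC hR hϖ₁ hZ hrow hK
  have k3 : ∑ k ∈ Finset.range M, (2 * ((1 - F * m₀) * β) + if k₀ ≤ k then g else 0) =
      M * (2 * ((1 - F * m₀) * β)) + ((M - k₀ : ℕ) : ℝ) * g := by
    rw [Finset.sum_add_distrib, Finset.sum_const, Finset.card_range, nsmul_eq_mul,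
      ← Finset.sum_filter, Finset.sum_const, nsmul_eq_mul]
    congr 2
    have e1 : (Finset.range M).filter (fun k => k₀ ≤ k) = Finset.Ico k₀ M := by
      ext k
      simp only [Finset.mem_filter, Finset.mem_range, Finset.mem_Ico]
      exact and_comm
    rw [e1, Nat.card_Ico]
  rw [k3] at k1
  rw [← hg]
  exact k1.trans k2

end Pool.VF97
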