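import Pool.Agent.H97.VF.Key
import Pool.Agent.H21.FS.Pl
import Pool.Agent.H24.DR3.Out

/-!
# The mass of the bodies with a fibre

`FE`: the event that a body contains a vector whose first two coordinates are small. `fib_mass`: this
event has a small mass for a row which is not full.
-/

set_option autoImplicit false

namespace Pool.VF97

open Finset Real Matrix
open Pool.Agent.H49.Ent Pool.Agent.H32.Dense Pool.STK Pool.POT Pool.FAD Pool.SLO Pool.TQ
open Pool.K2S (Pe)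
open Pool.DR24
open Pool.FS21 (ex_pow)

/-- The vector `v` of the body `S` with small first two coordinates. -/
def FE (l κ m cv : ℝ) (X : ℕ) (S : Matrix (Fin 3) (Fin 3) ℝ) (v : Fin 3 → ℝ) : Prop :=
  (∀ i, |(S⁻¹ *ᵥ v) i| ≤ m) ∧ (2 : ℝ) ^ (-(l * X)) ≤ cv * |v 2| ∧
    ∀ i, i ≠ 2 → |v i| * 2 ^ ⌊κ * X⌋₊ ≤ |v 2|

/-- The conclusion of `fib_mass`. -/
def FNN (h l δ F₀ κ η ϖ C m cv : ℝ) (X0 : ℕ) : Prop :=
  ∀ (Ω Γ ζ σ : Type) (_ : Fintype Ω) (_ : Fintype Γ) (p : Ω → ℝ) (q : Γ → ℝ) (f : Γ → Ω)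
    (Z : Ω → Fin 3 → ℤ) (WS : Ω → σ) (S : Γ → Matrix (Fin 3) (Fin 3) ℝ) (v : Γ → Fin 3 → ℝ)
    (Y : Γ → ζ) (X T₀ : ℕ),
    X0 ≤ X → T₀ ≤ X → (X : ℝ) ≤ T₀ + η * X → IsLaw p → IsLaw q →
    (∀ ω, mg q f ω ≤ F₀ * p ω) → Det q Y S → Det q Y v →
    Det q Y (fun w => WS (f w)) → (∀ w, (S w).det ≠ 0) → (∀ w, Inc m (Tx 3 X) (S w)) →
    DF q (fun _ => Tx 3 X) S (fun w => xv X (Z (f w))) Y ≤ η * X →
    (∀ ω i, |(Z ω i : ℝ)| ≤ C * 2 ^ X) →
    (∀ G : Ω → Prop, ϖ ≤ Pe p G → 0 < Pe p G →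
      CH (cond p G True) Z WS ≤ (3 - h) * X * Real.log 2 + η * X) →
    FA p WS Z (fun k => T₀ - k * ⌊κ * X⌋₊) (T₀ / ⌊κ * X⌋₊)
      (⌊κ * X⌋₊ * Real.log 2 - η * X) ϖ →
    Pe q (fun w => FE l κ m cv X (S w) (v w)) ≤ δ

/-- The floor of a large number. -/
theorem floor_half {κ : ℝ} {X : ℕ} (h : 2 ≤ κ * X) :
    κ * X / 2 ≤ ⌊κ * X⌋₊ ∧ (⌊κ * X⌋₊ : ℝ) ≤ κ * X ∧ 0 < ⌊κ * X⌋₊ := by
  have h1 := Nat.lt_floor_add_one (κ * X)
  have h2 := Nat.floor_le (by linarith : 0 ≤ κ * X)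
  refine ⟨by linarith, h2, Nat.floor_pos.2 (by linarith)⟩

/-- The number of the blocks. -/
theorem blk {T b : ℕ} (hb : 0 < b) : T / b * b ≤ T ∧ T < T / b * b + b := by
  constructor
  · exact Nat.div_mul_le_self T b
  · have := Nat.lt_div_mul_add hb (a := T)
    exact this

/-- **The bodies with a fibre have a small mass.** -/
theorem fib_mass {h l δ F₀ κ : ℝ} (hh : 0 < h) (hh1 : h ≤ 1) (hl0 : 0 ≤ l) (hl : l ≤ h / 4)
    (hδ : 0 < δ) (hδ1 : δ ≤ 1) (hF : 1 ≤ F₀) (hκ : 0 < κ) (hκ1 : κ ≤ h / 32) :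
    ∃ η ϖ : ℝ, 0 < η ∧ 0 < ϖ ∧ ∀ C m cv : ℝ, 1 ≤ C → 1 ≤ m → 1 ≤ cv → ∃ X0 : ℕ,
      FNN h l δ F₀ κ η ϖ C m cv X0 := by
  classical
  obtain ⟨L, hL⟩ : ∃ L : ℝ, L = Real.log 2 := ⟨_, rfl⟩
  have hL0 : 0 < L := by rw [hL]; exact Real.log_pos (by norm_num)
  have hL1 : L ≤ 1 := by
    rw [hL]
    have := Real.log_two_lt_d9
    linarith
  obtain ⟨F, hFd⟩ : ∃ F : ℝ, F = F₀ / δ := ⟨_, rfl⟩
  have hF00 : 0 < F₀ := by linarith
  have hF0 : 0 < F := by rw [hFd]; positivity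
  have hF1 : 1 ≤ F := by
    rw [hFd, le_div_iff₀ hδ]
    linarith
  obtain ⟨m₀, hm₀⟩ : ∃ m₀ : ℝ, m₀ = h / (32 * F) := ⟨_, rfl⟩
  have hm₀0 : 0 < m₀ := by rw [hm₀]; positivity
  have hFm : F * m₀ = h / 32 := by
    rw [hm₀]
    field_simp
  obtain ⟨ϖ, hϖ⟩ : ∃ ϖ : ℝ, ϖ = h / (96 * F * F) := ⟨_, rfl⟩
  have hϖ0 : 0 < ϖ := by rw [hϖ]; positivity
  have hϖm : ϖ ≤ m₀ * (1 / F) := by
    rw [hϖ, hm₀, div_mul_div_comm, mul_one]
    refine div_le_div_of_nonneg_left hh.le (by positivity) ?_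
    have : 0 < F * F := by positivity
    nlinarith
  have hFϖ : F * ϖ ≤ h / 96 := by
    have e1 : F * ϖ = h / (96 * F) := by
      rw [hϖ]
      field_simp
    rw [e1]
    refine div_le_div_of_nonneg_left hh.le (by norm_num) ?_
    linarith
  obtain ⟨K, hK⟩ := exists_nat_gt (96 * F / h)
  have hKR : (0 : ℝ) < K := lt_of_le_of_lt (by positivity) hK
  have hK0 : 0 < K := by exact_mod_cast hKR
  have hFK : F / K ≤ h / 96 := by
    rw [div_lt_iff₀ hh] at hK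
    rw [div_le_div_iff₀ hKR (by norm_num)]
    nlinarith
  obtain ⟨η, hη⟩ : ∃ η : ℝ, η = h * κ * δ * L / 256 := ⟨_, rfl⟩
  have hη0 : 0 < η := by rw [hη]; positivity
  refine ⟨η, ϖ, hη0, hϖ0, fun C m cv hC hm hcv => ?_⟩
  obtain ⟨A, hA⟩ : ∃ A : ℝ, A = |Cc 3 m| / δ + |Cc 3 (3 * m)| + 20 := ⟨_, rfl⟩
  have hA0 : 0 ≤ A := by rw [hA]; positivity
  obtain ⟨c₁, hc₁⟩ : ∃ c₁ : ℝ, c₁ = Real.logb 2 cv + 1 := ⟨_, rfl⟩
  have hlb : 0 ≤ Real.logb 2 cv := Real.logb_nonneg (by norm_num) hcv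
  have hc₁0 : 0 ≤ c₁ := by rw [hc₁]; linarith
  have l9 : 0 ≤ Real.log (9 * C) := Real.log_nonneg (by linarith)
  obtain ⟨D, hD⟩ : ∃ D : ℝ, D = 2 / κ * A + c₁ + Real.log (9 * C) + Real.log (K + 1) := ⟨_, rfl⟩
  obtain ⟨X1, hX1⟩ := ex_lin (a := h * L / 16) (b := D) (by positivity)
  obtain ⟨X2, hX2⟩ := ex_lin (a := κ) (b := 2) hκ
  obtain ⟨X3, hX3⟩ := ex_lin (a := (1 / 2 : ℝ)) (b := c₁) (by norm_num)
  refine ⟨max X1 (max X2 X3), fun Ω Γ ζ σ iΩ iΓ p q f Z WS S v Y X T₀ hX hTX hT hp hq hden hdS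
    hdv hdW hS hTS h1 hZ nf fa => ?_⟩
  have l1 : X1 ≤ X := (le_max_left _ _).trans hX
  have l2 : X2 ≤ X := (le_max_left _ _).trans ((le_max_right _ _).trans hX)
  have l3 : X3 ≤ X := (le_max_right _ _).trans ((le_max_right _ _).trans hX)
  have hDX := hX1 X l1
  have hκX := hX2 X l2
  have hcX := hX3 X l3
  have hXR : (0 : ℝ) < X := by
    by_contra hn
    have : (X : ℝ) = 0 := le_antisymm (not_lt.1 hn) (Nat.cast_nonneg _)
    rw [this, mul_zero] at hκX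
    linarith
  obtain ⟨f1, f2, f3⟩ := floor_half hκX
  obtain ⟨b, hb⟩ : ∃ b : ℕ, b = ⌊κ * (X : ℝ)⌋₊ := ⟨_, rfl⟩
  rw [← hb] at f1 f2 f3 fa
  have f3' : (0 : ℝ) < b := by exact_mod_cast f3
  have hq0 := hq.nonneg
  obtain ⟨g1, g2⟩ := blk (T := T₀) f3
  obtain ⟨M, hM⟩ : ∃ M : ℕ, M = T₀ / b := ⟨_, rfl⟩
  rw [← hM] at g1 g2 fa
  -- the event
  obtain ⟨G, hGd⟩ : ∃ G : Γ → Prop, G = fun w => FE l κ m cv X (S w) (v w) := ⟨_, rfl⟩
  rw [← hGd]
  by_contra hcon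
  push Not at hcon
  have hG0 : 0 < Pe q G := hδ.trans hcon
  have hdG : Det q Y G := by
    intro w w' a b' e
    rw [hGd]
    have e1 := hdS w w' a b' e
    have e2 := hdv w w' a b' e
    simp only [e1, e2]
  obtain ⟨q', hq'd⟩ : ∃ q', q' = cond q G True := ⟨_, rfl⟩
  have hql : IsLaw q' := by rw [hq'd]; exact cond_law hq0 hG0
  have hpos : ∀ w, 0 < q' w → 0 < q w ∧ G w := fun w hw => by
    rw [hq'd] at hw
    have := (cond_pos_iff hq0 G True w).1 hw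
    exact ⟨this.1, of_eq_true this.2⟩
  have hm0 : 0 ≤ m := by linarith
  have hdf : DF q' (fun _ => Tx 3 X) S (fun w => xv X (Z (f w))) Y ≤
      (η * X + |Cc 3 m|) / δ := by
    have k1 := DF_ev hq (G := G) (T := fun _ => Tx 3 X) (V := S)
      (fun w => xv X (Z (f w))) Y hdG (fun _ _ _ _ _ => rfl) hdS (fun _ => Tx_det 3 X)
      hS hm0 hTS hG0
    rw [hq'd]
    refine k1.trans ?_
    have k3 : 0 ≤ η * X + |Cc 3 m| := by positivity
    calc (DF q (fun _ => Tx 3 X) S (fun w => xv X (Z (f w))) Y + |Cc 3 m|) / Pe q G ≤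
          (η * X + |Cc 3 m|) / Pe q G := div_le_div_of_nonneg_right (by linarith) hG0.le
      _ ≤ _ := div_le_div_of_nonneg_left k3 hδ hcon.le
  have hdn : ∀ ω, mg q' f ω ≤ F * p ω := fun ω => by
    rw [hq'd, hFd]
    exact den_ev hq0 hden hδ hcon.le ω
  -- the length
  obtain ⟨l', hl'⟩ : ∃ l' : ℕ, l' = ⌈l * X + Real.logb 2 cv⌉₊ := ⟨_, rfl⟩
  have hlX : 0 ≤ l * X := by positivity
  have u1 : l * X + Real.logb 2 cv ≤ l' := by rw [hl']; exact Nat.le_ceil _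
  have u2 : (l' : ℝ) ≤ l * X + c₁ := by
    rw [hl', hc₁]
    have := (Nat.ceil_lt_add_one (by positivity : 0 ≤ l * X + Real.logb 2 cv)).le
    linarith
  have hlq : l ≤ 1 / 4 := by linarith
  have u3 : l' ≤ X := by
    have : (l' : ℝ) ≤ X := by
      have := mul_le_mul_of_nonneg_right hlq hXR.le
      linarith
    exact_mod_cast this
  obtain ⟨k₀, hk₀⟩ : ∃ k₀ : ℕ, k₀ = l' / b + 1 := ⟨_, rfl⟩
  obtain ⟨v1, v2⟩ := blk (T := l') f3
  have w1 : l' ≤ k₀ * b := by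
    rw [hk₀, add_mul, one_mul]
    exact v2.le
  have w2 : k₀ * b ≤ l' + b := by
    rw [hk₀, add_mul, one_mul]
    omega
  have hv2 : ∀ w, 0 < q' w → (2 : ℝ) ^ (T₀ - k₀ * b) ≤ |v w 2| * 2 ^ X := fun w hw => by
    have k1 := (hpos w hw).2
    rw [hGd] at k1
    obtain ⟨-, k2, -⟩ := k1
    have hcv0 : 0 < cv := by linarith
    have k3 : (2 : ℝ) ^ (-(l' : ℝ)) ≤ |v w 2| := by
      have k4 : (2 : ℝ) ^ (-(l' : ℝ)) ≤ (2 : ℝ) ^ (-(l * X)) / cv := by
        rw [le_div_iff₀ hcv0]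
        have e1 : cv = (2 : ℝ) ^ (Real.logb 2 cv) :=
          (Real.rpow_logb (by norm_num) (by norm_num) hcv0).symm
        calc (2 : ℝ) ^ (-(l' : ℝ)) * cv = (2 : ℝ) ^ (-(l' : ℝ)) * (2 : ℝ) ^ (Real.logb 2 cv) := by
              rw [← e1]
          _ = (2 : ℝ) ^ (-(l' : ℝ) + Real.logb 2 cv) := (Real.rpow_add (by norm_num) _ _).symm
          _ ≤ _ := Real.rpow_le_rpow_of_exponent_le (by norm_num) (by linarith)
      refine k4.trans ?_
      rw [div_le_iff₀ hcv0]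
      linarith
    calc (2 : ℝ) ^ (T₀ - k₀ * b) ≤ (2 : ℝ) ^ (X - l') :=
          pow_le_pow_right₀ (by norm_num) (by omega)
      _ = (2 : ℝ) ^ (-(l' : ℝ)) * 2 ^ X := by
          rw [← Real.rpow_natCast, ← Real.rpow_natCast, ← Real.rpow_add (by norm_num),
            Nat.cast_sub u3]
          congr 1
          ring
      _ ≤ _ := mul_le_mul_of_nonneg_right k3 (by positivity)
  have hv1 : ∀ w, 0 < q' w → ∀ i, i ≠ 2 → |v w i| * 2 ^ b ≤ |v w 2| := fun w hw i hi => by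
    have k1 := (hpos w hw).2
    rw [hGd] at k1
    rw [hb]
    exact k1.2.2 i hi
  have hR0 : 0 ≤ (3 - h) * X * Real.log 2 + η * X := by
    have : 0 ≤ 3 - h := by linarith
    have : 0 ≤ Real.log 2 := by rw [← hL]; exact hL0.le
    positivity
  have hβ : 0 ≤ (b : ℝ) * Real.log 2 - η * X := by
    rw [← hL]
    have k1 : η ≤ κ / 2 * L := by
      rw [hη]
      have : h * κ * δ * L / 256 = (h * δ / 128) * (κ / 2 * L) := by ring
      rw [this]
      have k2 : h * δ / 128 ≤ 1 := by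
        have : h * δ ≤ 1 * 1 := mul_le_mul hh1 hδ1 hδ.le zero_le_one
        linarith
      exact mul_le_of_le_one_left (by positivity) k2
    have k3 := mul_le_mul_of_nonneg_right f1 hL0.le
    have k4 := mul_le_mul_of_nonneg_right k1 hXR.le
    linarith
  have hTb : ∀ k, k < M → T₀ - k * b = T₀ - (k + 1) * b + b := fun k hk => by
    have h5 : (k + 1) * b ≤ M * b := Nat.mul_le_mul_right b hk
    have h6 : (k + 1) * b = k * b + b := by ring
    omega
  have key := fib_key (f := f) hp hql hF0 hdn (X := X) (Z := Z) (WS := WS) (S := S) (v := v) Y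
    (fun w w' a a' => hdS w w' (hpos w a).1 (hpos w' a').1)
    (fun w w' a a' => hdv w w' (hpos w a).1 (hpos w' a').1)
    (fun w w' a a' => hdW w w' (hpos w a).1 (hpos w' a').1) hS hm hTS
    (fun w hw => by
      have k1 := (hpos w hw).2
      rw [hGd] at k1
      exact k1.1) hdf (T := fun k => T₀ - k * b) (b := b) (M := M) (k₀ := k₀)
    (fun k => by
      have h6 : (k + 1) * b = k * b + b := by ring
      show T₀ - (k + 1) * b ≤ T₀ - k * b
      omega) hTb hv2 hv1 hβ hm₀0.le hϖm fa (by linarith : 0 ≤ C) hR0 hϖ0.le hZ nf hK0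
  -- the numbers
  rw [← hL, hFm] at key
  obtain ⟨Q, hQ⟩ : ∃ Q : ℝ, Q = b * L := ⟨_, rfl⟩
  have hQ0 : 0 ≤ Q := by rw [hQ]; positivity
  have g1' : (M : ℝ) * b ≤ T₀ := by exact_mod_cast g1
  have g2' : (T₀ : ℝ) ≤ M * b + b := by exact_mod_cast g2.le
  have hTX' : (T₀ : ℝ) ≤ X := by exact_mod_cast hTX
  have hM0 : (0 : ℝ) ≤ M := Nat.cast_nonneg M
  have w2' : (k₀ : ℝ) * b ≤ l' + b := by exact_mod_cast w2
  have hMκ : (M : ℝ) ≤ 2 / κ := by
    rw [le_div_iff₀ hκ]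
    have k1 : (M : ℝ) * (κ * X / 2) ≤ X := by
      refine le_trans (mul_le_mul_of_nonneg_left f1 hM0) ?_
      exact g1'.trans hTX'
    have k2 : M * κ * X ≤ 2 * X := by
      have : (M : ℝ) * (κ * X / 2) = M * κ * X / 2 := by ring
      linarith
    exact le_of_mul_le_mul_right k2 hXR
  -- the terms
  have s1 : (M : ℝ) * (2 * ((1 - h / 32) * (b * L - η * X))) ≥
      2 * (M * Q) - 2 * (M * (η * X)) - h / 16 * (X * L) := by
    have k1 : (M : ℝ) * Q ≤ X * L := by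
      have : (M : ℝ) * Q = M * b * L := by rw [hQ]; ring
      rw [this]
      exact mul_le_mul_of_nonneg_right (g1'.trans hTX') hL0.le
    have k2 : 0 ≤ (M : ℝ) * (η * X) := by positivity
    have k3 : h / 16 * (M * Q) ≤ h / 16 * (X * L) := mul_le_mul_of_nonneg_left k1 (by positivity)
    have k4 : 0 ≤ h / 16 * (M * (η * X)) := by positivity
    rw [← hQ]
    have k5 : (M : ℝ) * (2 * ((1 - h / 32) * (Q - η * X))) = 2 * (M * Q) - 2 * (M * (η * X)) -
        h / 16 * (M * Q) + h / 16 * (M * (η * X)) := by ring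
    rw [k5]
    linarith
  obtain ⟨e', he'⟩ : ∃ e' : ℝ, e' = (η * X + |Cc 3 m|) / δ := ⟨_, rfl⟩
  have he'1 : e' = η * X / δ + |Cc 3 m| / δ := by rw [he', add_div]
  have he'0 : 0 ≤ e' := by rw [he']; positivity
  have s2 : ((M - k₀ : ℕ) : ℝ) * (b * L - e' - |Cc 3 (3 * m)| - 20) ≥
      M * Q - k₀ * Q - M * (η * X / δ + A) := by
    have k1 : (M : ℝ) - k₀ ≤ ((M - k₀ : ℕ) : ℝ) := by
      rcases le_total k₀ M with h5 | h5
      · rw [Nat.cast_sub h5]
      · rw [Nat.sub_eq_zero_of_le h5]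
        have : (M : ℝ) ≤ k₀ := by exact_mod_cast h5
        push_cast
        linarith
    have k2 : ((M - k₀ : ℕ) : ℝ) ≤ M := by exact_mod_cast Nat.sub_le _ _
    have k3 := mul_le_mul_of_nonneg_right k1 hQ0
    have k4 : 0 ≤ η * X / δ + A := by positivity
    have k5 := mul_le_mul_of_nonneg_right k2 k4
    rw [← hQ]
    have k6 : ((M - k₀ : ℕ) : ℝ) * (Q - e' - |Cc 3 (3 * m)| - 20) =
        ((M - k₀ : ℕ) : ℝ) * Q - ((M - k₀ : ℕ) : ℝ) * (η * X / δ + A) := by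
      rw [he'1, hA]
      ring
    rw [k6]
    linarith
  have s3 : (M : ℝ) * (η * X / δ + A) ≤ 2 / κ * (η * X / δ) + 2 / κ * A := by
    have k4 : 0 ≤ η * X / δ + A := by positivity
    have := mul_le_mul_of_nonneg_right hMκ k4
    linarith
  have s4 : (M : ℝ) * (η * X) ≤ 2 / κ * (η * X) := mul_le_mul_of_nonneg_right hMκ (by positivity)
  have s5 : 2 / κ * (η * X / δ) = h * L / 128 * X := by
    rw [hη]
    field_simp
    ring
  have s6 : 2 / κ * (η * X) ≤ h * L / 128 * X := by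
    have e1 : 2 / κ * (η * X) = δ * (h * L / 128 * X) := by
      rw [hη]
      field_simp
      ring
    rw [e1]
    exact mul_le_of_le_one_left (by positivity) hδ1
  have s7 : η * X ≤ h * L / 256 * X := by
    refine mul_le_mul_of_nonneg_right ?_ hXR.le
    rw [hη]
    have e1 : h * κ * δ * L / 256 = κ * δ * (h * L / 256) := by ring
    rw [e1]
    refine mul_le_of_le_one_left (by positivity) ?_
    have : κ ≤ 1 := by linarith
    exact mul_le_one₀ this hδ.le hδ1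
  have s8 : 3 * (M * Q) ≥ 3 * (X * L) - 3 * (h * L / 256 * X) - 3 * Q := by
    have k1 : (X : ℝ) ≤ M * b + b + h * L / 256 * X := by linarith
    have k2 := mul_le_mul_of_nonneg_right k1 hL0.le
    have k3 : (M * b + b + h * L / 256 * X) * L = M * Q + Q + h * L / 256 * X * L := by
      rw [hQ]
      ring
    have k4 : h * L / 256 * X * L ≤ h * L / 256 * X := mul_le_of_le_one_right (by positivity) hL1
    linarith
  have s9 : (k₀ : ℝ) * Q ≤ h / 4 * (X * L) + c₁ + Q := by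
    have k1 : (k₀ : ℝ) * Q = k₀ * b * L := by rw [hQ]; ring
    rw [k1]
    have k2 := mul_le_mul_of_nonneg_right w2' hL0.le
    have k3 : ((l' : ℝ) + b) * L = l' * L + Q := by rw [hQ]; ring
    have k4 := mul_le_mul_of_nonneg_right u2 hL0.le
    have k5 : (l * X + c₁) * L = l * (X * L) + c₁ * L := by ring
    have k6 : l * (X * L) ≤ h / 4 * (X * L) := mul_le_mul_of_nonneg_right hl (by positivity)
    have k7 : c₁ * L ≤ c₁ := mul_le_of_le_one_right hc₁0 hL1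
    linarith
  have s10 : Q ≤ h / 32 * (X * L) := by
    rw [hQ]
    have k1 : (b : ℝ) ≤ h / 32 * X := f2.trans (mul_le_mul_of_nonneg_right hκ1 hXR.le)
    have := mul_le_mul_of_nonneg_right k1 hL0.le
    linarith
  have s11 : (F / K + F * ϖ) * (3 * Real.log (4 * (C * 2 ^ X) + 1)) ≤
      h / 16 * (X * L) + Real.log (9 * C) := by
    have h1 : (1 : ℝ) ≤ 2 ^ X := one_le_pow₀ (by norm_num)
    have h2 := log_pow_le (A := 9 * C) (by linarith) X (y := 4 * (C * 2 ^ X) + 1)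
      (by positivity) (by nlinarith)
    rw [← hL] at h2
    have h3 : 0 ≤ F / K + F * ϖ := by positivity
    have h4 : F / K + F * ϖ ≤ h / 48 := by linarith
    have h5 : 0 ≤ X * L + Real.log (9 * C) := by positivity
    calc _ ≤ (F / K + F * ϖ) * (3 * (X * L + Real.log (9 * C))) :=
          mul_le_mul_of_nonneg_left (by linarith) h3
      _ ≤ h / 48 * (3 * (X * L + Real.log (9 * C))) :=
          mul_le_mul_of_nonneg_right h4 (by linarith)
      _ = h / 16 * (X * L) + h / 16 * Real.log (9 * C) := by ring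
      _ ≤ _ := by
          have : h / 16 * Real.log (9 * C) ≤ 1 * Real.log (9 * C) :=
            mul_le_mul_of_nonneg_right (by linarith) l9
          linarith
  rw [← he'] at key
  rw [hD] at hDX
  have e20 : (3 - h) * X * L = 3 * (X * L) - h * (X * L) := by ring
  rw [e20] at key
  have e21 : h * L / 16 * X = h / 16 * (X * L) := by ring
  have e22 : h * L / 128 * X = h / 128 * (X * L) := by ring
  have e23 : h * L / 256 * X = h / 256 * (X * L) := by ring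
  rw [e21] at hDX
  rw [e22] at s5 s6
  rw [e23] at s7 s8
  have hXL : 0 < h * (X * L) := by positivity
  have t1 : h / 16 * (X * L) = h * (X * L) / 16 := by ring
  have t2 : h / 128 * (X * L) = h * (X * L) / 128 := by ring
  have t3 : h / 256 * (X * L) = h * (X * L) / 256 := by ring
  have t4 : h / 4 * (X * L) = h * (X * L) / 4 := by ring
  have t5 : h / 32 * (X * L) = h * (X * L) / 32 := by ring
  rw [t1] at s1 s11 hDX
  rw [t2] at s5 s6
  rw [t3] at s7 s8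
  rw [t4] at s9
  rw [t5] at s10
  linarith

end Pool.VF97
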