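import Pool.Agent.H97.VF.LamF
import Pool.Agent.H24.DR3.Vd3

/-!
# The picture of three places, the last one is the pivot

`FB`: the fullness of the first two coordinates on a grid. `vd_3F`: on an event of constant mass the
product of a closed covector with last entry one and the gradients is a polynomial of the time.
-/

set_option autoImplicit false

namespace Pool.DR24

open Finset Real
open Pool.Agent.H49.Ent Pool.Agent.H32.Dense Pool.STK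
open Pool.AVG71 (MI_eq MI_eq')
open Pool.KVA (MI)
open Pool.BD64 (QHd pol)
open Pool.K2S (Pe)
open Pool.BFL (Pb)
open Pool.LV64
open Pool.VF97

/-- **Fullness of the first two coordinates** on the grid of the blocks of length `b`. -/
def FB {Ω σ : Type} [Fintype Ω] (p : Ω → ℝ) (WS : Ω → σ) (M : Ω → Fin 3 → ℤ) (X b : ℕ)
    (β ϖ : ℝ) : Prop :=
  ∀ k : ℕ, (k + 1) * b ≤ X → ∀ B : Ω → Prop, ϖ ≤ Pe p B → 0 < Pe p B →
    β ≤ CH (cond p B True) (fun ω => M ω 0 / 2 ^ (X - (k + 1) * b))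
      (fun ω => (dg (X - k * b) (M ω), WS ω)) ∧
    β ≤ CH (cond p B True) (fun ω => M ω 1 / 2 ^ (X - (k + 1) * b))
      (fun ω => (M ω 0 / 2 ^ (X - (k + 1) * b), (dg (X - k * b) (M ω), WS ω)))

theorem mdv (a : ℤ) {t X : ℕ} (h : t ≤ X) :
    a / 2 ^ t = a / 2 ^ X * 2 ^ (X - t) + a % 2 ^ X / 2 ^ t := by
  have p2 : (2 : ℤ) ^ t ≠ 0 := by positivity
  have e0 : (2 : ℤ) ^ X = 2 ^ t * 2 ^ (X - t) := by rw [← pow_add, Nat.add_sub_cancel' h]
  have e1 : a = a % 2 ^ X + 2 ^ t * (a / 2 ^ X * 2 ^ (X - t)) := by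
    have := Int.emod_add_mul_ediv a (2 ^ X)
    calc a = a % 2 ^ X + 2 ^ X * (a / 2 ^ X) := this.symm
      _ = a % 2 ^ X + 2 ^ t * 2 ^ (X - t) * (a / 2 ^ X) := by rw [← e0]
      _ = _ := by ring
  calc a / 2 ^ t = (a % 2 ^ X + 2 ^ t * (a / 2 ^ X * 2 ^ (X - t))) / 2 ^ t := by rw [← e1]
    _ = a % 2 ^ X / 2 ^ t + a / 2 ^ X * 2 ^ (X - t) := Int.add_mul_ediv_left _ _ p2
    _ = _ := by ring

theorem fa_fb {Ω σ : Type} [Fintype Ω] {p : Ω → ℝ} (hp : ∀ ω, 0 ≤ p ω) {WS : Ω → σ}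
    {M Z : Ω → Fin 3 → ℤ} {X mm b : ℕ} {β ϖ : ℝ} (hm : mm ≤ X)
    (hZ : ∀ ω, 0 < p ω → ∀ i, Z ω i = M ω i % 2 ^ X / 2 ^ mm)
    (hW : Det p WS (fun ω i => M ω i / 2 ^ X)) (h : FB p WS M X b β ϖ) :
    FA p WS Z (fun k => X - mm - k * b) ((X - mm) / b) β ϖ := by
  intro k hk B hB hB0
  have hkb : (k + 1) * b ≤ X - mm := by
    have h1 := Nat.div_mul_le_self (X - mm) b
    have h2 : (k + 1) * b ≤ (X - mm) / b * b := Nat.mul_le_mul_right b hk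
    exact h2.trans h1
  have hkb' : k * b ≤ X - mm := (Nat.mul_le_mul_right b (Nat.le_succ k)).trans hkb
  have q0 : ∀ ω, 0 ≤ cond p B True ω := cond_nonneg hp B True
  have qp : ∀ ω, 0 < cond p B True ω → 0 < p ω := fun ω hω =>
    ((cond_pos_iff hp B True ω).mp hω).1
  have hZs : ∀ j, j * b ≤ X - mm → ∀ ω, 0 < p ω → ∀ i,
      Z ω i / 2 ^ (X - mm - j * b) = M ω i % 2 ^ X / 2 ^ (X - j * b) := fun j hj ω hω i => by
    have e1 : X - j * b = mm + (X - mm - j * b) := by omega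
    rw [hZ ω hω i, e1, Int.ediv_ediv_of_nonneg (by positivity), ← pow_add]
  obtain ⟨h1, h2⟩ := h k (hkb.trans (Nat.sub_le _ _)) B hB hB0
  -- from the digits of `M` to the digits of `Z`
  have key : ∀ j, j * b ≤ X - mm → ∀ ω ω', 0 < p ω → 0 < p ω' → WS ω = WS ω' → ∀ i,
      (M ω i / 2 ^ (X - j * b) = M ω' i / 2 ^ (X - j * b) ↔
        Z ω i / 2 ^ (X - mm - j * b) = Z ω' i / 2 ^ (X - mm - j * b)) := by
    intro j hj ω ω' a a' e i
    have e1 := congrFun (hW ω ω' a a' e) i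
    simp only at e1
    rw [hZs j hj ω a, hZs j hj ω' a', mdv (M ω i) (Nat.sub_le X (j * b)),
      mdv (M ω' i) (Nat.sub_le X (j * b)), e1]
    constructor
    · intro e2
      exact add_left_cancel e2
    · intro e2
      rw [e2]
  constructor
  · refine h1.trans ((CH_mono_left q0 (X' := fun ω => Z ω 0 / 2 ^ (X - mm - (k + 1) * b))
      fun ω ω' a a' e => ?_).trans (CH_mono_cond q0 fun ω ω' a a' e => ?_))
    · obtain ⟨e1, e2⟩ := Prod.ext_iff.mp e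
      exact (key (k + 1) hkb ω ω' (qp ω a) (qp ω' a') (Prod.ext_iff.mp e2).2 0).2 e1
    · obtain ⟨e1, e2⟩ := Prod.ext_iff.mp e
      exact Prod.ext (funext fun i =>
        (key k hkb' ω ω' (qp ω a) (qp ω' a') e2 i).1 (congrFun e1 i)) e2
  · refine h2.trans ((CH_mono_left q0 (X' := fun ω => Z ω 1 / 2 ^ (X - mm - (k + 1) * b))
      fun ω ω' a a' e => ?_).trans (CH_mono_cond q0 fun ω ω' a a' e => ?_))
    · obtain ⟨e1, e2⟩ := Prod.ext_iff.mp e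
      obtain ⟨e3, e4⟩ := Prod.ext_iff.mp e2
      exact (key (k + 1) hkb ω ω' (qp ω a) (qp ω' a') (Prod.ext_iff.mp e4).2 1).2 e1
    · obtain ⟨e1, e2⟩ := Prod.ext_iff.mp e
      obtain ⟨e3, e4⟩ := Prod.ext_iff.mp e2
      exact Prod.ext ((key (k + 1) hkb ω ω' (qp ω a) (qp ω' a') e4 0).1 e1)
        (Prod.ext (funext fun i =>
        (key k hkb' ω ω' (qp ω a) (qp ω' a') e4 i).1 (congrFun e3 i)) e4)

/-- **The gradients of three places**, the last one is the pivot. -/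
theorem vd_3F (k K : ℕ) (hK : 1 ≤ K) {h a₂ kap σ CB : ℝ} (hh : 0 < h) (hh1 : h ≤ 1)
    (hk : 0 < kap) (hka : kap < a₂) (h2 : a₂ ≤ h / 32) (hσ : 0 < σ) (hCB : 0 ≤ CB) :
    ∃ ι π₀ m₀ : ℝ, 0 < ι ∧ 0 < π₀ ∧ 0 < m₀ ∧ ∃ X₀ : ℕ,
      ∀ {Ω β : Type} [Fintype Ω] (p : Ω → ℝ) (d : VD Ω β 3 k) {ρ₁ ρ₂ ν₁ ν₂ σ₁ σ₂ υ σ' : Type}
        (Rj : Ω → ρ₁) (Rx : Ω → ρ₂) (nj : Ω → ν₁) (nx : Ω → ν₂) (bj : Ω → σ₁) (bx : Ω → σ₂)
        (V : Ω → υ) (M : Ω → Fin 3 → ℤ) (Bs : Ω → σ') (F e B U : ℝ), X₀ ≤ d.X →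
        d.Hyp K p Rj Rx nj nx bj bx V M F e B →
        d.X * Real.log 2 - e ≤ CH p (fun ω => ⌊(2 : ℝ) ^ d.X * d.th ω⌋) (d.L K) →
        Det p (fun ω => (Wn d.X V M ω, (d.T ω, d.g K ω))) Bs →
        MI p M (fun ω => (V ω, (d.T ω, d.g K ω))) Bs ≤ e →
        (∀ G : Ω → Prop, π₀ ≤ Pe p G → CH (cond p G True) M
          (fun ω => (Wn d.X V M ω, (d.th ω, d.z ω))) ≤ U) →
        FB p (fun ω => (Wn d.X V M ω, (d.th ω, d.z ω))) M d.X ⌊kap * d.X⌋₊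
          (⌊kap * d.X⌋₊ * Real.log 2 - ι * d.X) π₀ →
        F ≤ k * d.X * Real.log 2 + ι * d.X →
        e ≤ ι * d.X → (d.m : ℝ) ≤ ι * d.X → B ≤ CB * 2 ^ d.m →
        U ≤ (3 - h) * d.X * Real.log 2 + ι * d.X →
        ∃ (lam : LamV β 3 k K → Fin 3 → ℝ) (lamP : (Fin 3 → ℤ) × σ' → Fin 3 → ℝ)
          (mu : LamV β 3 k K → Fin k → Polynomial ℝ) (G : Ω → Prop), m₀ ≤ Pe p G ∧
          (∀ ω, 0 < p ω → G ω → lam (d.L K ω) 2 = 1) ∧
          (∀ x l, |lam x l| ≤ (2 : ℝ) ^ (a₂ * d.X)) ∧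
          (∀ l j, (mu l j).natDegree ≤ K) ∧
          (∀ ω, 0 < p ω → G ω → lam (d.L K ω) = lamP (M ω, Bs ω)) ∧
          ∀ ω, 0 < p ω → G ω → ∀ j, |∑ l, lam (d.L K ω) l * d.bb ω l j -
            (mu (d.L K ω) j).eval (d.th ω)| ≤ (2 : ℝ) ^ ((σ - (h / 32 - a₂)) * d.X) := by
  classical
  have hl2 : 0 < Real.log 2 := Real.log_pos (by norm_num)
  have hl2' : Real.log 2 ≤ 1 := by
    have := Real.log_two_lt_d9
    linarith
  have hl11 : 0 < Real.log 11 := Real.log_pos (by norm_num)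
  have hk0 : (0 : ℝ) ≤ k := Nat.cast_nonneg k
  have hK0 : (0 : ℝ) ≤ K := Nat.cast_nonneg K
  obtain ⟨s, hs⟩ : ∃ s : ℝ, s = σ / 4 := ⟨_, rfl⟩
  have hs0 : 0 < s := by rw [hs]; linarith
  obtain ⟨io, ϖ, m₀, hio, hϖ, hm₀, hqd⟩ := qh_lamF k K hK hh hh1 hk hka h2 hs0
  obtain ⟨C, hC⟩ : ∃ C : ℝ, C = CB + VD.Cv k K + 2 * (((K : ℝ) + 1) * (k + 1)) + 5 := ⟨_, rfl⟩
  have hKk : (0 : ℝ) ≤ 2 * (((K : ℝ) + 1) * (k + 1)) := by positivity
  have hCv : 1 ≤ VD.Cv k K := by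
    unfold VD.Cv
    have h1 : (0 : ℝ) ≤ (K : ℝ) * K := by positivity
    linarith
  obtain ⟨X1, hX1⟩ := hqd C (by rw [hC]; linarith)
  obtain ⟨Lc, hLc⟩ : ∃ Lc : ℝ, Lc = 3 * Real.log (2 * (2 * ((K : ℝ) + 1 + k) +
    (CB + 2 * (((K : ℝ) + 1) * (k + 1))) + 1) + 1) + 3 * Real.log 11 := ⟨_, rfl⟩
  obtain ⟨ι, hι⟩ : ∃ ι : ℝ, ι = min (min (io / (2 * (k + 20))) 1) s := ⟨_, rfl⟩
  have hι0 : 0 < ι := by rw [hι]; exact lt_min (lt_min (by positivity) one_pos) hs0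
  have hι1' : ι ≤ 1 := by rw [hι]; exact (min_le_left _ _).trans (min_le_right _ _)
  have hι1 : ι * (2 * (k + 20)) ≤ io := by
    have : ι ≤ io / (2 * (k + 20)) := by
      rw [hι]
      exact (min_le_left _ _).trans (min_le_left _ _)
    rwa [le_div_iff₀ (by positivity)] at this
  have hι2 : ι ≤ s := by rw [hι]; exact min_le_right _ _
  obtain ⟨X2, hX2⟩ := exists_nat_ge (2 * Lc / io)
  obtain ⟨X3, hX3⟩ := exists_nat_ge ((Real.log (2 * ((K + 1) * K) + 2) / Real.log 2) / s)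
  refine ⟨ι, ϖ, m₀, hι0, hϖ, hm₀, max X1 (max X2 X3), ?_⟩
  intro Ω β _ p d ρ₁ ρ₂ ν₁ ν₂ σ₁ σ₂ υ σ' Rj Rx nj nx bj bx V M Bs F e B U hXd H ht hBs hfew hrow
    hFB hF he hm hB hU
  have hp := H.law
  have h0 := hp.nonneg
  obtain ⟨ω₀, hω₀⟩ : ∃ ω₀, 0 < p ω₀ := by
    by_contra hcon
    push Not at hcon
    have : ∑ ω, p ω ≤ 0 := Finset.sum_nonpos fun ω _ => hcon ω
    rw [hp.sum_one] at this
    linarith
  have hXa : X1 ≤ d.X := (le_max_left _ _).trans hXd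
  have hXb : X2 ≤ d.X := (le_max_left _ _).trans ((le_max_right _ _).trans hXd)
  have hXc : X3 ≤ d.X := (le_max_right _ _).trans ((le_max_right _ _).trans hXd)
  have hXR : (0 : ℝ) ≤ d.X := Nat.cast_nonneg _
  have n2 : 2 * Lc ≤ io * d.X := by
    have h1 : 2 * Lc / io ≤ d.X := hX2.trans (by exact_mod_cast hXb)
    rw [div_le_iff₀ hio] at h1
    linarith
  have n3 : Real.log (2 * ((K + 1) * K) + 2) / Real.log 2 ≤ s * d.X := by
    have h1 : (Real.log (2 * ((K + 1) * K) + 2) / Real.log 2) / s ≤ d.X :=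
      hX3.trans (by exact_mod_cast hXc)
    rw [div_le_iff₀ hs0] at h1
    linarith
  have hιX : 0 ≤ ι * d.X := by positivity
  have hιio : ι * d.X * (2 * (k + 20)) ≤ io * d.X := by
    have := mul_le_mul_of_nonneg_right hι1 hXR
    linarith
  have hkm : k * (d.m : ℝ) * Real.log 2 ≤ k * (ι * d.X) := by
    have h2 : k * (d.m : ℝ) ≤ k * (ι * d.X) := mul_le_mul_of_nonneg_left hm hk0
    have h3 : 0 ≤ k * (d.m : ℝ) := by positivity
    exact (mul_le_of_le_one_right h3 hl2').trans h2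
  have hmm : (d.m : ℝ) * Real.log 2 ≤ ι * d.X :=
    (mul_le_of_le_one_right (Nat.cast_nonneg _) hl2').trans hm
  have hkι : 0 ≤ k * (ι * d.X) := by positivity
  have hdd : VD.Dv 3 k d.m e + 3 * VD.Eu k K d.m B + ι * d.X ≤ io * d.X := by
    have h1 := VD.Eu_le (k := k) (K := K) hCB H.B0 hB
    unfold VD.Dv
    push_cast
    rw [hLc] at n2
    linarith
  have hdir := d3h H hω₀ ht (C := C) (U := U) (π₀ := ϖ) (h := h) (dd := io * d.X)
    (fv := ι * d.X) hCB hB hF hBs hfew (fun G hG _ => hrow G hG) (by linarith) (le_of_eq hC.symm)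
    hdd hιX
  have hιio1 : ι * d.X ≤ io * d.X := by
    have h3 : 0 ≤ ι * d.X * (2 * (k + 20) - 1) := by
      have : (0 : ℝ) ≤ 2 * (k + 20) - 1 := by linarith
      positivity
    linarith
  have ha0 : 0 < a₂ := hk.trans hka
  have hio1 : ι * d.X ≤ d.X := by
    have h3 : io ≤ 1 ∨ 1 < io := le_or_gt _ _
    have h4 : ι ≤ 1 := hι1'
    exact mul_le_of_le_one_left hXR h4
  have hmX : d.m ≤ d.X := by
    have : (d.m : ℝ) ≤ d.X := hm.trans hio1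
    exact_mod_cast this
  have hFAh : FAh (d.pic K p ω₀).p (fun ω : Ω => (d.th ω, d.z ω)) (Wn d.X V M)
      (Zn d.m d.X p ω₀ M) d.X kap (io * d.X) ϖ := by
    refine ⟨d.X - d.m, Nat.sub_le _ _, ?_, ?_⟩
    · rw [Nat.cast_sub hmX]
      linarith
    · refine (fa_fb (p := p) h0 (M := M) hmX (fun ω hω i => ?_) (fun ω ω' a a' e => ?_)
        hFB).mono (by linarith) le_rfl
      · exact congrArg (fun x => M x i % 2 ^ d.X / 2 ^ d.m) (rr_eq (ω₀ := ω₀) hω)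
      · exact (Prod.ext_iff.mp (Prod.ext_iff.mp e).1).2
  obtain ⟨lam, lamP, ep, G, g1, g2, g4, g5, g6, g7⟩ :=
    hX1 (d.pic K p ω₀) _ _ _ _ _ _ _ d.X hXa hdir hFAh
  have hline : ∀ {ω : Ω}, 0 < p ω → (d.pic K p ω₀).line ω = d.lnL K (d.L K ω) :=
    fun h => VD.lnL_eq h
  refine ⟨fun l => lam (d.lnL K l),
    fun y => lamP ((fun i => y.1 i % 2 ^ d.X / 2 ^ d.m), y.2),
    fun l j => plc fun a => 2 ^ d.m * ep (d.lnL K l) a j, G, g1, ?_,
    fun x l => g4 _ l, fun l j => plc_deg _, ?_, ?_⟩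
  · intro ω hω hG
    have h1 := g2 ω hG
    rw [hline hω] at h1
    exact h1
  · intro ω hω hG
    have h1 := g6 ω hG
    rw [hline hω] at h1
    have e1 : Zn d.m d.X p ω₀ M ω = fun i => M ω i % 2 ^ d.X / 2 ^ d.m := by
      funext i
      unfold Zn
      rw [rr_eq hω]
    exact h1.trans (congrArg (fun z => lamP (z, Bs ω)) e1)
  · intro ω hω hG j
    have hX : (0 : ℝ) < 2 ^ d.X := by positivity
    have hm0 : (0 : ℝ) < 2 ^ d.m := by positivity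
    have h1 := g7 ω hG j
    rw [hline hω] at h1
    have hth := H.th ω hω
    obtain ⟨a, ha'⟩ : ∃ a : Fin (K + 1) → ℝ, a = fun a => ep (d.lnL K (d.L K ω)) a j := ⟨_, rfl⟩
    obtain ⟨v, hv⟩ : ∃ v : Fin 3 → ℝ, v = lam (d.lnL K (d.L K ω)) := ⟨_, rfl⟩
    obtain ⟨bs, hbs⟩ : ∃ bs : ℝ, bs = h / 32 - a₂ := ⟨_, rfl⟩
    have hbs1 : bs ≤ 1 - a₂ := by
      rw [hbs]
      linarith
    have h2 : |(∑ i, v i * d.bb ω i j) / 2 ^ d.m - ∑ i : Fin (K + 1), a i *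
        ((⌊(2 : ℝ) ^ d.X * d.th ω⌋ : ℝ) / 2 ^ d.X) ^ (i : ℕ)| ≤
        (2 : ℝ) ^ ((s - bs) * d.X) := by
      have e1 : ∑ i, lam (d.lnL K (d.L K ω)) i *
          (d.pic K p ω₀).E ((d.pic K p ω₀).th ω) j i = (∑ i, v i * d.bb ω i j) / 2 ^ d.m := by
        rw [Finset.sum_div]
        refine Finset.sum_congr rfl fun i _ => ?_
        show lam (d.lnL K (d.L K ω)) i * (d.bb (rr p ω₀ ω) i j / 2 ^ d.m) = _
        rw [rr_eq hω, hv]
        ring
      have e2 : ((d.pic K p ω₀).tau ((d.pic K p ω₀).th ω) : ℝ) / 2 ^ d.X =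
          (⌊(2 : ℝ) ^ d.X * d.th ω⌋ : ℝ) / 2 ^ d.X := by
        show (⌊(2 : ℝ) ^ d.X * d.th (rr p ω₀ ω)⌋ : ℝ) / 2 ^ d.X = _
        rw [rr_eq hω]
      rw [e1, e2] at h1
      rw [ha', hbs]
      exact h1
    have h3 := plc_near (X := d.X) (a := a) (A := (2 : ℝ) ^ ((a₂ + s) * d.X)) (fun i => by
      rw [ha']
      exact g5 _ i j) hth.1 hth.2
    have h4 : (plc fun a => 2 ^ d.m * ep (d.lnL K (d.L K ω)) a j).eval (d.th ω) =
        2 ^ d.m * (plc a).eval (d.th ω) := by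
      rw [plc_eval, plc_eval, Finset.mul_sum, ha']
      exact Finset.sum_congr rfl fun i _ => by ring
    show |∑ i, lam (d.lnL K (d.L K ω)) i * d.bb ω i j -
      (plc fun a => 2 ^ d.m * ep (d.lnL K (d.L K ω)) a j).eval (d.th ω)| ≤ _
    rw [h4, ← hv, ← hbs]
    have h5 : |∑ i, v i * d.bb ω i j - 2 ^ d.m * (plc a).eval (d.th ω)| ≤
        2 ^ d.m * ((2 : ℝ) ^ ((s - bs) * d.X) +
          (K + 1) * K * ((2 : ℝ) ^ ((a₂ + s) * d.X) / 2 ^ d.X)) := by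
      have e1 : ∑ i, v i * d.bb ω i j - 2 ^ d.m * (plc a).eval (d.th ω) =
          2 ^ d.m * ((∑ i, v i * d.bb ω i j) / 2 ^ d.m - (plc a).eval (d.th ω)) := by
        field_simp
      rw [e1, abs_mul, abs_of_pos hm0]
      refine mul_le_mul_of_nonneg_left ?_ hm0.le
      have g1 := abs_le.1 h2
      have g2 := abs_le.1 h3
      rw [abs_le]
      constructor <;> linarith [g1.1, g1.2, g2.1, g2.2]
    refine h5.trans ?_
    -- the numbers
    have g3 : (2 : ℝ) ^ d.m ≤ 2 ^ (s * d.X) := by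
      rw [← Real.rpow_natCast]
      exact Real.rpow_le_rpow_of_exponent_le one_le_two
        (hm.trans (mul_le_mul_of_nonneg_right hι2 hXR))
    have g4 : (2 : ℝ) ^ ((a₂ + s) * d.X) / 2 ^ d.X ≤ 2 ^ ((s - bs) * d.X) := by
      rw [← Real.rpow_natCast, ← Real.rpow_sub two_pos]
      refine Real.rpow_le_rpow_of_exponent_le one_le_two ?_
      have e3 := mul_le_mul_of_nonneg_right hbs1 hXR
      linarith
    have g5' : (2 : ℝ) * ((K + 1) * K) + 2 ≤ 2 ^ (s * d.X) := by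
      rw [div_le_iff₀ hl2] at n3
      have e1 : (0 : ℝ) < 2 * ((K + 1) * K) + 2 := by positivity
      rw [← Real.exp_log e1, Real.rpow_def_of_pos two_pos]
      exact Real.exp_le_exp.2 (by linarith)
    have g6' : (0 : ℝ) < (2 : ℝ) ^ ((s - bs) * d.X) := Real.rpow_pos_of_pos two_pos _
    have hKK : (0 : ℝ) ≤ (K + 1) * K := by positivity
    have g7' := mul_le_mul_of_nonneg_left g4 hKK
    have g8 := mul_le_mul_of_nonneg_right g5' g6'.le
    have g9 : 0 ≤ ((K : ℝ) + 1) * K * 2 ^ ((s - bs) * d.X) := by positivity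
    calc (2 : ℝ) ^ d.m * ((2 : ℝ) ^ ((s - bs) * d.X) + (K + 1) * K *
          ((2 : ℝ) ^ ((a₂ + s) * d.X) / 2 ^ d.X))
        ≤ 2 ^ (s * d.X) * (2 ^ (s * d.X) * (2 : ℝ) ^ ((s - bs) * d.X)) := by
          refine mul_le_mul g3 ?_ (by positivity) (by positivity)
          linarith
      _ = 2 ^ (s * d.X + (s * d.X + (s - bs) * d.X)) := by
          rw [← Real.rpow_add two_pos, ← Real.rpow_add two_pos]
      _ ≤ 2 ^ ((σ - bs) * d.X) := by
          refine Real.rpow_le_rpow_of_exponent_le one_le_two ?_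
          have e1 : 3 * s - bs ≤ σ - bs := by
            rw [hs]
            linarith
          have e2 := mul_le_mul_of_nonneg_right e1 hXR
          linarith

end Pool.DR24
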